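import Pool.Agent.Lib.MP_ea4949_co.Main

set_option autoImplicit false
set_option linter.unusedSectionVars false
set_option linter.unusedVariables false

namespace Pool.Agent.Lib.MP_ea4949_co

open Finset
open scoped Pointwise

/-- The conclusion of `half_of_large` for a given threshold. -/
def HalfBound (m₀ : ℕ) : Prop := ∀ (α : Type) [DecidableEq α] (s : Finset α) (r : ℕ),
    m₀ ≤ s.card → 100 * (2 * r) ≤ 101 * s.card → 99 * s.card ≤ 100 * (2 * r) →
    s.card ^ 3 ≤ s.card.choose (r - 1) →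
    2 * ((indSets (JG α) (s.powersetCard r)).filter
      (fun Q => 19 * s.card.choose (r - 1) ≤ 20 * (r * Q.card))).card ≤
        (indSets (JG α) (s.powersetCard r)).card

lemma ext_case {m₀ : ℕ} (hm₀ : HalfBound m₀) {n r : ℕ} (hn : m₀ + 2 ≤ n) (hn' : 2000 ≤ n)
    (hr1 : 496 * n ≤ 1000 * r) (hr2 : 1000 * r ≤ 504 * n)
    (hC : (n - 2) ^ 3 ≤ (n - 2).choose (r - 1)) (e f : Fin n) (hef : e ≠ f) :
    (indSets (JG (Fin n)) (((univ : Finset (Fin n)).powersetCard r).filter
      (fun X => e ∈ X ↔ f ∈ X))).card * 2 ^ ((n - 2).choose (r - 1) / (3200 * (n - 2))) ≤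
      3200 * (indSets (JG (Fin n)) ((univ : Finset (Fin n)).powersetCard r)).card := by
  set s : Finset (Fin n) := ((univ : Finset (Fin n)).erase e).erase f with hs
  have he : e ∉ s := by rw [hs, mem_erase, mem_erase]; rintro ⟨_, h, _⟩; exact h rfl
  have hf : f ∉ s := by rw [hs, mem_erase]; rintro ⟨h, _⟩; exact h rfl
  have hE : (univ : Finset (Fin n)) = insert e (insert f s) := by
    rw [hs, insert_erase (mem_erase.mpr ⟨hef.symm, mem_univ _⟩), insert_erase (mem_univ _)]
  have hcard : s.card = n - 2 := by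
    rw [hs, card_erase_of_mem (mem_erase.mpr ⟨hef.symm, mem_univ _⟩),
      card_erase_of_mem (mem_univ _), card_univ, Fintype.card_fin]
    omega
  have hr : 2 ≤ r := by omega
  have h0 : ∀ X ∈ s.powersetCard (r - 1),
      (indSets (JG (Fin n)) (s.powersetCard r)).card ≤ 40 * (uncFam s r X).card := by
    intro X hX
    refine cov_of_half s r (by omega) (by omega) ?_ hX
    exact hm₀ (Fin n) s r (by omega) (by omega) (by omega) (by rw [hcard]; exact hC)
  have h2 : ∀ X ∈ s.powersetCard (r - 1),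
      (indSets (JG (Fin n)) (s.powersetCard (r - 2))).card ≤ 40 * (uncFam' s (r - 2) X).card := by
    intro X hX
    have hX' := mem_powersetCard.mp hX
    rw [card_uncFam' (by omega) hX'.1, card_indSets_compl (by omega : r - 2 ≤ s.card)]
    have hX2 : s \ X ∈ s.powersetCard (s.card - (r - 2) - 1) := by
      rw [mem_powersetCard]
      refine ⟨sdiff_subset, ?_⟩
      rw [card_sdiff_of_subset hX'.1, hX'.2]
      omega
    refine cov_of_half s (s.card - (r - 2)) (by omega) (by omega) ?_ hX2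
    refine hm₀ (Fin n) s (s.card - (r - 2)) (by omega) (by omega) (by omega) ?_
    have h3 : s.card - (r - 2) - 1 = s.card - (r - 1) := by omega
    rw [h3, Nat.choose_symm (by omega), hcard]
    exact hC
  have h4 := extend_bound hef he hf hE hr (by omega) (by omega) h0 h2
  have h5 := card_indSets_unsplit_le hef he hf hE hr
  rw [hcard] at h4
  exact (Nat.mul_le_mul_right _ h5).trans h4

/-- Relation between binomial coefficients. -/
lemma choose_rel {n r : ℕ} (hn : 2 ≤ n) (hr : 1 ≤ r) (hrn : r + 1 ≤ n) :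
    (n - 2).choose (r - 1) * (n * (n - 1)) = n.choose r * (r * (n - r)) := by
  obtain ⟨m, rfl⟩ : ∃ m, n = m + 2 := ⟨n - 2, by omega⟩
  obtain ⟨k, rfl⟩ : ∃ k, r = k + 1 := ⟨r - 1, by omega⟩
  have h1 := Nat.add_one_mul_choose_eq (m + 1) k
  have h2 := Nat.choose_mul_succ_eq m k
  have e1 : m + 2 - 2 = m := by omega
  have e2 : k + 1 - 1 = k := by omega
  have e3 : m + 2 - 1 = m + 1 := by omega
  have e4 : m + 2 - (k + 1) = m + 1 - k := by omega
  rw [e1, e2, e3, e4]
  calc m.choose k * ((m + 2) * (m + 1)) = (m + 2) * (m.choose k * (m + 1)) := by ring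
    _ = (m + 2) * ((m + 1).choose k * (m + 1 - k)) := by rw [h2]
    _ = ((m + 1 + 1) * (m + 1).choose k) * (m + 1 - k) := by ring
    _ = ((m + 1 + 1).choose (k + 1) * (k + 1)) * (m + 1 - k) := by rw [h1]
    _ = _ := by ring

/-- The main bound in the central range. -/
theorem case_B {m₀ : ℕ} (hm₀ : HalfBound m₀) {n : ℕ} (hn : m₀ + 2 ≤ n)
    (hL1 : 10000 ≤ Real.log n) (hsL : 1000000 * (Real.log n) ^ 5 ≤ Real.sqrt n)
    (σ : Equiv.Perm (Fin n)) (hσ : σ ≠ 1) {r : ℕ} (hr : r ≤ n)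
    (hK : n.choose (n / 2) ≤ n ^ 2 * n.choose r) :
    (invBF σ r).card * 2 ^ (n ^ 3) ≤ Nat.card {M : Matroid (Fin n) // M.E = Set.univ} := by
  classical
  set L := Real.log n with hL
  set s := Real.sqrt n with hs
  have hL0 : (0 : ℝ) < L := by linarith
  have hL5 : L ≤ L ^ 5 := by
    calc L = L ^ 1 := (pow_one L).symm
      _ ≤ L ^ 5 := pow_le_pow_right₀ (by linarith) (by norm_num)
  have hsL1 : 1000000 * L ≤ s := by linarith
  have hs1 : 10000000000 ≤ s := by linarith
  have hs2 : s ^ 2 = n := Real.sq_sqrt (Nat.cast_nonneg _)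
  have hnR : (1000000000000 : ℝ) ≤ n := by rw [← hs2]; nlinarith
  have hnN : 1000000000000 ≤ n := by exact_mod_cast hnR
  have hn0 : (0 : ℝ) < n := by linarith
  have hexpL : Real.exp L = n := by rw [hL, Real.exp_log hn0]
  have hexpLk : ∀ k : ℕ, Real.exp (k * L) = (n : ℝ) ^ k := by
    intro k; rw [Real.exp_nat_mul, hexpL]
  have hlog2a : 0.69 < Real.log 2 := by
    have := Real.log_two_gt_d9; linarith
  -- size of the power of two
  have h2n : (n : ℝ) ^ 100 ≤ 2 ^ n := by
    rw [← hexpLk 100]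
    have : (2 : ℝ) ^ n = Real.exp (n * Real.log 2) := by
      rw [Real.exp_nat_mul, Real.exp_log (by norm_num)]
    rw [this]
    apply Real.exp_le_exp.mpr
    push_cast
    have h1 : 1000000 * L ≤ n := by rw [← hs2]; nlinarith
    nlinarith
  set K := n.choose r with hKdef
  have hKpos : 0 < K := Nat.choose_pos hr
  have hK1 : (2 : ℝ) ^ n ≤ (n : ℝ) ^ 4 * K := by
    have h1 : 2 ^ n ≤ n ^ 4 * K := by
      calc 2 ^ n ≤ (n + 1) * n.choose (n / 2) := two_pow_le n
        _ ≤ (n + 1) * (n ^ 2 * K) := Nat.mul_le_mul_left _ hK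
        _ ≤ n ^ 2 * (n ^ 2 * K) := Nat.mul_le_mul_right _ (by nlinarith)
        _ = n ^ 4 * K := by ring
    exact_mod_cast h1
  have hK2 : (n : ℝ) ^ 96 ≤ K := by
    have h1 : (n : ℝ) ^ 4 * (n : ℝ) ^ 96 ≤ (n : ℝ) ^ 4 * K := by
      rw [← pow_add]
      exact h2n.trans hK1
    exact le_of_mul_le_mul_left h1 (by positivity)
  -- the width
  set w := ⌈s * L⌉₊ with hw
  have hw1 : s * L ≤ w := Nat.le_ceil _
  have hw2 : (w : ℝ) ≤ s * L + 1 := (Nat.ceil_lt_add_one (by positivity)).le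
  have hwn : 1000 * (w : ℝ) + 2000 ≤ n := by
    have h1 : 1000000 * (s * L) ≤ n := by rw [← hs2]; nlinarith
    linarith
  have hwN : 1000 * w + 2000 ≤ n := by exact_mod_cast hwn
  obtain ⟨ρ, hρ⟩ : ∃ ρ, ρ + w = n / 2 := ⟨n / 2 - w, by omega⟩
  obtain ⟨t, ht⟩ : ∃ t, t + 2 * ρ = n := ⟨n - 2 * ρ, by omega⟩
  have htw : t ≤ 2 * w + 1 := by omega
  -- the tail
  set T := ∑ k ∈ range (ρ + 1), n.choose k with hT
  have htail : (T : ℝ) * (n : ℝ) ^ 96 ≤ K := by
    have h1 := tail_le (n := n) (ρ := ρ) (w := w) (by omega) (by omega)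
    rw [← hT] at h1
    have h2 : Real.exp (-(2 * (w : ℝ) ^ 2 / n)) ≤ Real.exp (-(100 * L)) := by
      apply Real.exp_le_exp.mpr
      apply neg_le_neg
      rw [le_div_iff₀ hn0]
      have h3 : (s * L) ^ 2 ≤ (w : ℝ) ^ 2 := pow_le_pow_left₀ (by positivity) hw1 2
      have h4 : (s * L) ^ 2 = n * L ^ 2 := by rw [mul_pow, hs2]
      rw [h4] at h3
      have h5 : (n : ℝ) * (L * 10000) ≤ n * L ^ 2 := by
        apply mul_le_mul_of_nonneg_left _ hn0.le
        nlinarith
      have h6 : 0 ≤ (n : ℝ) * L := by positivity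
      nlinarith
    have h7 : Real.exp (-(100 * L)) * (n : ℝ) ^ 100 = 1 := by
      rw [← hexpLk 100, ← Real.exp_add]
      push_cast
      rw [neg_add_cancel, Real.exp_zero]
    have h8 : ((T : ℝ) * (n : ℝ) ^ 96) * (n : ℝ) ^ 4 ≤ K * (n : ℝ) ^ 4 := by
      calc ((T : ℝ) * (n : ℝ) ^ 96) * (n : ℝ) ^ 4 = T * (n : ℝ) ^ 100 := by ring
        _ ≤ (2 ^ n * Real.exp (-(100 * L))) * (n : ℝ) ^ 100 := by
          apply mul_le_mul_of_nonneg_right _ (by positivity)
          exact h1.trans (mul_le_mul_of_nonneg_left h2 (by positivity))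
        _ = 2 ^ n * (Real.exp (-(100 * L)) * (n : ℝ) ^ 100) := by ring
        _ = 2 ^ n := by rw [h7, mul_one]
        _ ≤ (n : ℝ) ^ 4 * K := hK1
        _ = K * (n : ℝ) ^ 4 := by ring
    exact le_of_mul_le_mul_right h8 (by positivity)
  have hn96 : (2 : ℝ) ≤ (n : ℝ) ^ 96 := by
    calc (2 : ℝ) ≤ n := by linarith
      _ = (n : ℝ) ^ 1 := (pow_one _).symm
      _ ≤ (n : ℝ) ^ 96 := pow_le_pow_right₀ (by linarith) (by norm_num)
  have hKR : (0 : ℝ) < K := by exact_mod_cast hKpos
  have hTK : T < K := by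
    by_contra hcon
    push Not at hcon
    have h1 : (K : ℝ) ≤ T := by exact_mod_cast hcon
    have h2 : (T : ℝ) * 2 ≤ (T : ℝ) * (n : ℝ) ^ 96 :=
      mul_le_mul_of_nonneg_left hn96 (Nat.cast_nonneg _)
    linarith
  have hρr : ρ < r := by
    by_contra hcon
    push Not at hcon
    have h1 : n.choose r ≤ T := by
      rw [hT]
      exact single_le_sum (f := fun k => n.choose k) (fun _ _ => Nat.zero_le _)
        (mem_range.mpr (by omega))
    omega
  have hρr' : ρ < n - r := by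
    by_contra hcon
    push Not at hcon
    have h1 : n.choose (n - r) ≤ T := by
      rw [hT]
      exact single_le_sum (f := fun k => n.choose k) (fun _ _ => Nat.zero_le _)
        (mem_range.mpr (by omega))
    rw [Nat.choose_symm hr] at h1
    omega
  have hr1 : 496 * n ≤ 1000 * r := by omega
  have hr2 : 1000 * r ≤ 504 * n := by omega
  have hρ1 : 490 * n ≤ 1000 * ρ := by omega
  have hrR1 : (0.496 : ℝ) * n ≤ r := by
    have : ((496 * n : ℕ) : ℝ) ≤ ((1000 * r : ℕ) : ℝ) := by exact_mod_cast hr1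
    push_cast at this; linarith
  have hrR2 : (r : ℝ) ≤ 0.504 * n := by
    have : ((1000 * r : ℕ) : ℝ) ≤ ((504 * n : ℕ) : ℝ) := by exact_mod_cast hr2
    push_cast at this; linarith
  have hρR1 : (0.49 : ℝ) * n ≤ ρ := by
    have : ((490 * n : ℕ) : ℝ) ≤ ((1000 * ρ : ℕ) : ℝ) := by exact_mod_cast hρ1
    push_cast at this; linarith
  -- the unit
  set u : ℝ := (K : ℝ) / (n : ℝ) ^ 2 with hu
  have hKu : (K : ℝ) = u * (n : ℝ) ^ 2 := by
    rw [hu, div_mul_cancel₀ _ (by positivity)]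
  have hu94 : (n : ℝ) ^ 94 ≤ u := by
    rw [hu, le_div_iff₀ (by positivity), ← pow_add]
    exact hK2
  have hun : (n : ℝ) ^ 3 ≤ u := le_trans (pow_le_pow_right₀ (by linarith) (by norm_num)) hu94
  have hu1 : 1 ≤ u := le_trans (one_le_pow₀ (by linarith)) hu94
  have hTu : (T : ℝ) ≤ u := by
    rw [hu, le_div_iff₀ (by positivity)]
    refine le_trans (mul_le_mul_of_nonneg_left ?_ (Nat.cast_nonneg _)) htail
    exact pow_le_pow_right₀ (by linarith) (by norm_num)
  -- the greedy parameters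
  set κ : ℝ := (n : ℝ) ^ 2 / (20 * K) with hκ
  have hu0 : 0 < u := by linarith
  have hκu : κ = 1 / (20 * u) := by
    rw [hκ, hKu]
    have hn2 : (n : ℝ) ^ 2 ≠ 0 := by positivity
    have hu0' : u ≠ 0 := hu0.ne'
    clear_value u
    generalize (n : ℝ) ^ 2 = z at hn2
    field_simp
  have hκ0 : 0 ≤ κ := by rw [hκu]; positivity
  have hκ1 : κ ≤ 1 := by
    rw [hκu, div_le_one (by positivity)]
    linarith
  set a := ⌈40 * L * u⌉₊ with ha
  set b := ⌈u⌉₊ with hb
  have ha1 : 40 * L * u ≤ a := Nat.le_ceil _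
  have ha2 : (a : ℝ) ≤ 40 * L * u + 1 := (Nat.ceil_lt_add_one (by positivity)).le
  have hb1 : u ≤ b := Nat.le_ceil _
  have hb2 : (b : ℝ) ≤ u + 1 := (Nat.ceil_lt_add_one (by positivity)).le
  have hab : (K : ℝ) * (1 - κ) ^ a ≤ b := by
    have h1 : (1 - κ) ^ a ≤ Real.exp (-(κ * a)) := by
      have h2 : 1 - κ ≤ Real.exp (-κ) := by
        have := Real.add_one_le_exp (-κ); linarith
      calc (1 - κ) ^ a ≤ (Real.exp (-κ)) ^ a := pow_le_pow_left₀ (by linarith) h2 a
        _ = Real.exp (-(κ * a)) := by rw [← Real.exp_nat_mul]; congr 1; ring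
    have h3 : 2 * L ≤ κ * a := by
      rw [hκu, div_mul_eq_mul_div, le_div_iff₀ (by positivity)]
      linarith
    have h4 : Real.exp (-(κ * a)) ≤ Real.exp (-(2 * L)) := Real.exp_le_exp.mpr (by linarith)
    have h5 : Real.exp (-(2 * L)) * (n : ℝ) ^ 2 = 1 := by
      rw [← hexpLk 2, ← Real.exp_add]
      push_cast
      rw [neg_add_cancel, Real.exp_zero]
    calc (K : ℝ) * (1 - κ) ^ a ≤ K * Real.exp (-(2 * L)) :=
          mul_le_mul_of_nonneg_left (h1.trans h4) hKR.le
      _ = u * (Real.exp (-(2 * L)) * (n : ℝ) ^ 2) := by rw [hKu]; ring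
      _ = u := by rw [h5, mul_one]
      _ ≤ b := hb1
  -- apply the counting bound
  have hcount := card_invBF_le σ (r := r) (ρ := ρ) (t := t) (Δ := ρ) (a := a) (b := b) hκ0 hκ1
    (fun A hA hX => hdeg_of (by omega) (by linarith) (by linarith) hρR1 A hA hX) le_rfl
    (by omega) (by rw [Fintype.card_fin]; omega) (by rw [Fintype.card_fin]; exact hab)
  rw [card_smallSets, Fintype.card_fin, ← hT] at hcount
  -- the data bound
  set M := (items (α := Fin n) r t).card with hM
  have hMle : (M : ℝ) ≤ u * (n : ℝ) ^ 2 * (2 * ((n : ℝ) + 1) ^ (2 * t)) := by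
    have h1 := card_items_le (α := Fin n) r t
    rw [Fintype.card_fin, ← hM, ← hKdef] at h1
    have h2 : (M : ℝ) ≤ ((K * (2 * (n + 1) ^ (2 * t)) : ℕ) : ℝ) := by exact_mod_cast h1
    push_cast at h2
    rw [hKu] at h2
    exact h2
  have htR : (t : ℝ) ≤ 2 * s * L + 3 := by
    have h1 : (t : ℝ) ≤ 2 * w + 1 := by exact_mod_cast htw
    linarith
  have hqR : ((a + b : ℕ) : ℝ) ≤ 42 * L * u := by
    push_cast
    have h1 : 2 * u ≤ L * u := mul_le_mul_of_nonneg_right (by linarith) hu0.le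
    linarith
  have hdata := data_le (n := n) (T := T) (M := M) (q := a + b) (t := t) hs2 rfl hL1 hsL hu1 hTu
    hMle htR hqR
  -- the choice of g
  set g := ⌈u * s * L ^ 4⌉₊ with hg
  have hg1 : u * s * L ^ 4 ≤ g := Nat.le_ceil _
  have hg2 : (g : ℝ) ≤ u * s * L ^ 4 + 1 := (Nat.ceil_lt_add_one (by positivity)).le
  have hsum := sum_g_le (n := n) (K := K) (g := g) hs2 rfl hL1 hsL hu1 hKu hg2
  -- the number of unions of orbits
  have hOm := card_image_Om_le σ ((univ : Finset (Fin n)).powersetCard r) (inv_powersetCard σ r) g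
  rw [card_powersetCard, card_univ, Fintype.card_fin, ← hKdef] at hOm
  -- the fixed sets
  obtain ⟨e, he⟩ : ∃ e, σ e ≠ e := by
    by_contra hcon
    push Not at hcon
    exact hσ (Equiv.ext hcon)
  set f := σ e with hf
  have hef : e ≠ f := fun h => he h.symm
  have hfix : ((univ : Finset (Fin n)).powersetCard r).filter (fun X => σ • X = X) ⊆
      ((univ : Finset (Fin n)).powersetCard r).filter (fun X => e ∈ X ↔ f ∈ X) := by
    intro X hX
    rw [mem_filter] at hX ⊢
    refine ⟨hX.1, ?_⟩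
    have h1 : f ∈ σ • X ↔ e ∈ X := by
      rw [hf, ← Equiv.Perm.smul_def]
      exact smul_mem_smul_finset_iff σ
    rw [hX.2] at h1
    exact h1.symm
  have hCm : (n - 2).choose (r - 1) * (n * (n - 1)) = K * (r * (n - r)) :=
    choose_rel (by omega) (by omega) (by omega)
  have hCR : 0.24 * K ≤ ((n - 2).choose (r - 1) : ℝ) := by
    have h1 : ((n - 2).choose (r - 1) : ℝ) * (n * (n - 1)) = K * (r * (n - r)) := by
      have : (((n - 2).choose (r - 1) * (n * (n - 1)) : ℕ) : ℝ) =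
          ((K * (r * (n - r)) : ℕ) : ℝ) := by rw [hCm]
      push_cast [Nat.cast_sub (show 1 ≤ n by omega), Nat.cast_sub hr] at this
      exact this
    have h2 : (0.24 * K) * ((n : ℝ) * (n - 1)) ≤
        ((n - 2).choose (r - 1) : ℝ) * (n * (n - 1)) := by
      rw [h1]
      have h3 : (0.24 : ℝ) * (n * (n - 1)) ≤ r * (n - r) := by nlinarith
      calc (0.24 * K) * ((n : ℝ) * (n - 1)) = K * (0.24 * (n * (n - 1))) := by ring
        _ ≤ K * (r * (n - r)) := mul_le_mul_of_nonneg_left h3 hKR.le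
    exact le_of_mul_le_mul_right h2 (mul_pos hn0 (by linarith))
  have hC3 : (n - 2) ^ 3 ≤ (n - 2).choose (r - 1) := by
    have h1 : ((n ^ 3 : ℕ) : ℝ) ≤ (((n - 2).choose (r - 1) : ℕ) : ℝ) := by
      push_cast
      refine le_trans ?_ hCR
      have h2 : (n : ℝ) ^ 3 * 5 ≤ K := by
        refine le_trans ?_ hK2
        calc (n : ℝ) ^ 3 * 5 ≤ (n : ℝ) ^ 3 * n :=
              mul_le_mul_of_nonneg_left (by linarith) (by positivity)
          _ = (n : ℝ) ^ 4 := by ring
          _ ≤ (n : ℝ) ^ 96 := pow_le_pow_right₀ (by linarith) (by norm_num)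
      linarith
    have h2 : n ^ 3 ≤ (n - 2).choose (r - 1) := by exact_mod_cast h1
    exact (Nat.pow_le_pow_left (by omega) 3).trans h2
  have hext := ext_case hm₀ hn (by omega) hr1 hr2 hC3 e f hef
  set G := (n - 2).choose (r - 1) / (3200 * (n - 2)) with hG
  have hGR : u * s ^ 2 / 15000 ≤ G := by
    have h1 : (n - 2).choose (r - 1) < (G + 1) * (3200 * (n - 2)) := by
      have h2 := Nat.lt_div_mul_add (a := (n - 2).choose (r - 1)) (b := 3200 * (n - 2)) (by omega)
      rw [← hG] at h2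
      rw [add_mul, one_mul]
      exact h2
    have h3 : ((n - 2).choose (r - 1) : ℝ) ≤ (G + 1) * (3200 * n) := by
      have h4 : ((n - 2).choose (r - 1) : ℝ) ≤ (((G + 1) * (3200 * (n - 2)) : ℕ) : ℝ) := by
        exact_mod_cast h1.le
      refine h4.trans ?_
      push_cast [Nat.cast_sub (show 2 ≤ n by omega)]
      apply mul_le_mul_of_nonneg_left _ (by positivity)
      linarith
    have h5 : 0.24 * (u * (n : ℝ) ^ 2) ≤ (G + 1) * (3200 * n) := by
      rw [← hKu]; exact hCR.trans h3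
    have h6 : 0.24 * (u * n) ≤ (G + 1) * 3200 := by
      have h7 : (0.24 * (u * n)) * n ≤ ((G + 1) * 3200) * (n : ℝ) := by
        calc (0.24 * (u * n)) * (n : ℝ) = 0.24 * (u * (n : ℝ) ^ 2) := by ring
          _ ≤ _ := h5
          _ = _ := by ring
      exact le_of_mul_le_mul_right h7 hn0
    rw [hs2]
    have h8 : 1000000000000 * 1 ≤ (n : ℝ) * u := mul_le_mul hnR hu1 (by norm_num) hn0.le
    linarith
  -- conclusion
  set O := ((indT σ ((univ : Finset (Fin n)).powersetCard r)).image (Om σ)).card with hO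
  set I := (indSets (JG (Fin n)) ((univ : Finset (Fin n)).powersetCard r)).card with hI
  set F := (indSets (JG (Fin n)) (((univ : Finset (Fin n)).powersetCard r).filter
    (fun X => σ • X = X))).card with hF
  set D := 2 ^ (2 * T) * ∑ j ∈ range (a + b + 1), M.choose j with hD
  have hFG : F * 2 ^ G ≤ 3200 * I :=
    (Nat.mul_le_mul_right _ (card_le_card (indSets_mono hfix))).trans hext
  have hfinal := final_le (n := n) (g := g) (G := G) (D := (D : ℝ)) (O := (O : ℝ)) (I := (I : ℝ))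
    (F := (F : ℝ)) (Sg := ((∑ j ∈ range g, K.choose j : ℕ) : ℝ)) hL1 hsL hu1 hun
    (Nat.cast_nonneg _) (Nat.cast_nonneg _) (Nat.cast_nonneg _) (Nat.cast_nonneg _) hdata hsum
    (by exact_mod_cast hOm) (by exact_mod_cast hFG) hg1 hGR
  have hfinal' : D * O * 2 ^ (n ^ 3) ≤ I := by exact_mod_cast hfinal
  have hmat : I ≤ Nat.card {M : Matroid (Fin n) // M.E = Set.univ} :=
    card_indSets_le_matroids (by omega) (by rw [Fintype.card_fin]; omega)
  exact (Nat.mul_le_mul_right _ hcount).trans (hfinal'.trans hmat)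

end Pool.Agent.Lib.MP_ea4949_co
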