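import Pool.Agent.Lib.MP_ea4949_co.Orbits

set_option autoImplicit false
set_option linter.unusedSectionVars false
set_option linter.unusedVariables false

namespace Pool.Agent.Lib.MP_ea4949_co

open Finset
open scoped Pointwise

variable {α : Type*} [DecidableEq α] [Fintype α]

/-- The families of bases invariant under `σ`. -/
noncomputable def invBF (σ : Equiv.Perm α) (r : ℕ) : Finset (Finset (Finset α)) :=
  @Finset.filter _ (fun B => BF r B ∧ Inv σ B) (Classical.decPred _) univ

lemma mem_invBF {σ : Equiv.Perm α} {r : ℕ} {B : Finset (Finset α)} :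
    B ∈ invBF σ r ↔ BF r B ∧ Inv σ B := by
  unfold invBF
  rw [mem_cfilter]; simp

lemma inv_powersetCard (σ : Equiv.Perm α) (r : ℕ) :
    Inv σ ((univ : Finset α).powersetCard r) := by
  intro X
  rw [mem_powersetCard, mem_powersetCard, card_smul_finset]
  simp

lemma inv_unco {σ : Equiv.Perm α} {B : Finset (Finset α)} (h : Inv σ B) (r ρ : ℕ)
    (S : Finset (Item α)) : Inv σ (unco σ r ρ B S) := by
  intro X
  rw [mem_unco, mem_unco, card_smul_finset, h X, inv_W h r ρ S X]

/-- small sets -/
def smallSets (α : Type*) [DecidableEq α] [Fintype α] (ρ : ℕ) : Finset (Finset α) :=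
  univ.filter (fun C => C.card ≤ ρ)

/-- large sets -/
def largeSets (α : Type*) [DecidableEq α] [Fintype α] (ρ : ℕ) : Finset (Finset α) :=
  univ.filter (fun C => Fintype.card α ≤ C.card + ρ)

lemma card_largeSets_le (ρ : ℕ) : (largeSets α ρ).card ≤ (smallSets α ρ).card := by
  refine card_le_card_of_injOn (fun C => univ \ C) ?_ ?_
  · intro C hC
    rw [mem_coe, largeSets, mem_filter] at hC
    rw [mem_coe, smallSets, mem_filter]
    refine ⟨mem_univ _, ?_⟩
    simp only
    rw [card_sdiff_of_subset (subset_univ _), card_univ]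
    omega
  · intro C _ C' _ h
    simp only at h
    rw [← Finset.sdiff_sdiff_eq_self (subset_univ C), h, Finset.sdiff_sdiff_eq_self (subset_univ C')]

theorem card_invBF_le (σ : Equiv.Perm α) {r ρ t Δ a b : ℕ} {κ : ℝ} (hκ0 : 0 ≤ κ) (hκ1 : κ ≤ 1)
    (hdeg : ∀ A ⊆ (univ : Finset α).powersetCard r, (∃ X ∈ A, Δ ≤ (nbrs (JG α) A X).card) →
      ∃ X ∈ A, κ * A.card ≤ (nbrs (JG α) A X).card)
    (hΔ : Δ ≤ ρ) (ht1 : r ≤ ρ + t) (ht2 : Fintype.card α ≤ ρ + r + t)
    (hab : ((Fintype.card α).choose r : ℝ) * (1 - κ) ^ a ≤ b) :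
    (invBF σ r).card ≤ 2 ^ (2 * (smallSets α ρ).card) *
      (∑ j ∈ range (a + b + 1), (items (α := α) r t).card.choose j) *
      ((indT σ ((univ : Finset α).powersetCard r)).image (Om σ)).card := by
  classical
  set V := (univ : Finset α).powersetCard r with hV
  have hVcard : V.card = (Fintype.card α).choose r := by rw [hV, card_powersetCard, card_univ]
  -- the greedy choice
  have hgr : ∀ B ∈ invBF σ r, ∃ S : Finset (Item α), (∀ ι ∈ S, Valid B ι) ∧ S ⊆ items r t ∧
      S.card < a + b + 1 ∧
      ∀ X ∈ unco σ r ρ B S, (nbrs (JG α) (unco σ r ρ B S) X).card < Δ := by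
    intro B hB
    rw [mem_invBF] at hB
    obtain ⟨S, h1, h2, h3, h4⟩ := greedy (σ := σ) (r := r) (ρ := ρ) (t := t) (Δ := Δ) hκ0 hκ1
      hdeg hB.1 hB.2 ht1 ht2 (a + b) a b rfl ∅ (by simp) (by simp) (by
        refine le_trans (mul_le_mul_of_nonneg_right ?_ (pow_nonneg (by linarith) _)) hab
        rw [← hVcard]
        have : unco σ r ρ B ∅ ⊆ V := sdiff_subset.trans sdiff_subset
        exact_mod_cast card_le_card this)
    rw [card_empty] at h3
    exact ⟨S, h1, h2, by omega, h4⟩
  choose! S hSv hSi hSc hSd using hgr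
  have hdom : ∀ B ∈ invBF σ r, ∃ R ∈ indT σ V, Om σ R ⊆ unco σ r ρ B (S B) ∧
      ∀ Z ∈ unco σ r ρ B (S B), Z ∈ Om σ R ∨ ∃ X ∈ Om σ R, (JG α).Adj X Z := by
    intro B hB
    rw [mem_invBF] at hB
    exact exists_dom σ V _ (sdiff_subset.trans sdiff_subset) (inv_unco hB.2 r ρ (S B))
  choose! R hR hRs hRd using hdom
  -- the map
  have hinj : (invBF σ r).card ≤ ((smallSets α ρ).powerset ×ˢ (largeSets α ρ).powerset ×ˢ
      ((items (α := α) r t).powerset.filter (fun A => A.card < a + b + 1)) ×ˢ
      ((indT σ V).image (Om σ))).card := by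
    refine card_le_card_of_injOn (fun B => (smallDep ρ B, largeNon ρ B, S B, Om σ (R B))) ?_ ?_
    · intro B hB
      rw [mem_coe] at hB
      rw [mem_coe, mem_product, mem_product, mem_product, mem_powerset, mem_powerset, mem_filter,
        mem_powerset]
      refine ⟨?_, ?_, ⟨hSi B hB, hSc B hB⟩, mem_image_of_mem _ (hR B hB)⟩
      · intro C hC
        simp only at hC
        rw [mem_smallDep] at hC
        rw [smallSets, mem_filter]
        exact ⟨mem_univ _, hC.1⟩
      · intro C hC
        simp only at hC
        rw [mem_largeNon] at hC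
        rw [largeSets, mem_filter]
        exact ⟨mem_univ _, hC.1⟩
    · intro B hB B' hB' h
      rw [mem_coe] at hB hB'
      simp only [Prod.mk.injEq] at h
      obtain ⟨h1, h2, h3, h4⟩ := h
      have hB₁ := mem_invBF.mp hB
      have hB₁' := mem_invBF.mp hB'
      have hW : W σ r (smallDep ρ B) (largeNon ρ B) (S B) =
          W σ r (smallDep ρ B') (largeNon ρ B') (S B') := by rw [h1, h2, h3]
      exact decode hΔ hB₁.1 hB₁'.1 hB₁.2 hB₁'.2 (hSv B hB) (hSv B' hB') (hSd B hB) (hSd B' hB')
        hW (hRs B hB) (by rw [h4]; exact hRs B' hB') (hRd B hB) (by rw [h4]; exact hRd B' hB')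
  refine hinj.trans ?_
  rw [card_product, card_product, card_product, card_powerset, card_powerset]
  have h5 : 2 ^ (smallSets α ρ).card * 2 ^ (largeSets α ρ).card ≤
      2 ^ (2 * (smallSets α ρ).card) := by
    rw [← pow_add]
    refine Nat.pow_le_pow_right (by norm_num) ?_
    have := card_largeSets_le (α := α) ρ
    omega
  have h6 : ((items (α := α) r t).powerset.filter (fun A => A.card < a + b + 1)).card ≤
      ∑ j ∈ range (a + b + 1), (items (α := α) r t).card.choose j := by
    have h7 : (items (α := α) r t).powerset.filter (fun A => A.card < a + b + 1) ⊆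
        (range (a + b + 1)).biUnion (fun j => (items (α := α) r t).powersetCard j) := by
      intro A hA
      rw [mem_filter, mem_powerset] at hA
      rw [mem_biUnion]
      exact ⟨A.card, mem_range.mpr hA.2, mem_powersetCard.mpr ⟨hA.1, rfl⟩⟩
    refine (card_le_card h7).trans (card_biUnion_le.trans ?_)
    refine sum_le_sum (fun j _ => ?_)
    rw [card_powersetCard]
  calc _ = (2 ^ (smallSets α ρ).card * 2 ^ (largeSets α ρ).card) *
        (((items (α := α) r t).powerset.filter (fun A => A.card < a + b + 1)).card *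
          ((indT σ V).image (Om σ)).card) := by ring
    _ ≤ 2 ^ (2 * (smallSets α ρ).card) *
        ((∑ j ∈ range (a + b + 1), (items (α := α) r t).card.choose j) *
          ((indT σ V).image (Om σ)).card) :=
        Nat.mul_le_mul h5 (Nat.mul_le_mul_right _ h6)
    _ = _ := by ring

/-- the number of small sets -/
lemma card_smallSets (ρ : ℕ) :
    (smallSets α ρ).card = ∑ k ∈ range (ρ + 1), (Fintype.card α).choose k := by
  classical
  have h1 : smallSets α ρ = (range (ρ + 1)).biUnion (fun j => (univ : Finset α).powersetCard j) := by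
    ext A
    rw [smallSets, mem_filter, mem_biUnion]
    constructor
    · rintro ⟨_, h⟩
      exact ⟨A.card, mem_range.mpr (by omega), mem_powersetCard.mpr ⟨subset_univ _, rfl⟩⟩
    · rintro ⟨j, hj, hA⟩
      rw [mem_range] at hj
      rw [mem_powersetCard] at hA
      exact ⟨mem_univ _, by omega⟩
  rw [h1, card_biUnion]
  · refine sum_congr rfl (fun j _ => ?_)
    rw [card_powersetCard, card_univ]
  · intro i _ j _ hij
    rw [Function.onFun, disjoint_left]
    intro A hA hA'
    rw [mem_powersetCard] at hA hA'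
    omega

lemma card_filter_card_le (t : ℕ) :
    ((univ : Finset (Finset α)).filter (fun A => A.card ≤ t)).card ≤ (Fintype.card α + 1) ^ t := by
  classical
  -- every set of size at most `t` is the image of a function `Fin t → Option α`
  have h1 : (univ : Finset (Finset α)).filter (fun A => A.card ≤ t) ⊆
      (univ : Finset (Fin t → Option α)).image
        (fun f => univ.filter (fun x => ∃ i, f i = some x)) := by
    intro A hA
    rw [mem_filter] at hA
    rw [mem_image]
    refine ⟨fun i => if h : (i : ℕ) < A.card then some (A.equivFin.symm ⟨i, h⟩ : α) else none,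
      mem_univ _, ?_⟩
    ext x
    rw [mem_filter]
    constructor
    · rintro ⟨_, i, hi⟩
      simp only at hi
      split_ifs at hi with h
      simp only [Option.some.injEq] at hi
      rw [← hi]
      exact (A.equivFin.symm ⟨i, h⟩).2
    · intro hx
      refine ⟨mem_univ _, ⟨A.equivFin ⟨x, hx⟩, ?_⟩, ?_⟩
      · exact lt_of_lt_of_le (A.equivFin ⟨x, hx⟩).2 hA.2
      · simp only
        rw [dif_pos (A.equivFin ⟨x, hx⟩).2]
        simp
  refine (card_le_card h1).trans (card_image_le.trans ?_)
  rw [card_univ, Fintype.card_fun, Fintype.card_option, Fintype.card_fin]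

lemma card_items_le (r t : ℕ) : (items (α := α) r t).card ≤
    (Fintype.card α).choose r * (2 * (Fintype.card α + 1) ^ (2 * t)) := by
  unfold items
  rw [card_product, card_product, card_product, card_powersetCard, card_univ]
  refine Nat.mul_le_mul_left _ ?_
  have h1 := card_filter_card_le (α := α) t
  calc _ ≤ (Fintype.card α + 1) ^ t * ((Fintype.card α + 1) ^ t * 2) := by
        refine Nat.mul_le_mul h1 (Nat.mul_le_mul h1 ?_)
        simp
    _ = 2 * (Fintype.card α + 1) ^ (2 * t) := by rw [two_mul t, pow_add]; ring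

end Pool.Agent.Lib.MP_ea4949_co
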