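import Pool.Agent.Lib.MP_ea4949_co.Johnson

set_option autoImplicit false
set_option linter.unusedSectionVars false
set_option linter.unusedVariables false

namespace Pool.Agent.Lib.MP_ea4949_co

open Finset
open scoped Pointwise

variable {α : Type*} [DecidableEq α]

/-! ### action of permutations -/

lemma JG_adj_smul (π : Equiv.Perm α) {X Y : Finset α} :
    (JG α).Adj (π • X) (π • Y) ↔ (JG α).Adj X Y := by
  rw [JG_adj, JG_adj, ← smul_finset_sdiff, ← smul_finset_sdiff, card_smul_finset,
    card_smul_finset]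

lemma smul_mem_powersetCard (π : Equiv.Perm α) {s X : Finset α} {r : ℕ} (hs : π • s = s) :
    π • X ∈ s.powersetCard r ↔ X ∈ s.powersetCard r := by
  rw [mem_powersetCard, mem_powersetCard, card_smul_finset]
  constructor
  · rintro ⟨h, h'⟩
    refine ⟨?_, h'⟩
    rw [← hs] at h
    exact smul_finset_subset_smul_finset_iff.mp h
  · rintro ⟨h, h'⟩
    refine ⟨?_, h'⟩
    rw [← hs]
    exact smul_finset_subset_smul_finset_iff.mpr h

lemma smul_mem_indSets (π : Equiv.Perm α) {s : Finset α} {r : ℕ} (hs : π • s = s)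
    {Q : Finset (Finset α)} :
    π • Q ∈ indSets (JG α) (s.powersetCard r) ↔ Q ∈ indSets (JG α) (s.powersetCard r) := by
  rw [mem_indSets, mem_indSets]
  constructor
  · rintro ⟨h1, h2⟩
    refine ⟨fun X hX => ?_, fun X hX Y hY hadj => ?_⟩
    · exact (smul_mem_powersetCard π hs).mp (h1 (smul_mem_smul_finset hX))
    · exact h2 _ (smul_mem_smul_finset hX) _ (smul_mem_smul_finset hY)
        ((JG_adj_smul π).mpr hadj)
  · rintro ⟨h1, h2⟩
    refine ⟨fun X hX => ?_, fun X hX Y hY hadj => ?_⟩
    · rw [mem_smul_finset] at hX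
      obtain ⟨X', hX', rfl⟩ := hX
      exact (smul_mem_powersetCard π hs).mpr (h1 hX')
    · rw [mem_smul_finset] at hX hY
      obtain ⟨X', hX', rfl⟩ := hX
      obtain ⟨Y', hY', rfl⟩ := hY
      exact h2 _ hX' _ hY' ((JG_adj_smul π).mp hadj)

/-- The independent families not covering `X` from above. -/
noncomputable def uncFam (s : Finset α) (r : ℕ) (X : Finset α) : Finset (Finset (Finset α)) :=
  (indSets (JG α) (s.powersetCard r)).filter (fun Q => ∀ Y ∈ Q, ¬ X ⊆ Y)

lemma card_uncFam_smul (π : Equiv.Perm α) {s : Finset α} (r : ℕ) (hs : π • s = s)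
    (X : Finset α) : (uncFam s r (π • X)).card = (uncFam s r X).card := by
  symm
  refine card_bij (fun Q _ => π • Q) ?_ ?_ ?_
  · intro Q hQ
    rw [uncFam, mem_filter] at hQ ⊢
    refine ⟨(smul_mem_indSets π hs).mpr hQ.1, ?_⟩
    intro Y hY hXY
    rw [mem_smul_finset] at hY
    obtain ⟨Y', hY', rfl⟩ := hY
    exact hQ.2 Y' hY' (smul_finset_subset_smul_finset_iff.mp hXY)
  · intro Q _ Q' _ h
    exact smul_left_cancel π h
  · intro Q hQ
    rw [uncFam, mem_filter] at hQ
    refine ⟨π⁻¹ • Q, ?_, smul_inv_smul π Q⟩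
    rw [uncFam, mem_filter]
    constructor
    · rw [← smul_mem_indSets π hs, smul_inv_smul]; exact hQ.1
    · intro Y hY hXY
      refine hQ.2 (π • Y) ?_ (smul_finset_subset_smul_finset_iff.mpr hXY)
      have := smul_mem_smul_finset (a := π) hY
      rwa [smul_inv_smul] at this

lemma swap_smul_self_of_mem {s : Finset α} {e f : α} (he : e ∈ s) (hf : f ∈ s) :
    (Equiv.swap e f) • s = s := by
  have hsub : (Equiv.swap e f) • s ⊆ s := by
    intro x hx
    rw [mem_smul_finset] at hx
    obtain ⟨y, hy, rfl⟩ := hx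
    rw [Equiv.Perm.smul_def]
    by_cases h1 : y = e
    · rw [h1, Equiv.swap_apply_left]; exact hf
    · by_cases h2 : y = f
      · rw [h2, Equiv.swap_apply_right]; exact he
      · rw [Equiv.swap_apply_of_ne_of_ne h1 h2]; exact hy
  exact eq_of_subset_of_card_le hsub (by rw [card_smul_finset])

lemma exists_perm (s : Finset α) : ∀ (n : ℕ) (X X' : Finset α), X ⊆ s → X' ⊆ s →
    X.card = X'.card → (X \ X').card = n → ∃ π : Equiv.Perm α, π • s = s ∧ π • X = X' := by
  intro n
  induction n with
  | zero =>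
    intro X X' _ _ hc h
    refine ⟨1, one_smul _ _, ?_⟩
    rw [one_smul]
    rw [card_eq_zero, sdiff_eq_empty_iff_subset] at h
    exact eq_of_subset_of_card_le h hc.symm.le
  | succ n ih =>
    intro X X' hX hX' hc h
    have h1 : (X \ X').Nonempty := by rw [← card_pos]; omega
    have h2 : (X' \ X).Nonempty := by
      rw [← card_pos]
      have h3 := card_sdiff_add_card_inter X X'
      have h4 := card_sdiff_add_card_inter X' X
      rw [inter_comm X' X] at h4
      omega
    obtain ⟨e, he⟩ := h1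
    obtain ⟨f, hf⟩ := h2
    rw [mem_sdiff] at he hf
    have hes := hX he.1
    have hfs := hX' hf.1
    have hsw : (Equiv.swap e f) • X = insert f (X.erase e) := by
      ext x
      rw [mem_smul_finset, mem_insert, mem_erase]
      constructor
      · rintro ⟨y, hy, rfl⟩
        rw [Equiv.Perm.smul_def]
        by_cases h3 : y = e
        · left; rw [h3, Equiv.swap_apply_left]
        · have h4 : y ≠ f := by rintro rfl; exact hf.2 hy
          right
          rw [Equiv.swap_apply_of_ne_of_ne h3 h4]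
          exact ⟨h3, hy⟩
      · rintro (rfl | ⟨h3, h4⟩)
        · exact ⟨e, he.1, by rw [Equiv.Perm.smul_def, Equiv.swap_apply_left]⟩
        · refine ⟨x, h4, ?_⟩
          rw [Equiv.Perm.smul_def, Equiv.swap_apply_of_ne_of_ne h3]
          rintro rfl; exact hf.2 h4
    have hs' := swap_smul_self_of_mem hes hfs
    have hcard : ((Equiv.swap e f) • X).card = X'.card := by rw [card_smul_finset, hc]
    have hsub : (Equiv.swap e f) • X ⊆ s := by
      rw [← hs']; exact smul_finset_subset_smul_finset_iff.mpr hX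
    have hn : (((Equiv.swap e f) • X) \ X').card = n := by
      rw [hsw]
      have : insert f (X.erase e) \ X' = (X \ X').erase e := by
        ext x
        simp only [mem_sdiff, mem_insert, mem_erase]
        constructor
        · rintro ⟨rfl | ⟨h3, h4⟩, h5⟩
          · exact absurd hf.1 h5
          · exact ⟨h3, h4, h5⟩
        · rintro ⟨h3, h4, h5⟩
          exact ⟨Or.inr ⟨h3, h4⟩, h5⟩
      rw [this, card_erase_of_mem (mem_sdiff.mpr he), h]
      rfl
    obtain ⟨π, hπ1, hπ2⟩ := ih _ X' hsub hX' hcard hn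
    refine ⟨π * Equiv.swap e f, ?_, ?_⟩
    · rw [mul_smul, hs', hπ1]
    · rw [mul_smul, hπ2]

lemma card_uncFam_eq {s : Finset α} {r t : ℕ} {X X' : Finset α} (hX : X ∈ s.powersetCard t)
    (hX' : X' ∈ s.powersetCard t) : (uncFam s r X).card = (uncFam s r X').card := by
  rw [mem_powersetCard] at hX hX'
  obtain ⟨π, hπ1, hπ2⟩ := exists_perm s _ X X' hX.1 hX'.1 (hX.2.trans hX'.2.symm) rfl
  rw [← hπ2, card_uncFam_smul π r hπ1]

/-- Coverage lemma, combinatorial part. -/
lemma cov_of_half (s : Finset α) (r : ℕ) (hr : 1 ≤ r) (hrs : r ≤ s.card)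
    (hhalf : 2 * ((indSets (JG α) (s.powersetCard r)).filter
      (fun Q => 19 * s.card.choose (r - 1) ≤ 20 * (r * Q.card))).card ≤
        (indSets (JG α) (s.powersetCard r)).card)
    {X : Finset α} (hX : X ∈ s.powersetCard (r - 1)) :
    (indSets (JG α) (s.powersetCard r)).card ≤ 40 * (uncFam s r X).card := by
  classical
  set I := indSets (JG α) (s.powersetCard r) with hI
  set C := s.card.choose (r - 1) with hC
  have hCpos : 0 < C := Nat.choose_pos (by omega)
  -- double counting
  have h1 : ∑ X' ∈ s.powersetCard (r - 1), (uncFam s r X').card =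
      ∑ Q ∈ I, ((s.powersetCard (r - 1)).filter (fun X' => ∀ Y ∈ Q, ¬ X' ⊆ Y)).card := by
    simp only [uncFam, card_filter]
    exact sum_comm
  have h2 : ∑ X' ∈ s.powersetCard (r - 1), (uncFam s r X').card = C * (uncFam s r X).card := by
    rw [sum_congr rfl (fun X' hX' => card_uncFam_eq hX' hX), sum_const, smul_eq_mul,
      card_powersetCard]
  -- each small family leaves at least a twentieth uncovered
  have h3 : ∀ Q ∈ I, C ≤ ((s.powersetCard (r - 1)).filter (fun X' => ∀ Y ∈ Q, ¬ X' ⊆ Y)).card +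
      r * Q.card := by
    intro Q hQ
    rw [hI, mem_indSets] at hQ
    have h4 := sum_shadow s r hr Q hQ.1
    have h5 : ((s.powersetCard (r - 1)).filter (fun X' => ¬ ∀ Y ∈ Q, ¬ X' ⊆ Y)).card ≤
        ∑ X ∈ s.powersetCard (r - 1), (Q.filter (fun Y => X ⊆ Y)).card := by
      rw [card_filter]
      refine sum_le_sum (fun X' _ => ?_)
      by_cases h : ∀ Y ∈ Q, ¬ X' ⊆ Y
      · rw [if_neg (not_not.mpr h)]
        exact Nat.zero_le _
      · rw [if_pos h]
        push Not at h
        obtain ⟨Y, hY, hXY⟩ := h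
        exact card_pos.mpr ⟨Y, mem_filter.mpr ⟨hY, hXY⟩⟩
    have h6 := card_filter_add_card_filter_not (s := s.powersetCard (r - 1))
      (fun X' => ∀ Y ∈ Q, ¬ X' ⊆ Y)
    rw [card_powersetCard] at h6
    omega
  set big := I.filter (fun Q => 19 * C ≤ 20 * (r * Q.card)) with hbig
  set small := I.filter (fun Q => ¬ 19 * C ≤ 20 * (r * Q.card)) with hsmall
  have hbs : big.card + small.card = I.card := card_filter_add_card_filter_not _
  have h7 : small.card * C ≤
      20 * ∑ Q ∈ I, ((s.powersetCard (r - 1)).filter (fun X' => ∀ Y ∈ Q, ¬ X' ⊆ Y)).card := by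
    calc small.card * C = ∑ Q ∈ small, C := by rw [sum_const, smul_eq_mul]
      _ ≤ ∑ Q ∈ small, 20 * ((s.powersetCard (r - 1)).filter
          (fun X' => ∀ Y ∈ Q, ¬ X' ⊆ Y)).card := by
        refine sum_le_sum (fun Q hQ => ?_)
        rw [hsmall, mem_filter] at hQ
        have := h3 Q hQ.1
        omega
      _ = 20 * ∑ Q ∈ small, ((s.powersetCard (r - 1)).filter
          (fun X' => ∀ Y ∈ Q, ¬ X' ⊆ Y)).card := by rw [mul_sum]
      _ ≤ _ := by
        refine Nat.mul_le_mul_left _ ?_
        exact sum_le_sum_of_subset (filter_subset _ _)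
  rw [← h1, h2] at h7
  have h8 : I.card ≤ 2 * small.card := by omega
  have h9 : I.card * C ≤ 40 * (uncFam s r X).card * C := by nlinarith
  exact Nat.le_of_mul_le_mul_right h9 hCpos

end Pool.Agent.Lib.MP_ea4949_co
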