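import Pool.Agent.Lib.MP_ea4949_co.Cov

set_option autoImplicit false
set_option linter.unusedSectionVars false
set_option linter.unusedVariables false

namespace Pool.Agent.Lib.MP_ea4949_co

open Finset

/-- Truncated binomial sums. -/
lemma sum_choose_le (a q : ℕ) {x y : ℝ} (hx : 0 ≤ x) (hy : 1 ≤ y) :
    ∑ j ∈ range (q + 1), (a.choose j : ℝ) * x ^ j ≤ y ^ q * Real.exp (x * a / y) := by
  have hy0 : 0 < y := by linarith
  have h1 : ∀ j ∈ range (q + 1), (a.choose j : ℝ) * x ^ j ≤
      y ^ q * ((a.choose j : ℝ) * (x / y) ^ j) := by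
    intro j hj
    rw [mem_range] at hj
    have h2 : x ^ j = y ^ j * (x / y) ^ j := by
      rw [← mul_pow, mul_div_cancel₀ _ hy0.ne']
    rw [h2]
    have h3 : y ^ j ≤ y ^ q := pow_le_pow_right₀ hy (by omega)
    have h4 : 0 ≤ (a.choose j : ℝ) * (x / y) ^ j := by positivity
    calc (a.choose j : ℝ) * (y ^ j * (x / y) ^ j) = y ^ j * ((a.choose j : ℝ) * (x / y) ^ j) := by
          ring
      _ ≤ y ^ q * ((a.choose j : ℝ) * (x / y) ^ j) := mul_le_mul_of_nonneg_right h3 h4
  refine (sum_le_sum h1).trans ?_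
  rw [← mul_sum]
  refine mul_le_mul_of_nonneg_left ?_ (by positivity)
  have h5 : ∑ j ∈ range (q + 1), (a.choose j : ℝ) * (x / y) ^ j ≤ (1 + x / y) ^ a := by
    rw [add_comm 1 (x / y), add_pow]
    simp only [one_pow, mul_one]
    have h6 : ∀ j, (x / y) ^ j * (a.choose j : ℝ) = (a.choose j : ℝ) * (x / y) ^ j :=
      fun j => mul_comm _ _
    simp only [h6]
    rcases le_or_gt q a with h | h
    · refine sum_le_sum_of_subset_of_nonneg ?_ (fun _ _ _ => by positivity)
      intro j hj
      rw [mem_range] at hj ⊢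
      omega
    · rw [← sum_subset (s₁ := range (a + 1)) (s₂ := range (q + 1))]
      · intro j hj
        rw [mem_range] at hj ⊢
        omega
      · intro j _ hj
        rw [mem_range, not_lt] at hj
        rw [Nat.choose_eq_zero_of_lt (by omega)]
        simp
  refine h5.trans ?_
  have h7 : 1 + x / y ≤ Real.exp (x / y) := by
    have := Real.add_one_le_exp (x / y)
    linarith
  calc (1 + x / y) ^ a ≤ (Real.exp (x / y)) ^ a := pow_le_pow_left₀ (by positivity) h7 a
    _ = Real.exp (x * a / y) := by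
      rw [← Real.exp_nat_mul]
      congr 1
      ring

lemma log_five_le : Real.log 5 ≤ 7 / 3 * Real.log 2 := by
  have h : Real.log ((5 : ℝ) ^ 3) ≤ Real.log ((2 : ℝ) ^ 7) :=
    Real.log_le_log (by norm_num) (by norm_num)
  rw [Real.log_pow, Real.log_pow] at h
  push_cast at h
  linarith

/-- The asymptotic inequalities needed. -/
lemma eventually_num : ∃ m₀ : ℕ, 1 ≤ m₀ ∧ ∀ m : ℕ, m₀ ≤ m →
    420 * (Real.log m) ^ 2 / m + 4 / m ≤ 0.01 ∧ 2 * Real.log m + 4 ≤ 0.01 * (m : ℝ) ^ 2 := by
  have h1 : Filter.Tendsto (fun x : ℝ => (Real.log x) ^ 2 / x) Filter.atTop (nhds 0) := by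
    have := Real.isLittleO_pow_log_id_atTop (n := 2)
    exact this.tendsto_div_nhds_zero
  have h2 : Filter.Tendsto (fun x : ℝ => x⁻¹) Filter.atTop (nhds 0) := tendsto_inv_atTop_zero
  have h3 : Filter.Tendsto (fun x : ℝ => 420 * ((Real.log x) ^ 2 / x) + 4 * x⁻¹) Filter.atTop
      (nhds (420 * 0 + 4 * 0)) := (h1.const_mul _).add (h2.const_mul _)
  simp only [mul_zero, add_zero] at h3
  have h4 : ∀ᶠ x : ℝ in Filter.atTop, 420 * ((Real.log x) ^ 2 / x) + 4 * x⁻¹ ≤ 0.01 :=
    h3.eventually_le_const (by norm_num)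
  have h5 : ∀ᶠ m : ℕ in Filter.atTop,
      420 * ((Real.log m) ^ 2 / m) + 4 * (m : ℝ)⁻¹ ≤ 0.01 :=
    tendsto_natCast_atTop_atTop.eventually h4
  have h6 := h5.and (Filter.eventually_ge_atTop 1000)
  rw [Filter.eventually_atTop] at h6
  obtain ⟨m₀, hm₀⟩ := h6
  refine ⟨max m₀ 1000, by omega, fun m hm => ?_⟩
  obtain ⟨h7, h8⟩ := hm₀ m (le_trans (le_max_left _ _) hm)
  constructor
  · have : 420 * (Real.log m) ^ 2 / m + 4 / m =
        420 * ((Real.log m) ^ 2 / m) + 4 * (m : ℝ)⁻¹ := by ring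
    rw [this]; exact h7
  · have hm1 : (1000 : ℝ) ≤ m := by exact_mod_cast h8
    have h9 : Real.log m ≤ m := (Real.log_le_sub_one_of_pos (by linarith)).trans (by linarith)
    nlinarith

variable {α : Type*} [DecidableEq α]

lemma card_indSets_ge (G : SimpleGraph α) {A B : Finset α} (hB : B ∈ indSets G A) :
    2 ^ B.card ≤ (indSets G A).card := by
  rw [← card_powerset]
  refine card_le_card (fun I hI => ?_)
  rw [mem_powerset] at hI
  rw [mem_indSets] at hB ⊢
  exact ⟨hI.trans hB.1, fun x hx y hy => hB.2 x (hI hx) y (hI hy)⟩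

lemma card_filter_mul_pow_le (G : SimpleGraph α) (A : Finset α) (k : ℕ) (P : Finset α → Prop)
    [DecidablePred P] (hP : ∀ I ∈ indSets G A, P I → k ≤ I.card) {x : ℝ} (hx : 1 ≤ x) :
    (((indSets G A).filter P).card : ℝ) * x ^ k ≤ hcZ G A x := by
  rw [← nsmul_eq_mul, ← sum_const]
  unfold hcZ
  calc ∑ I ∈ (indSets G A).filter P, x ^ k ≤ ∑ I ∈ (indSets G A).filter P, x ^ I.card := by
        refine sum_le_sum (fun I hI => ?_)
        rw [mem_filter] at hI
        exact pow_le_pow_right₀ hx (hP I hI.1 hI.2)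
    _ ≤ ∑ I ∈ indSets G A, x ^ I.card :=
        sum_le_sum_of_subset_of_nonneg (filter_subset _ _) (fun _ _ _ => by positivity)

theorem half_of_large : ∃ m₀ : ℕ, ∀ (α : Type) [DecidableEq α] (s : Finset α) (r : ℕ),
    m₀ ≤ s.card →
    100 * (2 * r) ≤ 101 * s.card → 99 * s.card ≤ 100 * (2 * r) →
    s.card ^ 3 ≤ s.card.choose (r - 1) →
    2 * ((indSets (JG α) (s.powersetCard r)).filter
      (fun Q => 19 * s.card.choose (r - 1) ≤ 20 * (r * Q.card))).card ≤
        (indSets (JG α) (s.powersetCard r)).card := by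
  obtain ⟨m₀, hm₀1, hm₀⟩ := eventually_num
  refine ⟨max m₀ 1000, fun α _ s r hs hr1 hr2 hC => ?_⟩
  set m := s.card with hm
  have hmm₀ : m₀ ≤ m := le_trans (le_max_left _ _) hs
  have hm1000 : 1000 ≤ m := le_trans (le_max_right _ _) hs
  obtain ⟨hn1, hn2⟩ := hm₀ m hmm₀
  have hmR : (1000 : ℝ) ≤ m := by exact_mod_cast hm1000
  have hr0 : 1 ≤ r := by omega
  have hrR1 : (r : ℝ) ≤ 0.505 * m := by
    have : (100 * (2 * r) : ℝ) ≤ 101 * m := by exact_mod_cast hr1
    linarith
  have hrR2 : 0.495 * m ≤ (r : ℝ) := by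
    have : (99 * m : ℝ) ≤ 100 * (2 * r) := by exact_mod_cast hr2
    linarith
  have hrpos : (0 : ℝ) < r := by linarith
  have hmpos : (0 : ℝ) < m := by linarith
  have hrm : r ≤ m := by omega
  set C := m.choose (r - 1) with hCdef
  set U : ℝ := (C : ℝ) / r with hU
  have hCR : (m : ℝ) ^ 3 ≤ C := by exact_mod_cast hC
  have hUm : (m : ℝ) ^ 2 ≤ U := by
    rw [hU, le_div_iff₀ hrpos]
    calc (m : ℝ) ^ 2 * r ≤ (m : ℝ) ^ 2 * m :=
          mul_le_mul_of_nonneg_left (by linarith) (sq_nonneg _)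
      _ = (m : ℝ) ^ 3 := by ring
      _ ≤ C := hCR
  have hUpos : 0 < U := by nlinarith
  have hCU : (C : ℝ) = r * U := by rw [hU]; field_simp
  clear_value U
  -- size of the vertex set
  set N := m.choose r with hN
  have hNC : N * r = C * (m - r + 1) := by
    have := Nat.choose_succ_right_eq m (r - 1)
    rw [Nat.sub_add_cancel hr0] at this
    rw [hN, hCdef, this]
    congr 1
    omega
  have hNU : (N : ℝ) = U * (m - r + 1) := by
    have h1 : (N : ℝ) * r = C * (m - r + 1) := by
      have : ((N * r : ℕ) : ℝ) = ((C * (m - r + 1) : ℕ) : ℝ) := by rw [hNC]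
      push_cast [Nat.cast_sub hrm] at this
      exact this
    rw [hCU] at h1
    have h2 : (r : ℝ) * N = r * (U * (m - r + 1)) := by linarith
    exact mul_left_cancel₀ hrpos.ne' h2
  set V := s.powersetCard r with hV
  have hVcard : V.card = N := card_powersetCard _ _
  set I := indSets (JG α) V with hI
  -- lower bound for the number of independent sets
  obtain ⟨B, hB, hBcard⟩ := exists_indep_subfamily s (card_pos.mp (by omega)) V
    (fun X hX => (mem_powersetCard.mp hX).1)
  have hIge := card_indSets_ge (JG α) hB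
  rw [← hI] at hIge
  rw [hVcard, ← hm] at hBcard
  have hb : 0.495 * U ≤ (B.card : ℝ) := by
    have h1 : (N : ℝ) ≤ m * B.card := by exact_mod_cast hBcard
    rw [hNU] at h1
    have h2 : U * (0.495 * m) ≤ U * (m - r + 1) := by
      apply mul_le_mul_of_nonneg_left _ hUpos.le
      linarith
    have h3 : (m : ℝ) * (0.495 * U) ≤ m * B.card := by nlinarith
    exact le_of_mul_le_mul_left h3 (by linarith)
  -- parameters of the container argument
  set R := ⌈1.01 * U⌉₊ with hR
  set β : ℝ := (r : ℝ) / (101 * U) with hβ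
  set q := ⌈Real.log m / β⌉₊ with hq
  have hβpos : 0 < β := by positivity
  have hβ1 : β ≤ 1 := by
    rw [hβ, div_le_one (by positivity)]
    nlinarith
  have hlogm : 0 ≤ Real.log m := Real.log_nonneg (by linarith)
  have hRge : 1.01 * U ≤ R := Nat.le_ceil _
  have hRle : (R : ℝ) ≤ 1.01 * U + 1 := (Nat.ceil_lt_add_one (by positivity)).le
  have hqge : Real.log m / β ≤ q := Nat.le_ceil _
  have hqle : (q : ℝ) ≤ Real.log m / β + 1 := (Nat.ceil_lt_add_one (by positivity)).le
  have hKW := hcZ_le (JG α) V (x := 4) (β := β) (by norm_num) hβpos.le hβ1 R (by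
    intro B' hB' hcard
    have hne : B'.Nonempty := card_pos.mp (by omega)
    obtain ⟨Y, hY, hdeg⟩ := exists_large_degree s r hr0 B' hB' hne
    refine ⟨Y, hY, le_trans ?_ hdeg⟩
    rw [← hm, ← hCdef]
    have h1 : (1.01 * U : ℝ) ≤ B'.card := by
      have : (R : ℝ) ≤ B'.card := by exact_mod_cast hcard.le
      linarith
    have h2 : (r : ℝ) * B'.card / C = B'.card / U := by
      rw [hCU]; exact mul_div_mul_left _ _ hrpos.ne'
    rw [h2, hβ]
    have h3 : (r : ℝ) / (101 * U) * B'.card = r * (B'.card / U / 101) := by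
      rw [div_mul_eq_mul_div, div_div, mul_div_assoc, mul_comm U 101]
    rw [h3]
    apply mul_le_mul_of_nonneg_left _ hrpos.le
    have h4 : 1.01 ≤ B'.card / U := by rw [le_div_iff₀ hUpos]; exact h1
    linarith) N q V (Subset.refl _) (by rw [hVcard]) (by
    have h1 : (1 - β) ^ q ≤ Real.exp (-(β * q)) := by
      have h2 : 1 - β ≤ Real.exp (-β) := by
        have := Real.add_one_le_exp (-β); linarith
      calc (1 - β) ^ q ≤ (Real.exp (-β)) ^ q := pow_le_pow_left₀ (by linarith) h2 q
        _ = Real.exp (-(β * q)) := by rw [← Real.exp_nat_mul]; congr 1; ring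
    have h3 : Real.log m ≤ β * q := by
      rw [div_le_iff₀ hβpos] at hqge; linarith
    have h4 : Real.exp (-(β * q)) ≤ 1 / m := by
      calc Real.exp (-(β * q)) ≤ Real.exp (-(Real.log m)) := Real.exp_le_exp.mpr (by linarith)
        _ = 1 / m := by rw [Real.exp_neg, Real.exp_log (by linarith)]; ring
    have h5 : (N : ℝ) * (1 - β) ^ q ≤ N * (1 / m) :=
      mul_le_mul_of_nonneg_left (h1.trans h4) (Nat.cast_nonneg _)
    refine h5.trans (le_trans ?_ hRge)
    rw [hNU]
    have h6 : U * (m - r + 1) * (1 / m) ≤ U * 1 := by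
      rw [mul_assoc]
      apply mul_le_mul_of_nonneg_left _ hUpos.le
      rw [mul_one_div, div_le_one (by linarith)]
      have : (1 : ℝ) ≤ r := by exact_mod_cast hr0
      linarith
    linarith)
  have hS := sum_choose_le N q (x := 4) (y := (m : ℝ) ^ 2) (by norm_num) (by nlinarith)
  -- upper bound for the big families
  set k := ⌈0.95 * U⌉₊ with hk
  have hbig := card_filter_mul_pow_le (JG α) V k
    (fun Q => 19 * C ≤ 20 * (r * Q.card)) (by
      intro Q _ hQ
      rw [hk]
      apply Nat.ceil_le.mpr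
      have h1 : (19 * C : ℝ) ≤ 20 * (r * Q.card) := by exact_mod_cast hQ
      rw [hCU] at h1
      have h2 : (r : ℝ) * (0.95 * U) ≤ r * Q.card := by linarith
      exact le_of_mul_le_mul_left h2 hrpos) (x := 4) (by norm_num)
  have hkge : 0.95 * U ≤ k := Nat.le_ceil _
  -- the numerical inequality
  have hlog2 : 0.6931471803 < Real.log 2 := Real.log_two_gt_d9
  have hlog5 := log_five_le
  have hfinal : 2 * ((5 : ℝ) ^ R * ((m : ℝ) ^ 2) ^ q * Real.exp (4 * N / (m : ℝ) ^ 2)) ≤
      4 ^ k * 2 ^ B.card := by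
    have e1 : (2 : ℝ) * ((5 : ℝ) ^ R * ((m : ℝ) ^ 2) ^ q * Real.exp (4 * N / (m : ℝ) ^ 2)) =
        Real.exp (Real.log 2 + R * Real.log 5 + 2 * q * Real.log m + 4 * N / (m : ℝ) ^ 2) := by
      rw [Real.exp_add, Real.exp_add, Real.exp_add, Real.exp_log (by norm_num)]
      have e2 : Real.exp (R * Real.log 5) = 5 ^ R := by
        rw [Real.exp_nat_mul, Real.exp_log (by norm_num)]
      have e3 : Real.exp (2 * q * Real.log m) = ((m : ℝ) ^ 2) ^ q := by
        have : 2 * (q : ℝ) * Real.log m = ((2 * q : ℕ) : ℝ) * Real.log m := by push_cast; ring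
        rw [this, Real.exp_nat_mul, Real.exp_log (by linarith), pow_mul]
      rw [e2, e3]
      ring
    have e4 : (4 : ℝ) ^ k * 2 ^ B.card = Real.exp ((2 * k + B.card) * Real.log 2) := by
      have : (2 * (k : ℝ) + B.card) * Real.log 2 = ((2 * k + B.card : ℕ) : ℝ) * Real.log 2 := by
        push_cast; ring
      rw [this, Real.exp_nat_mul, Real.exp_log (by norm_num), pow_add, pow_mul]
      norm_num
    rw [e1, e4]
    apply Real.exp_le_exp.mpr
    have f1 : R * Real.log 5 ≤ (1.01 * U + 1) * (7 / 3 * Real.log 2) := by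
      have h0 : 0 ≤ Real.log 5 := Real.log_nonneg (by norm_num)
      exact mul_le_mul hRle hlog5 h0 (by positivity)
    have f2 : 4 * (N : ℝ) / (m : ℝ) ^ 2 ≤ 4 / m * U := by
      rw [hNU, div_le_iff₀ (pow_pos hmpos 2)]
      have : (4 / m * U : ℝ) * (m : ℝ) ^ 2 = 4 * (U * m) := by
        have hm0 : (m : ℝ) ≠ 0 := by linarith
        generalize (m : ℝ) = x at hm0
        field_simp
      rw [this]
      have : U * (m - r + 1) ≤ U * m := by
        apply mul_le_mul_of_nonneg_left _ hUpos.le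
        have : (1 : ℝ) ≤ r := by exact_mod_cast hr0
        linarith
      linarith
    have f3 : 2 * (q : ℝ) * Real.log m ≤ 420 * (Real.log m) ^ 2 / m * U + 2 * Real.log m := by
      have g1 : Real.log m / β ≤ 210 * Real.log m / m * U := by
        rw [div_le_iff₀ hβpos, hβ]
        have : 210 * Real.log m / m * U * (r / (101 * U)) = Real.log m * (210 * r / (101 * m)) := by
          have hm0 : (m : ℝ) ≠ 0 := by linarith
          have hU0 : U ≠ 0 := hUpos.ne'
          generalize Real.log m = L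
          generalize (m : ℝ) = x at hm0
          generalize (r : ℝ) = y
          field_simp
        rw [this]
        have h2 : 1 ≤ 210 * r / (101 * (m : ℝ)) := by
          rw [le_div_iff₀ (mul_pos (by norm_num) hmpos)]
          linarith
        nlinarith
      have g2 : (q : ℝ) ≤ 210 * Real.log m / m * U + 1 := by linarith
      calc 2 * (q : ℝ) * Real.log m ≤ 2 * (210 * Real.log m / m * U + 1) * Real.log m := by
            apply mul_le_mul_of_nonneg_right _ hlogm
            linarith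
        _ = 420 * (Real.log m) ^ 2 / m * U + 2 * Real.log m := by ring
    have f4 : 420 * (Real.log m) ^ 2 / m * U + 4 / m * U ≤ 0.01 * U := by
      rw [← add_mul]
      exact mul_le_mul_of_nonneg_right hn1 hUpos.le
    have f5 : (1.9 * U + 0.495 * U) * Real.log 2 ≤ (2 * k + B.card) * Real.log 2 := by
      apply mul_le_mul_of_nonneg_right _ (by linarith)
      linarith
    have f6 : 2 * Real.log m + 4 ≤ 0.01 * U := by
      refine hn2.trans ?_
      nlinarith
    have hlog2' : Real.log 2 < 0.7 := by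
      have := Real.log_two_lt_d9; linarith
    nlinarith
  -- conclusion
  have h4k : (0 : ℝ) < 4 ^ k := by positivity
  set big := (indSets (JG α) V).filter (fun Q => 19 * C ≤ 20 * (r * Q.card)) with hbigdef
  have g1 : (2 * big.card : ℝ) * 4 ^ k ≤ 2 ^ B.card * 4 ^ k := by
    have : hcZ (JG α) V 4 ≤ (5 : ℝ) ^ R * ((m : ℝ) ^ 2) ^ q * Real.exp (4 * N / (m : ℝ) ^ 2) := by
      refine hKW.trans ?_
      have h15 : (1 : ℝ) + 4 = 5 := by norm_num
      rw [h15, mul_assoc]
      exact mul_le_mul_of_nonneg_left hS (by positivity)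
    calc (2 * big.card : ℝ) * 4 ^ k = 2 * (big.card * 4 ^ k) := by ring
      _ ≤ 2 * hcZ (JG α) V 4 := by linarith
      _ ≤ 2 * ((5 : ℝ) ^ R * ((m : ℝ) ^ 2) ^ q * Real.exp (4 * N / (m : ℝ) ^ 2)) := by linarith
      _ ≤ 4 ^ k * 2 ^ B.card := hfinal
      _ = 2 ^ B.card * 4 ^ k := by ring
  have g2 : (2 * big.card : ℝ) ≤ 2 ^ B.card := le_of_mul_le_mul_right g1 h4k
  have g3 : 2 * big.card ≤ 2 ^ B.card := by exact_mod_cast g2
  exact g3.trans hIge

end Pool.Agent.Lib.MP_ea4949_co
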