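import Pool.Agent.Lib.MP_ea4949_co.Cov

set_option autoImplicit false
set_option linter.unusedSectionVars false
set_option linter.unusedVariables false

namespace Pool.Agent.Lib.MP_ea4949_co

open Finset
open scoped Pointwise

variable {α : Type*} [DecidableEq α] [Fintype α]

lemma mem_cfilter {β : Type*} (p : β → Prop) (s : Finset β) (x : β) :
    x ∈ @Finset.filter β p (Classical.decPred p) s ↔ x ∈ s ∧ p x :=
  @Finset.mem_filter _ p (Classical.decPred p) _ _

/-- The families of bases of rank `r` matroids on `α`. -/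
structure BF (r : ℕ) (B : Finset (Finset α)) : Prop where
  card : ∀ X ∈ B, X.card = r
  exch : ∀ X ∈ B, ∀ Y ∈ B, ∀ x ∈ X \ Y, ∃ y ∈ Y \ X, insert y (X.erase x) ∈ B
  rexch : ∀ X ∈ B, ∀ Y ∈ B, ∀ y ∈ Y \ X, ∃ x ∈ X \ Y, insert y (X.erase x) ∈ B

/-- `X - e + f` is a basis. -/
def ex (B : Finset (Finset α)) (X : Finset α) (e f : α) : Prop :=
  e ∈ X ∧ f ∉ X ∧ insert f (X.erase e) ∈ B

section Rect

variable {r : ℕ} {B : Finset (Finset α)}

lemma ex_rect (hB : BF r B) {X : Finset α} (hX : X ∉ B) {e e' f f' : α} (h1 : ex B X e f')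
    (h2 : ex B X e' f) : ex B X e f := by
  obtain ⟨he, hf', h1B⟩ := h1
  obtain ⟨he', hf, h2B⟩ := h2
  by_cases hff : f = f'
  · rw [hff]; exact ⟨he, hf', h1B⟩
  have hf'mem : f' ∈ insert f' (X.erase e) \ insert f (X.erase e') := by
    refine mem_sdiff.mpr ⟨mem_insert_self _ _, ?_⟩
    intro h
    rcases mem_insert.mp h with h | h
    · exact hff h.symm
    · exact hf' (mem_erase.mp h).2
  obtain ⟨y, hy, hyB⟩ := hB.exch _ h1B _ h2B f' hf'mem
  rw [erase_insert (fun h => hf' (mem_of_mem_erase h))] at hyB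
  rw [mem_sdiff, mem_insert, mem_insert, mem_erase, mem_erase] at hy
  obtain ⟨hy1 | ⟨hy1, hy1'⟩, hy2⟩ := hy
  · rw [hy1] at hyB
    exact ⟨he, hf, hyB⟩
  · have : y = e := by
      by_contra hne
      exact hy2 (Or.inr ⟨hne, hy1'⟩)
    rw [this, insert_erase he] at hyB
    exact absurd hyB hX

/-- The part of `X` that can be exchanged. -/
noncomputable def cC (B : Finset (Finset α)) (X : Finset α) : Finset α :=
  @Finset.filter α (fun e => ∃ f, ex B X e f) (Classical.decPred _) univ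

/-- The elements that can be exchanged into `X`. -/
noncomputable def dD (B : Finset (Finset α)) (X : Finset α) : Finset α :=
  @Finset.filter α (fun f => ∃ e, ex B X e f) (Classical.decPred _) univ

lemma mem_cC {X : Finset α} {e : α} : e ∈ cC B X ↔ ∃ f, ex B X e f := by
  unfold cC; rw [mem_cfilter]; simp

lemma mem_dD {X : Finset α} {f : α} : f ∈ dD B X ↔ ∃ e, ex B X e f := by
  unfold dD; rw [mem_cfilter]; simp

lemma cC_subset (X : Finset α) : cC B X ⊆ X := by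
  intro e he
  rw [mem_cC] at he
  obtain ⟨f, h⟩ := he
  exact h.1

lemma not_mem_of_mem_dD {X : Finset α} {f : α} (hf : f ∈ dD B X) : f ∉ X := by
  rw [mem_dD] at hf
  obtain ⟨e, h⟩ := hf
  exact h.2.1

lemma ex_of_mem (hB : BF r B) {X : Finset α} (hX : X ∉ B) {e f : α} (he : e ∈ cC B X)
    (hf : f ∈ dD B X) : ex B X e f := by
  rw [mem_cC] at he
  rw [mem_dD] at hf
  obtain ⟨f', h1⟩ := he
  obtain ⟨e', h2⟩ := hf
  exact ex_rect hB hX h1 h2

lemma cert_C (hB : BF r B) {X : Finset α} (hX : X ∉ B) {e₀ f₀ : α} (h : ex B X e₀ f₀)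
    {Y : Finset α} (hY : Y ∈ B) : ¬ cC B X ⊆ Y := by
  intro hC
  have he₀C : e₀ ∈ cC B X := mem_cC.mpr ⟨f₀, h⟩
  obtain ⟨he₀, hf₀, hB₀⟩ := h
  have h1 : e₀ ∈ Y \ insert f₀ (X.erase e₀) := by
    rw [mem_sdiff, mem_insert, mem_erase]
    refine ⟨hC he₀C, ?_⟩
    rintro (h | h)
    · exact hf₀ (h ▸ he₀)
    · exact h.1 rfl
  obtain ⟨x, hx, hxB⟩ := hB.rexch _ hB₀ _ hY e₀ h1
  rw [mem_sdiff, mem_insert, mem_erase] at hx
  obtain ⟨hx1 | ⟨hx1, hx1'⟩, hx2⟩ := hx
  · subst hx1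
    rw [erase_insert (fun h => hf₀ (mem_of_mem_erase h)), insert_erase he₀] at hxB
    exact hX hxB
  · have hxf : x ≠ f₀ := by rintro rfl; exact hf₀ hx1'
    have h2 : insert e₀ ((insert f₀ (X.erase e₀)).erase x) = insert f₀ (X.erase x) := by
      ext z
      simp only [mem_insert, mem_erase]
      constructor
      · rintro (rfl | ⟨h3, rfl | ⟨h4, h5⟩⟩)
        · right; exact ⟨hx1.symm, he₀⟩
        · left; rfl
        · right; exact ⟨h3, h5⟩
      · rintro (rfl | ⟨h3, h4⟩)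
        · right; exact ⟨hxf.symm, Or.inl rfl⟩
        · by_cases h5 : z = e₀
          · left; exact h5
          · right; exact ⟨h3, Or.inr ⟨h5, h4⟩⟩
    rw [h2] at hxB
    exact hx2 (hC (mem_cC.mpr ⟨f₀, hx1', hf₀, hxB⟩))

lemma cert_D (hB : BF r B) {X : Finset α} (hX : X ∉ B) {e₀ f₀ : α} (h : ex B X e₀ f₀)
    {Y : Finset α} (hY : Y ∈ B) : ∃ f ∈ Y, f ∈ dD B X := by
  by_cases hf₀Y : f₀ ∈ Y
  · exact ⟨f₀, hf₀Y, mem_dD.mpr ⟨e₀, h⟩⟩
  obtain ⟨he₀, hf₀, hB₀⟩ := h
  have h1 : f₀ ∈ insert f₀ (X.erase e₀) \ Y := by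
    rw [mem_sdiff]; exact ⟨mem_insert_self _ _, hf₀Y⟩
  obtain ⟨y, hy, hyB⟩ := hB.exch _ hB₀ _ hY f₀ h1
  rw [erase_insert (fun h => hf₀ (mem_of_mem_erase h))] at hyB
  rw [mem_sdiff, mem_insert, mem_erase] at hy
  have hye : y ≠ e₀ := by
    rintro rfl
    rw [insert_erase he₀] at hyB
    exact hX hyB
  have hyX : y ∉ X := fun hyX => hy.2 (Or.inr ⟨hye, hyX⟩)
  exact ⟨y, hy.1, mem_dD.mpr ⟨e₀, he₀, hyX, hyB⟩⟩

end Rect

/-! ### items -/

/-- A certificate: the set `X`, the deleted part, the added part, and the type. -/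
abbrev Item (α : Type*) := Finset α × Finset α × Finset α × Bool

/-- The item covers `Y`. -/
def cov (ι : Item α) (Y : Finset α) : Prop :=
  (ι.2.2.2 = true ∧ (Y = ι.1 ∨ (JG α).Adj ι.1 Y)) ∨
    (ι.2.2.2 = false ∧ (ι.1 \ ι.2.1 ⊆ Y ∨ Y ⊆ ι.1 ∪ ι.2.2.1))

/-- The set of sets covered by the data. -/
noncomputable def W (σ : Equiv.Perm α) (r : ℕ) (D N : Finset (Finset α)) (S : Finset (Item α)) :
    Finset (Finset α) :=
  @Finset.filter _ (fun Y => (∃ C ∈ D, C ⊆ Y) ∨ (∃ H ∈ N, Y ⊆ H) ∨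
    ∃ ι ∈ S, ∃ k : ℤ, cov ι ((σ ^ k) • Y)) (Classical.decPred _) (univ.powersetCard r)

lemma mem_W {σ : Equiv.Perm α} {r : ℕ} {D N : Finset (Finset α)} {S : Finset (Item α)}
    {Y : Finset α} : Y ∈ W σ r D N S ↔ Y.card = r ∧ ((∃ C ∈ D, C ⊆ Y) ∨ (∃ H ∈ N, Y ⊆ H) ∨
    ∃ ι ∈ S, ∃ k : ℤ, cov ι ((σ ^ k) • Y)) := by
  unfold W
  rw [mem_cfilter, mem_powersetCard]
  simp

/-- small dependent sets -/
noncomputable def smallDep (ρ : ℕ) (B : Finset (Finset α)) : Finset (Finset α) :=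
  @Finset.filter _ (fun C => C.card ≤ ρ ∧ ∀ X ∈ B, ¬ C ⊆ X) (Classical.decPred _) univ

/-- large nonspanning sets -/
noncomputable def largeNon (ρ : ℕ) (B : Finset (Finset α)) : Finset (Finset α) :=
  @Finset.filter _ (fun H => Fintype.card α ≤ H.card + ρ ∧ ∀ X ∈ B, ¬ X ⊆ H)
    (Classical.decPred _) univ

lemma mem_smallDep {ρ : ℕ} {B : Finset (Finset α)} {C : Finset α} :
    C ∈ smallDep ρ B ↔ C.card ≤ ρ ∧ ∀ X ∈ B, ¬ C ⊆ X := by
  unfold smallDep; rw [mem_cfilter]; simp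

lemma mem_largeNon {ρ : ℕ} {B : Finset (Finset α)} {H : Finset α} :
    H ∈ largeNon ρ B ↔ Fintype.card α ≤ H.card + ρ ∧ ∀ X ∈ B, ¬ X ⊆ H := by
  unfold largeNon; rw [mem_cfilter]; simp

/-- Invariance of a family under a permutation. -/
def Inv (σ : Equiv.Perm α) (B : Finset (Finset α)) : Prop := ∀ X, σ • X ∈ B ↔ X ∈ B

lemma Inv.zpow {σ : Equiv.Perm α} {B : Finset (Finset α)} (h : Inv σ B) (k : ℤ) (X : Finset α) :
    (σ ^ k) • X ∈ B ↔ X ∈ B := by
  have hnat : ∀ (n : ℕ) (X : Finset α), (σ ^ n) • X ∈ B ↔ X ∈ B := by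
    intro n
    induction n with
    | zero => intro X; simp
    | succ n ih => intro X; rw [pow_succ, mul_smul, ih, h]
  cases k with
  | ofNat n => simpa using hnat n X
  | negSucc n =>
    rw [zpow_negSucc]
    have := hnat (n + 1) ((σ ^ (n + 1))⁻¹ • X)
    rw [smul_inv_smul] at this
    exact this.symm

lemma smul_subset_iff' (τ : Equiv.Perm α) {X Y : Finset α} : τ • X ⊆ Y ↔ X ⊆ τ⁻¹ • Y := by
  constructor
  · intro h
    have := smul_finset_subset_smul_finset (a := τ⁻¹) h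
    rwa [inv_smul_smul] at this
  · intro h
    have := smul_finset_subset_smul_finset (a := τ) h
    rwa [smul_inv_smul] at this

lemma subset_smul_iff' (τ : Equiv.Perm α) {X Y : Finset α} : X ⊆ τ • Y ↔ τ⁻¹ • X ⊆ Y := by
  rw [smul_subset_iff', inv_inv]

lemma Inv.inv_smul {σ : Equiv.Perm α} {B : Finset (Finset α)} (h : Inv σ B) (X : Finset α) :
    σ⁻¹ • X ∈ B ↔ X ∈ B := by
  have := h (σ⁻¹ • X)
  rw [smul_inv_smul] at this
  exact this.symm

lemma smul_mem_smallDep {σ : Equiv.Perm α} {B : Finset (Finset α)} (h : Inv σ B) {ρ : ℕ}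
    {C : Finset α} (hC : C ∈ smallDep ρ B) : σ • C ∈ smallDep ρ B := by
  rw [mem_smallDep] at hC ⊢
  rw [card_smul_finset]
  refine ⟨hC.1, fun X hX hsub => ?_⟩
  rw [smul_subset_iff'] at hsub
  exact hC.2 _ ((h.inv_smul X).mpr hX) hsub

lemma smul_mem_largeNon {σ : Equiv.Perm α} {B : Finset (Finset α)} (h : Inv σ B) {ρ : ℕ}
    {H : Finset α} (hH : H ∈ largeNon ρ B) : σ • H ∈ largeNon ρ B := by
  rw [mem_largeNon] at hH ⊢
  rw [card_smul_finset]
  refine ⟨hH.1, fun X hX hsub => ?_⟩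
  rw [subset_smul_iff'] at hsub
  exact hH.2 _ ((h.inv_smul X).mpr hX) hsub

lemma Inv.inv {σ : Equiv.Perm α} {B : Finset (Finset α)} (h : Inv σ B) : Inv σ⁻¹ B :=
  fun X => h.inv_smul X

lemma inv_W {σ : Equiv.Perm α} {B : Finset (Finset α)} (h : Inv σ B) (r ρ : ℕ)
    (S : Finset (Item α)) : Inv σ (W σ r (smallDep ρ B) (largeNon ρ B) S) := by
  intro Y
  rw [mem_W, mem_W, card_smul_finset]
  refine and_congr_right (fun _ => ?_)
  refine or_congr ?_ (or_congr ?_ ?_)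
  · constructor
    · rintro ⟨C, hC, hCY⟩
      refine ⟨σ⁻¹ • C, smul_mem_smallDep h.inv hC, ?_⟩
      rwa [subset_smul_iff'] at hCY
    · rintro ⟨C, hC, hCY⟩
      exact ⟨σ • C, smul_mem_smallDep h hC, smul_finset_subset_smul_finset hCY⟩
  · constructor
    · rintro ⟨H, hH, hYH⟩
      refine ⟨σ⁻¹ • H, smul_mem_largeNon h.inv hH, ?_⟩
      rwa [smul_subset_iff'] at hYH
    · rintro ⟨H, hH, hYH⟩
      exact ⟨σ • H, smul_mem_largeNon h hH, smul_finset_subset_smul_finset hYH⟩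
  · constructor
    · rintro ⟨ι, hι, k, hk⟩
      refine ⟨ι, hι, k + 1, ?_⟩
      rw [zpow_add, zpow_one, mul_smul]
      exact hk
    · rintro ⟨ι, hι, k, hk⟩
      refine ⟨ι, hι, k - 1, ?_⟩
      rw [← mul_smul, ← zpow_add_one, sub_add_cancel]
      exact hk

lemma W_mono (σ : Equiv.Perm α) (r : ℕ) (D N : Finset (Finset α)) {S S' : Finset (Item α)}
    (h : S ⊆ S') : W σ r D N S ⊆ W σ r D N S' := by
  intro Y hY
  rw [mem_W] at hY ⊢
  refine ⟨hY.1, ?_⟩
  rcases hY.2 with h1 | h1 | ⟨ι, hι, h1⟩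
  · exact Or.inl h1
  · exact Or.inr (Or.inl h1)
  · exact Or.inr (Or.inr ⟨ι, h hι, h1⟩)

/-- An item is valid if it covers no basis. -/
def Valid (B : Finset (Finset α)) (ι : Item α) : Prop := ∀ X ∈ B, ¬ cov ι X

lemma W_disjoint {σ : Equiv.Perm α} {r ρ : ℕ} {B : Finset (Finset α)} (h : Inv σ B)
    {S : Finset (Item α)} (hS : ∀ ι ∈ S, Valid B ι) {Y : Finset α}
    (hY : Y ∈ W σ r (smallDep ρ B) (largeNon ρ B) S) : Y ∉ B := by
  intro hYB
  rw [mem_W] at hY
  rcases hY.2 with ⟨C, hC, hCY⟩ | ⟨H, hH, hYH⟩ | ⟨ι, hι, k, hk⟩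
  · rw [mem_smallDep] at hC
    exact hC.2 Y hYB hCY
  · rw [mem_largeNon] at hH
    exact hH.2 Y hYB hYH
  · exact hS ι hι _ ((h.zpow k Y).mpr hYB) hk

/-- The item of a nonbasis. -/
noncomputable def item (B : Finset (Finset α)) (X : Finset α) : Item α :=
  @ite _ (∃ e f, ex B X e f) (Classical.dec _) (X, X \ cC B X, (univ \ dD B X) \ X, false)
    (X, ∅, ∅, true)

section ItemLemmas

variable {r : ℕ} {B : Finset (Finset α)}

lemma item_valid (hB : BF r B) {X : Finset α} (hX : X ∉ B) : Valid B (item B X) := by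
  classical
  intro Y hY hcov
  unfold item at hcov
  split_ifs at hcov with hex
  · obtain ⟨e, f, hef⟩ := hex
    rcases hcov with ⟨h1, _⟩ | ⟨_, h2⟩
    · exact absurd h1 (by simp)
    · simp only at h2
      rcases h2 with h2 | h2
      · rw [Finset.sdiff_sdiff_eq_self (cC_subset X)] at h2
        exact cert_C hB hX hef hY h2
      · obtain ⟨g, hgY, hgD⟩ := cert_D hB hX hef hY
        have h3 := h2 hgY
        rw [mem_union, mem_sdiff, mem_sdiff] at h3
        rcases h3 with h3 | ⟨⟨_, h3⟩, _⟩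
        · exact not_mem_of_mem_dD hgD h3
        · exact h3 hgD
  · rcases hcov with ⟨_, h2⟩ | ⟨h1, _⟩
    · simp only at h2
      rcases h2 with rfl | h2
      · exact hX hY
      · rw [JG_adj_iff_exchange] at h2
        obtain ⟨e, he, f, hf, rfl⟩ := h2
        exact hex ⟨e, f, he, hf, hY⟩
    · exact absurd h1 (by simp)

lemma item_covers (hB : BF r B) {X Y : Finset α} (hX : X ∉ B) (hY : Y ∉ B)
    (hXY : Y = X ∨ (JG α).Adj X Y) : cov (item B X) Y := by
  classical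
  unfold item
  split_ifs with hex
  · right
    refine ⟨rfl, ?_⟩
    simp only
    rw [Finset.sdiff_sdiff_eq_self (cC_subset X)]
    rcases hXY with rfl | hadj
    · left; exact cC_subset _
    · rw [JG_adj_iff_exchange] at hadj
      obtain ⟨e, he, f, hf, rfl⟩ := hadj
      by_cases heC : e ∈ cC B X
      · right
        have hfD : f ∉ dD B X := fun hfD => hY (ex_of_mem hB hX heC hfD).2.2
        intro z hz
        rw [mem_insert, mem_erase] at hz
        rw [mem_union, mem_sdiff, mem_sdiff]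
        by_cases hzX : z ∈ X
        · left; exact hzX
        · right
          rcases hz with rfl | hz
          · exact ⟨⟨mem_univ _, hfD⟩, hzX⟩
          · exact absurd hz.2 hzX
      · left
        intro z hz
        rw [mem_insert, mem_erase]
        right
        refine ⟨?_, cC_subset X hz⟩
        rintro rfl; exact heC hz
  · left
    exact ⟨rfl, hXY⟩

/-- The sizes of the parts of the item of a nonbasis that is not covered by the basic data. -/
lemma item_sizes (hB : BF r B) {σ : Equiv.Perm α} {ρ : ℕ} {S : Finset (Item α)} {X : Finset α}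
    (hXr : X.card = r) (hX : X ∉ B)
    (hXW : X ∉ W σ r (smallDep ρ B) (largeNon ρ B) S) (hex : ∃ e f, ex B X e f) :
    ρ < (cC B X).card ∧ ρ < (dD B X).card := by
  obtain ⟨e, f, hef⟩ := hex
  constructor
  · by_contra hle
    push Not at hle
    apply hXW
    rw [mem_W]
    refine ⟨hXr, Or.inl ⟨cC B X, ?_, cC_subset X⟩⟩
    rw [mem_smallDep]
    exact ⟨hle, fun Y hY => cert_C hB hX hef hY⟩
  · by_contra hle
    push Not at hle
    apply hXW
    rw [mem_W]
    refine ⟨hXr, Or.inr (Or.inl ⟨univ \ dD B X, ?_, ?_⟩)⟩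
    · rw [mem_largeNon]
      refine ⟨?_, fun Y hY hsub => ?_⟩
      · rw [card_sdiff_of_subset (subset_univ _), card_univ]
        have := card_le_univ (dD B X)
        omega
      · obtain ⟨g, hgY, hgD⟩ := cert_D hB hX hef hY
        exact (mem_sdiff.mp (hsub hgY)).2 hgD
    · intro x hx
      rw [mem_sdiff]
      exact ⟨mem_univ _, fun h => not_mem_of_mem_dD h hx⟩

/-- The universe of items. -/
def items (r t : ℕ) : Finset (Item α) :=
  (univ.powersetCard r) ×ˢ (univ.filter (fun A => A.card ≤ t)) ×ˢ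
    (univ.filter (fun A => A.card ≤ t)) ×ˢ univ

lemma item_mem_items (hB : BF r B) {σ : Equiv.Perm α} {ρ t : ℕ} (ht1 : r ≤ ρ + t)
    (ht2 : Fintype.card α ≤ ρ + r + t) {S : Finset (Item α)} {X : Finset α}
    (hXr : X.card = r) (hX : X ∉ B) (hXW : X ∉ W σ r (smallDep ρ B) (largeNon ρ B) S) :
    item B X ∈ items r t := by
  classical
  unfold item items
  split_ifs with hex
  · obtain ⟨h1, h2⟩ := item_sizes hB hXr hX hXW hex
    rw [mem_product, mem_product, mem_product, mem_powersetCard, mem_filter, mem_filter]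
    refine ⟨⟨subset_univ _, hXr⟩, ⟨mem_univ _, ?_⟩, ⟨mem_univ _, ?_⟩, mem_univ _⟩
    · simp only
      rw [card_sdiff_of_subset (cC_subset X)]
      omega
    · simp only
      have h3 : X ⊆ univ \ dD B X := by
        intro x hx
        rw [mem_sdiff]
        exact ⟨mem_univ _, fun h => not_mem_of_mem_dD h hx⟩
      rw [card_sdiff_of_subset h3, card_sdiff_of_subset (subset_univ _), card_univ]
      omega
  · rw [mem_product, mem_product, mem_product, mem_powersetCard]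
    exact ⟨⟨subset_univ _, hXr⟩, mem_filter.mpr ⟨mem_univ _, by simp⟩,
      mem_filter.mpr ⟨mem_univ _, by simp⟩, mem_univ _⟩

end ItemLemmas

/-! ### greedy choice of items -/

/-- The uncovered nonbases. -/
noncomputable def unco (σ : Equiv.Perm α) (r ρ : ℕ) (B : Finset (Finset α)) (S : Finset (Item α)) :
    Finset (Finset α) :=
  (univ.powersetCard r \ B) \ W σ r (smallDep ρ B) (largeNon ρ B) S

lemma mem_unco {σ : Equiv.Perm α} {r ρ : ℕ} {B : Finset (Finset α)} {S : Finset (Item α)}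
    {X : Finset α} : X ∈ unco σ r ρ B S ↔
      (X.card = r ∧ X ∉ B) ∧ X ∉ W σ r (smallDep ρ B) (largeNon ρ B) S := by
  unfold unco
  rw [mem_sdiff, mem_sdiff, mem_powersetCard]
  simp

theorem greedy {σ : Equiv.Perm α} {r ρ t Δ : ℕ} {κ : ℝ} (hκ0 : 0 ≤ κ) (hκ1 : κ ≤ 1)
    (hdeg : ∀ A ⊆ (univ : Finset α).powersetCard r, (∃ X ∈ A, Δ ≤ (nbrs (JG α) A X).card) →
      ∃ X ∈ A, κ * A.card ≤ (nbrs (JG α) A X).card)
    {B : Finset (Finset α)} (hB : BF r B) (hσ : Inv σ B)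
    (ht1 : r ≤ ρ + t) (ht2 : Fintype.card α ≤ ρ + r + t) :
    ∀ (m a b : ℕ), a + b = m → ∀ S : Finset (Item α), (∀ ι ∈ S, Valid B ι) → S ⊆ items r t →
      ((unco σ r ρ B S).card : ℝ) * (1 - κ) ^ a ≤ b →
      ∃ S' : Finset (Item α), (∀ ι ∈ S', Valid B ι) ∧ S' ⊆ items r t ∧ S'.card ≤ S.card + m ∧
        ∀ X ∈ unco σ r ρ B S', (nbrs (JG α) (unco σ r ρ B S') X).card < Δ := by
  classical
  intro m
  induction m with
  | zero =>
    intro a b hab S hS hSi hcard
    obtain ⟨rfl, rfl⟩ : a = 0 ∧ b = 0 := by omega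
    refine ⟨S, hS, hSi, by omega, ?_⟩
    intro X hX
    rw [pow_zero, mul_one] at hcard
    have h0 : (unco σ r ρ B S).card ≤ 0 := by exact_mod_cast hcard
    have := card_pos.mpr ⟨X, hX⟩
    omega
  | succ m ih =>
    intro a b hab S hS hSi hcard
    by_cases hdone : ∀ X ∈ unco σ r ρ B S, (nbrs (JG α) (unco σ r ρ B S) X).card < Δ
    · exact ⟨S, hS, hSi, by omega, hdone⟩
    push Not at hdone
    have hUsub : unco σ r ρ B S ⊆ (univ : Finset α).powersetCard r :=
      sdiff_subset.trans sdiff_subset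
    obtain ⟨X, hX, hXdeg⟩ := hdeg _ hUsub hdone
    have hX' := mem_unco.mp hX
    set S₁ := insert (item B X) S with hS₁
    have hS₁v : ∀ ι ∈ S₁, Valid B ι := by
      intro ι hι
      rw [hS₁, mem_insert] at hι
      rcases hι with rfl | hι
      · exact item_valid hB hX'.1.2
      · exact hS ι hι
    have hS₁i : S₁ ⊆ items r t := by
      rw [hS₁, insert_subset_iff]
      exact ⟨item_mem_items hB ht1 ht2 hX'.1.1 hX'.1.2 hX'.2, hSi⟩
    -- the new uncovered set
    have hsub : unco σ r ρ B S₁ ⊆ (unco σ r ρ B S \ nbrs (JG α) (unco σ r ρ B S) X).erase X := by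
      intro Y hY
      have hY' := mem_unco.mp hY
      have hYS : Y ∈ unco σ r ρ B S := by
        rw [mem_unco]
        exact ⟨hY'.1, fun h => hY'.2 (W_mono σ r _ _ (subset_insert _ _) h)⟩
      have hnot : ¬ (Y = X ∨ (JG α).Adj X Y) := by
        intro hXY
        apply hY'.2
        rw [mem_W]
        refine ⟨hY'.1.1, Or.inr (Or.inr ⟨item B X, mem_insert_self _ _, 0, ?_⟩)⟩
        rw [zpow_zero, one_smul]
        exact item_covers hB hX'.1.2 hY'.1.2 hXY
      push Not at hnot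
      rw [mem_erase, mem_sdiff, mem_nbrs]
      exact ⟨hnot.1, hYS, fun h => hnot.2 h.2⟩
    have hcard₁ : (unco σ r ρ B S₁).card + (nbrs (JG α) (unco σ r ρ B S) X).card + 1 ≤
        (unco σ r ρ B S).card := by
      have h1 := card_le_card hsub
      have h2 : X ∈ unco σ r ρ B S \ nbrs (JG α) (unco σ r ρ B S) X := by
        rw [mem_sdiff, mem_nbrs]
        exact ⟨hX, fun h => (JG α).loopless.irrefl _ h.2⟩
      rw [card_erase_of_mem h2] at h1
      have h3 : nbrs (JG α) (unco σ r ρ B S) X ⊆ unco σ r ρ B S :=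
        fun u hu => (mem_nbrs.mp hu).1
      rw [card_sdiff_of_subset h3] at h1
      have h4 := card_pos.mpr ⟨X, h2⟩
      rw [card_sdiff_of_subset h3] at h4
      omega
    have hS₁card : S₁.card ≤ S.card + 1 := card_insert_le _ _
    have h1κ : 0 ≤ 1 - κ := by linarith
    cases a with
    | zero =>
      rw [pow_zero, mul_one] at hcard
      have hb : (unco σ r ρ B S).card ≤ b := by exact_mod_cast hcard
      obtain ⟨b', rfl⟩ : ∃ b', b = b' + 1 := ⟨b - 1, by omega⟩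
      obtain ⟨S', h1, h2, h3, h4⟩ := ih 0 b' (by omega) S₁ hS₁v hS₁i (by
        rw [pow_zero, mul_one]
        have : (unco σ r ρ B S₁).card ≤ b' := by omega
        exact_mod_cast this)
      exact ⟨S', h1, h2, by omega, h4⟩
    | succ a =>
      obtain ⟨S', h1, h2, h3, h4⟩ := ih a b (by omega) S₁ hS₁v hS₁i (by
        refine le_trans ?_ hcard
        rw [pow_succ', ← mul_assoc]
        refine mul_le_mul_of_nonneg_right ?_ (pow_nonneg h1κ _)
        have h5 : ((unco σ r ρ B S₁).card : ℝ) + (nbrs (JG α) (unco σ r ρ B S) X).card + 1 ≤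
            (unco σ r ρ B S).card := by exact_mod_cast hcard₁
        linarith)
      exact ⟨S', h1, h2, by omega, h4⟩

/-! ### decoding -/

lemma card_image_insert_erase_left {X : Finset α} {e : α} (he : e ∈ X) {D : Finset α}
    (hD : ∀ f ∈ D, f ∉ X) : (D.image (fun f => insert f (X.erase e))).card = D.card := by
  refine card_image_of_injOn ?_
  intro f hf g hg h
  simp only at h
  have h1 : f ∈ insert g (X.erase e) := by rw [← h]; exact mem_insert_self _ _
  rw [mem_insert, mem_erase] at h1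
  rcases h1 with h1 | h1
  · exact h1
  · exact absurd h1.2 (hD f hf)

lemma card_image_insert_erase_right {X : Finset α} {f : α} (hf : f ∉ X) {C : Finset α}
    (hC : C ⊆ X) : (C.image (fun e => insert f (X.erase e))).card = C.card := by
  refine card_image_of_injOn ?_
  intro e he g hg h
  simp only at h
  by_contra hne
  have h1 : e ∈ insert f (X.erase g) := by
    rw [mem_insert, mem_erase]; right; exact ⟨hne, hC he⟩
  rw [← h, mem_insert, mem_erase] at h1
  rcases h1 with h1 | h1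
  · exact hf (h1 ▸ hC he)
  · exact h1.1 rfl

/-- One inclusion of the decoding lemma. -/
lemma decode_step {r Δ : ℕ} {B B' R' : Finset (Finset α)} (hB : BF r B) (hB' : BF r B')
    {X : Finset α} (hXB : X ∉ B) (hXB' : X ∉ B')
    (hsize : (∃ e f, ex B X e f) → Δ ≤ (cC B X).card ∧ Δ ≤ (dD B X).card)
    (hR' : ∀ Y, (JG α).Adj X Y → Y ∈ B → Y ∉ B' → Y ∈ R')
    (hdeg : (nbrs (JG α) R' X).card < Δ) {Y : Finset α} (hadj : (JG α).Adj X Y) (hY : Y ∈ B) :
    Y ∈ B' := by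
  classical
  by_contra hYB'
  rw [JG_adj_iff_exchange] at hadj
  obtain ⟨e, he, f, hf, rfl⟩ := hadj
  have hex : ex B X e f := ⟨he, hf, hY⟩
  obtain ⟨hC, hD⟩ := hsize ⟨e, f, hex⟩
  have heC : e ∈ cC B X := mem_cC.mpr ⟨f, hex⟩
  have hfD : f ∈ dD B X := mem_dD.mpr ⟨e, hex⟩
  by_cases heC' : e ∈ cC B' X
  · -- then `f ∉ dD B' X`
    have hfD' : f ∉ dD B' X := fun h => hYB' (ex_of_mem hB' hXB' heC' h).2.2
    have hsub : (cC B X).image (fun e => insert f (X.erase e)) ⊆ nbrs (JG α) R' X := by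
      intro Z hZ
      rw [mem_image] at hZ
      obtain ⟨g, hg, rfl⟩ := hZ
      have h1 := ex_of_mem hB hXB hg hfD
      have h2 : (JG α).Adj X (insert f (X.erase g)) := by
        rw [JG_adj_iff_exchange]; exact ⟨g, h1.1, f, h1.2.1, rfl⟩
      rw [mem_nbrs]
      refine ⟨hR' _ h2 h1.2.2 (fun h3 => hfD' (mem_dD.mpr ⟨g, h1.1, h1.2.1, h3⟩)), h2⟩
    have := card_le_card hsub
    rw [card_image_insert_erase_right hf (cC_subset X)] at this
    omega
  · have hsub : (dD B X).image (fun f => insert f (X.erase e)) ⊆ nbrs (JG α) R' X := by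
      intro Z hZ
      rw [mem_image] at hZ
      obtain ⟨g, hg, rfl⟩ := hZ
      have h1 := ex_of_mem hB hXB heC hg
      have h2 : (JG α).Adj X (insert g (X.erase e)) := by
        rw [JG_adj_iff_exchange]; exact ⟨e, h1.1, g, h1.2.1, rfl⟩
      rw [mem_nbrs]
      refine ⟨hR' _ h2 h1.2.2 (fun h3 => heC' (mem_cC.mpr ⟨g, h1.1, h1.2.1, h3⟩)), h2⟩
    have := card_le_card hsub
    rw [card_image_insert_erase_left he (fun f hf => not_mem_of_mem_dD hf)] at this
    omega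

/-- The decoding lemma. -/
theorem decode {σ : Equiv.Perm α} {r ρ Δ : ℕ} (hΔ : Δ ≤ ρ) {B B' : Finset (Finset α)}
    (hB : BF r B) (hB' : BF r B') (hσ : Inv σ B) (hσ' : Inv σ B') {S S' : Finset (Item α)}
    (hS : ∀ ι ∈ S, Valid B ι) (hS' : ∀ ι ∈ S', Valid B' ι)
    (hdeg : ∀ X ∈ unco σ r ρ B S, (nbrs (JG α) (unco σ r ρ B S) X).card < Δ)
    (hdeg' : ∀ X ∈ unco σ r ρ B' S', (nbrs (JG α) (unco σ r ρ B' S') X).card < Δ)
    (hW : W σ r (smallDep ρ B) (largeNon ρ B) S = W σ r (smallDep ρ B') (largeNon ρ B') S')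
    {Ω : Finset (Finset α)} (hΩ : Ω ⊆ unco σ r ρ B S) (hΩ' : Ω ⊆ unco σ r ρ B' S')
    (hdom : ∀ Z ∈ unco σ r ρ B S, Z ∈ Ω ∨ ∃ X ∈ Ω, (JG α).Adj X Z)
    (hdom' : ∀ Z ∈ unco σ r ρ B' S', Z ∈ Ω ∨ ∃ X ∈ Ω, (JG α).Adj X Z) : B = B' := by
  -- neighbourhoods of elements of Ω agree
  have key : ∀ {B B' : Finset (Finset α)} {S S' : Finset (Item α)}, BF r B → BF r B' →
      Inv σ B → (∀ ι ∈ S, Valid B ι) →
      (∀ X ∈ unco σ r ρ B' S', (nbrs (JG α) (unco σ r ρ B' S') X).card < Δ) →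
      W σ r (smallDep ρ B) (largeNon ρ B) S = W σ r (smallDep ρ B') (largeNon ρ B') S' →
      Ω ⊆ unco σ r ρ B S → Ω ⊆ unco σ r ρ B' S' →
      ∀ X ∈ Ω, ∀ Y, (JG α).Adj X Y → Y ∈ B → Y ∈ B' := by
    intro B B' S S' hB hB' hσ hS hdeg' hW hΩ hΩ' X hX Y hadj hY
    have h1 := mem_unco.mp (hΩ hX)
    have h2 := mem_unco.mp (hΩ' hX)
    refine decode_step hB hB' h1.1.2 h2.1.2 (fun hex => ?_) ?_ (hdeg' X (hΩ' hX)) hadj hY
    · obtain ⟨h3, h4⟩ := item_sizes hB h1.1.1 h1.1.2 h1.2 hex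
      exact ⟨by omega, by omega⟩
    · intro Z hZ hZB hZB'
      rw [mem_unco]
      refine ⟨⟨(hB.card Z hZB), hZB'⟩, ?_⟩
      rw [← hW]
      exact fun h => W_disjoint hσ hS h hZB
  have k1 := key hB hB' hσ hS hdeg' hW hΩ hΩ'
  have k2 := key hB' hB hσ' hS' hdeg hW.symm hΩ' hΩ
  -- uncovered sets agree
  have u1 : unco σ r ρ B S ⊆ unco σ r ρ B' S' := by
    intro Z hZ
    rcases hdom Z hZ with h | ⟨X, hX, hadj⟩
    · exact hΩ' h
    · have h1 := mem_unco.mp hZ
      rw [mem_unco]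
      exact ⟨⟨h1.1.1, fun h => h1.1.2 (k2 X hX Z hadj h)⟩, by rw [← hW]; exact h1.2⟩
  have u2 : unco σ r ρ B' S' ⊆ unco σ r ρ B S := by
    intro Z hZ
    rcases hdom' Z hZ with h | ⟨X, hX, hadj⟩
    · exact hΩ h
    · have h1 := mem_unco.mp hZ
      rw [mem_unco]
      exact ⟨⟨h1.1.1, fun h => h1.1.2 (k1 X hX Z hadj h)⟩, by rw [hW]; exact h1.2⟩
  ext Z
  by_cases hZr : Z.card = r
  · constructor
    · intro hZ
      by_contra hZ'
      have h1 : Z ∉ W σ r (smallDep ρ B) (largeNon ρ B) S := fun h => W_disjoint hσ hS h hZ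
      have h2 : Z ∈ unco σ r ρ B' S' := mem_unco.mpr ⟨⟨hZr, hZ'⟩, by rw [← hW]; exact h1⟩
      exact (mem_unco.mp (u2 h2)).1.2 hZ
    · intro hZ
      by_contra hZ'
      have h1 : Z ∉ W σ r (smallDep ρ B') (largeNon ρ B') S' := fun h => W_disjoint hσ' hS' h hZ
      have h2 : Z ∈ unco σ r ρ B S := mem_unco.mpr ⟨⟨hZr, hZ'⟩, by rw [hW]; exact h1⟩
      exact (mem_unco.mp (u1 h2)).1.2 hZ
  · constructor
    · intro h; exact absurd (hB.card Z h) hZr
    · intro h; exact absurd (hB'.card Z h) hZr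

end Pool.Agent.Lib.MP_ea4949_co
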