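import Pool.Agent.Lib.MP_ea4949_co.Cov

set_option autoImplicit false
set_option linter.unusedSectionVars false
set_option linter.unusedVariables false

namespace Pool.Agent.Lib.MP_ea4949_co

open Finset

variable {α : Type*} [DecidableEq α]

/-- Independent families not covering `X` from below. -/
noncomputable def uncFam' (s : Finset α) (t : ℕ) (X : Finset α) : Finset (Finset (Finset α)) :=
  (indSets (JG α) (s.powersetCard t)).filter (fun Q => ∀ Z ∈ Q, ¬ Z ⊆ X)

/-! ### complementation -/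

lemma sdiff_sdiff_of_subset {s X Y : Finset α} (hY : Y ⊆ s) : (s \ X) \ (s \ Y) = Y \ X := by
  ext x
  simp only [mem_sdiff]
  constructor
  · rintro ⟨⟨h1, h2⟩, h3⟩
    refine ⟨?_, h2⟩
    by_contra h
    exact h3 ⟨h1, h⟩
  · rintro ⟨h1, h2⟩
    exact ⟨⟨hY h1, h2⟩, fun h => h.2 h1⟩

lemma JG_adj_compl {s X Y : Finset α} (hX : X ⊆ s) (hY : Y ⊆ s) :
    (JG α).Adj (s \ X) (s \ Y) ↔ (JG α).Adj X Y := by
  rw [JG_adj, JG_adj, sdiff_sdiff_of_subset hY, sdiff_sdiff_of_subset hX, and_comm]

/-- Complement a family of subsets of `s`. -/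
def complFam (s : Finset α) (Q : Finset (Finset α)) : Finset (Finset α) :=
  Q.image (fun X => s \ X)

lemma complFam_complFam {s : Finset α} {Q : Finset (Finset α)} (hQ : ∀ X ∈ Q, X ⊆ s) :
    complFam s (complFam s Q) = Q := by
  unfold complFam
  rw [image_image]
  conv_rhs => rw [← image_id (s := Q)]
  refine image_congr (fun X hX => ?_)
  simp only [Function.comp, id]
  exact Finset.sdiff_sdiff_eq_self (hQ X hX)

lemma complFam_mem_indSets {s : Finset α} {t : ℕ} (ht : t ≤ s.card) {Q : Finset (Finset α)}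
    (hQ : Q ∈ indSets (JG α) (s.powersetCard t)) :
    complFam s Q ∈ indSets (JG α) (s.powersetCard (s.card - t)) := by
  rw [mem_indSets] at hQ ⊢
  constructor
  · intro X hX
    unfold complFam at hX
    rw [mem_image] at hX
    obtain ⟨Y, hY, rfl⟩ := hX
    have hY' := mem_powersetCard.mp (hQ.1 hY)
    rw [mem_powersetCard]
    refine ⟨sdiff_subset, ?_⟩
    rw [card_sdiff_of_subset hY'.1, hY'.2]
  · intro X hX Y hY hadj
    unfold complFam at hX hY
    rw [mem_image] at hX hY
    obtain ⟨X', hX', rfl⟩ := hX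
    obtain ⟨Y', hY', rfl⟩ := hY
    have h1 := mem_powersetCard.mp (hQ.1 hX')
    have h2 := mem_powersetCard.mp (hQ.1 hY')
    exact hQ.2 X' hX' Y' hY' ((JG_adj_compl h1.1 h2.1).mp hadj)

lemma card_indSets_compl {s : Finset α} {t : ℕ} (ht : t ≤ s.card) :
    (indSets (JG α) (s.powersetCard t)).card =
      (indSets (JG α) (s.powersetCard (s.card - t))).card := by
  refine card_bij (fun Q _ => complFam s Q) (fun Q hQ => complFam_mem_indSets ht hQ) ?_ ?_
  · intro Q hQ Q' hQ' h
    rw [mem_indSets] at hQ hQ'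
    rw [← complFam_complFam (fun X hX => (mem_powersetCard.mp (hQ.1 hX)).1), h,
      complFam_complFam (fun X hX => (mem_powersetCard.mp (hQ'.1 hX)).1)]
  · intro Q hQ
    refine ⟨complFam s Q, ?_, ?_⟩
    · have := complFam_mem_indSets (Nat.sub_le _ _) hQ
      rwa [Nat.sub_sub_self ht] at this
    · rw [mem_indSets] at hQ
      exact complFam_complFam (fun X hX => (mem_powersetCard.mp (hQ.1 hX)).1)

lemma card_uncFam' {s : Finset α} {t : ℕ} (ht : t ≤ s.card) {X : Finset α} (hX : X ⊆ s) :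
    (uncFam' s t X).card = (uncFam s (s.card - t) (s \ X)).card := by
  refine card_bij (fun Q _ => complFam s Q) ?_ ?_ ?_
  · intro Q hQ
    rw [uncFam', mem_filter] at hQ
    rw [uncFam, mem_filter]
    refine ⟨complFam_mem_indSets ht hQ.1, ?_⟩
    intro Y hY hXY
    unfold complFam at hY
    rw [mem_image] at hY
    obtain ⟨Y', hY', rfl⟩ := hY
    refine hQ.2 Y' hY' (fun y hy => ?_)
    by_contra h
    have hys : y ∈ s := by
      have := hQ.1
      rw [mem_indSets] at this
      exact (mem_powersetCard.mp (this.1 hY')).1 hy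
    have := hXY (mem_sdiff.mpr ⟨hys, h⟩)
    exact (mem_sdiff.mp this).2 hy
  · intro Q hQ Q' hQ' h
    rw [uncFam', mem_filter, mem_indSets] at hQ hQ'
    rw [← complFam_complFam (fun X hX => (mem_powersetCard.mp (hQ.1.1 hX)).1), h,
      complFam_complFam (fun X hX => (mem_powersetCard.mp (hQ'.1.1 hX)).1)]
  · intro Q hQ
    rw [uncFam, mem_filter] at hQ
    have hsub : ∀ X ∈ Q, X ⊆ s := by
      have := hQ.1
      rw [mem_indSets] at this
      exact fun X hX => (mem_powersetCard.mp (this.1 hX)).1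
    refine ⟨complFam s Q, ?_, complFam_complFam hsub⟩
    rw [uncFam', mem_filter]
    constructor
    · have := complFam_mem_indSets (Nat.sub_le _ _) hQ.1
      rwa [Nat.sub_sub_self ht] at this
    · intro Z hZ hZX
      unfold complFam at hZ
      rw [mem_image] at hZ
      obtain ⟨Y, hY, rfl⟩ := hZ
      refine hQ.2 Y hY (fun y hy => ?_)
      rw [mem_sdiff] at hy
      by_contra h
      exact hy.2 (hZX (mem_sdiff.mpr ⟨hy.1, h⟩))

/-! ### the extension argument -/

section Ext

variable {E s : Finset α} {e f : α}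

/-- uncovered sets -/
def unc (s : Finset α) (r : ℕ) (Q₀ Q₂ : Finset (Finset α)) : Finset (Finset α) :=
  (s.powersetCard (r - 1)).filter (fun X => (∀ Y ∈ Q₀, ¬ X ⊆ Y) ∧ ∀ Z ∈ Q₂, ¬ Z ⊆ X)

lemma sum_unc (s : Finset α) (r : ℕ) :
    ∑ p ∈ indSets (JG α) (s.powersetCard r) ×ˢ indSets (JG α) (s.powersetCard (r - 2)),
      (unc s r p.1 p.2).card =
    ∑ X ∈ s.powersetCard (r - 1), (uncFam s r X).card * (uncFam' s (r - 2) X).card := by
  classical
  rw [sum_product]
  simp only [unc, card_filter, uncFam, uncFam', sum_mul_sum]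
  rw [sum_congr rfl (fun a _ => sum_comm), sum_comm]
  refine sum_congr rfl (fun X _ => sum_congr rfl (fun Q₀ _ => sum_congr rfl (fun Q₂ _ => ?_)))
  by_cases h1 : ∀ Y ∈ Q₀, ¬ X ⊆ Y
  · by_cases h2 : ∀ Z ∈ Q₂, ¬ Z ⊆ X
    · rw [if_pos ⟨h1, h2⟩, if_pos h1, if_pos h2, mul_one]
    · rw [if_neg (fun h => h2 h.2), if_neg h2, mul_zero]
  · rw [if_neg (fun h => h1 h.1), if_neg h1, zero_mul]

/-- The extended family. -/
def ext3 (e f : α) (Q₀ Q₂ T : Finset (Finset α)) : Finset (Finset α) :=
  Q₀ ∪ Q₂.image (fun Z => insert e (insert f Z)) ∪ T.image (fun X => insert e X)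

lemma mem_ext3 {Q₀ Q₂ T : Finset (Finset α)} {W : Finset α} :
    W ∈ ext3 e f Q₀ Q₂ T ↔ W ∈ Q₀ ∨ (∃ Z ∈ Q₂, insert e (insert f Z) = W) ∨
      ∃ X ∈ T, insert e X = W := by
  unfold ext3
  rw [mem_union, mem_union, mem_image, mem_image, or_assoc]

/-- Elements of the extended family, by their trace on `{e, f}`. -/
lemma ext3_mem_indSets (hef : e ≠ f) (he : e ∉ s) (hf : f ∉ s) (hE : E = insert e (insert f s))
    {r : ℕ} (hr : 2 ≤ r) {Q₀ Q₂ T : Finset (Finset α)}
    (h0 : Q₀ ∈ indSets (JG α) (s.powersetCard r))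
    (h2 : Q₂ ∈ indSets (JG α) (s.powersetCard (r - 2)))
    (hT : T ∈ indSets (JG α) (unc s r Q₀ Q₂)) :
    ext3 e f Q₀ Q₂ T ∈ indSets (JG α) (E.powersetCard r) := by
  rw [mem_indSets] at h0 h2 hT ⊢
  obtain ⟨h0s, h0i⟩ := h0
  obtain ⟨h2s, h2i⟩ := h2
  obtain ⟨hTs, hTi⟩ := hT
  have m0 : ∀ Y ∈ Q₀, Y ⊆ s ∧ Y.card = r := fun Y hY => mem_powersetCard.mp (h0s hY)
  have m2 : ∀ Z ∈ Q₂, Z ⊆ s ∧ Z.card = r - 2 := fun Z hZ => mem_powersetCard.mp (h2s hZ)
  have mT : ∀ X ∈ T, (X ⊆ s ∧ X.card = r - 1) ∧ (∀ Y ∈ Q₀, ¬ X ⊆ Y) ∧ ∀ Z ∈ Q₂, ¬ Z ⊆ X := by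
    intro X hX
    have := hTs hX
    rw [unc, mem_filter, mem_powersetCard] at this
    exact this
  -- non-adjacency facts
  have a00 : ∀ Y ∈ Q₀, ∀ Y' ∈ Q₀, ¬ (JG α).Adj Y Y' := h0i
  have a22 : ∀ Z ∈ Q₂, ∀ Z' ∈ Q₂, ¬ (JG α).Adj (insert e (insert f Z)) (insert e (insert f Z')) := by
    intro Z hZ Z' hZ' hadj
    apply h2i Z hZ Z' hZ'
    rw [JG_adj] at hadj ⊢
    have key : ∀ A B : Finset α, A ⊆ s → insert e (insert f A) \ insert e (insert f B) = A \ B := by
      intro A B hA
      ext x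
      simp only [mem_sdiff, mem_insert]
      constructor
      · rintro ⟨h | h | h, h'⟩
        · exact absurd (Or.inl h) h'
        · exact absurd (Or.inr (Or.inl h)) h'
        · exact ⟨h, fun hb => h' (Or.inr (Or.inr hb))⟩
      · rintro ⟨h, h'⟩
        refine ⟨Or.inr (Or.inr h), ?_⟩
        rintro (rfl | rfl | hb)
        · exact he (hA h)
        · exact hf (hA h)
        · exact h' hb
    rw [key Z Z' (m2 Z hZ).1, key Z' Z (m2 Z' hZ').1] at hadj
    exact hadj
  have aTT : ∀ X ∈ T, ∀ X' ∈ T, ¬ (JG α).Adj (insert e X) (insert e X') := by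
    intro X hX X' hX' hadj
    apply hTi X hX X' hX'
    rw [JG_adj] at hadj ⊢
    have key : ∀ A B : Finset α, A ⊆ s → insert e A \ insert e B = A \ B := by
      intro A B hA
      ext x
      simp only [mem_sdiff, mem_insert]
      constructor
      · rintro ⟨h | h, h'⟩
        · exact absurd (Or.inl h) h'
        · exact ⟨h, fun hb => h' (Or.inr hb)⟩
      · rintro ⟨h, h'⟩
        refine ⟨Or.inr h, ?_⟩
        rintro (rfl | hb)
        · exact he (hA h)
        · exact h' hb
    rw [key X X' (mT X hX).1.1, key X' X (mT X' hX').1.1] at hadj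
    exact hadj
  have a02 : ∀ Y ∈ Q₀, ∀ Z ∈ Q₂, ¬ (JG α).Adj Y (insert e (insert f Z)) := by
    intro Y hY Z hZ hadj
    rw [JG_adj] at hadj
    have h1 : ({e, f} : Finset α) ⊆ insert e (insert f Z) \ Y := by
      intro x hx
      rw [mem_insert, mem_singleton] at hx
      rw [mem_sdiff, mem_insert, mem_insert]
      rcases hx with rfl | rfl
      · exact ⟨Or.inl rfl, fun h => he ((m0 Y hY).1 h)⟩
      · exact ⟨Or.inr (Or.inl rfl), fun h => hf ((m0 Y hY).1 h)⟩
    have h2 := card_le_card h1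
    rw [card_pair hef] at h2
    omega
  have a0T : ∀ Y ∈ Q₀, ∀ X ∈ T, ¬ (JG α).Adj Y (insert e X) := by
    intro Y hY X hX hadj
    rw [JG_adj] at hadj
    apply (mT X hX).2.1 Y hY
    intro x hx
    by_contra hxY
    have h1 : ({e, x} : Finset α) ⊆ insert e X \ Y := by
      intro z hz
      rw [mem_insert, mem_singleton] at hz
      rw [mem_sdiff, mem_insert]
      rcases hz with rfl | rfl
      · exact ⟨Or.inl rfl, fun h => he ((m0 Y hY).1 h)⟩
      · exact ⟨Or.inr hx, hxY⟩
    have hex : e ≠ x := by rintro rfl; exact he ((mT X hX).1.1 hx)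
    have h2 := card_le_card h1
    rw [card_pair hex] at h2
    omega
  have a2T : ∀ Z ∈ Q₂, ∀ X ∈ T, ¬ (JG α).Adj (insert e (insert f Z)) (insert e X) := by
    intro Z hZ X hX hadj
    rw [JG_adj] at hadj
    apply (mT X hX).2.2 Z hZ
    intro x hx
    by_contra hxX
    have hxs := (m2 Z hZ).1 hx
    have h1 : ({f, x} : Finset α) ⊆ insert e (insert f Z) \ insert e X := by
      intro z hz
      rw [mem_insert, mem_singleton] at hz
      rw [mem_sdiff, mem_insert, mem_insert, mem_insert]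
      rcases hz with rfl | rfl
      · refine ⟨Or.inr (Or.inl rfl), ?_⟩
        rintro (h | h)
        · exact hef h.symm
        · exact hf ((mT X hX).1.1 h)
      · refine ⟨Or.inr (Or.inr hx), ?_⟩
        rintro (h | h)
        · exact he (h ▸ hxs)
        · exact hxX h
    have hfx : f ≠ x := by rintro rfl; exact hf hxs
    have h2 := card_le_card h1
    rw [card_pair hfx] at h2
    omega
  constructor
  · intro W hW
    rw [mem_ext3] at hW
    rw [mem_powersetCard, hE]
    rcases hW with hW | ⟨Z, hZ, rfl⟩ | ⟨X, hX, rfl⟩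
    · obtain ⟨h1, h2⟩ := m0 W hW
      exact ⟨h1.trans ((subset_insert _ _).trans (subset_insert _ _)), h2⟩
    · obtain ⟨h1, h2⟩ := m2 Z hZ
      refine ⟨insert_subset_insert _ (insert_subset_insert _ h1), ?_⟩
      rw [card_insert_of_notMem, card_insert_of_notMem (fun h => hf (h1 h)), h2]
      · omega
      · rw [mem_insert]
        rintro (h | h)
        · exact hef h
        · exact he (h1 h)
    · obtain ⟨⟨h1, h2⟩, -⟩ := mT X hX
      refine ⟨insert_subset_insert _ (h1.trans (subset_insert _ _)), ?_⟩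
      rw [card_insert_of_notMem (fun h => he (h1 h)), h2]
      omega
  · intro W hW W' hW' hadj
    rw [mem_ext3] at hW hW'
    rcases hW with hW | ⟨Z, hZ, rfl⟩ | ⟨X, hX, rfl⟩ <;>
      rcases hW' with hW' | ⟨Z', hZ', rfl⟩ | ⟨X', hX', rfl⟩
    · exact a00 _ hW _ hW' hadj
    · exact a02 _ hW _ hZ' hadj
    · exact a0T _ hW _ hX' hadj
    · exact a02 _ hW' _ hZ hadj.symm
    · exact a22 _ hZ _ hZ' hadj
    · exact a2T _ hZ _ hX' hadj
    · exact a0T _ hW' _ hX hadj.symm
    · exact a2T _ hZ' _ hX hadj.symm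
    · exact aTT _ hX _ hX' hadj

lemma ext3_inj (hef : e ≠ f) (he : e ∉ s) (hf : f ∉ s) {Q₀ Q₂ T Q₀' Q₂' T' : Finset (Finset α)}
    (h0 : ∀ Y ∈ Q₀, Y ⊆ s) (h2 : ∀ Z ∈ Q₂, Z ⊆ s) (hT : ∀ X ∈ T, X ⊆ s)
    (h0' : ∀ Y ∈ Q₀', Y ⊆ s) (h2' : ∀ Z ∈ Q₂', Z ⊆ s) (hT' : ∀ X ∈ T', X ⊆ s)
    (h : ext3 e f Q₀ Q₂ T = ext3 e f Q₀' Q₂' T') : Q₀ = Q₀' ∧ Q₂ = Q₂' ∧ T = T' := by
  have key : ∀ {A₀ A₂ B A₀' A₂' B' : Finset (Finset α)}, (∀ Y ∈ A₀, Y ⊆ s) → (∀ Z ∈ A₂, Z ⊆ s) →
      (∀ X ∈ B, X ⊆ s) → (∀ Y ∈ A₀', Y ⊆ s) → (∀ Z ∈ A₂', Z ⊆ s) → (∀ X ∈ B', X ⊆ s) →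
      ext3 e f A₀ A₂ B = ext3 e f A₀' A₂' B' → A₀ ⊆ A₀' ∧ A₂ ⊆ A₂' ∧ B ⊆ B' := by
    intro A₀ A₂ B A₀' A₂' B' k0 k2 kT k0' k2' kT' hh
    refine ⟨fun Y hY => ?_, fun Z hZ => ?_, fun X hX => ?_⟩
    · have h1 : Y ∈ ext3 e f A₀' A₂' B' := by rw [← hh, mem_ext3]; left; exact hY
      have hYe : e ∉ Y := fun h => he (k0 Y hY h)
      rw [mem_ext3] at h1
      rcases h1 with h1 | ⟨Z, _, rfl⟩ | ⟨X, _, rfl⟩
      · exact h1
      · exact absurd (mem_insert_self _ _) hYe
      · exact absurd (mem_insert_self _ _) hYe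
    · have h1 : insert e (insert f Z) ∈ ext3 e f A₀' A₂' B' := by
        rw [← hh, mem_ext3]; right; left; exact ⟨Z, hZ, rfl⟩
      have hZe : e ∉ Z := fun h => he (k2 Z hZ h)
      have hZf : f ∉ Z := fun h => hf (k2 Z hZ h)
      rw [mem_ext3] at h1
      rcases h1 with h1 | ⟨Z', hZ', h1⟩ | ⟨X, hX, h1⟩
      · exact absurd (k0' _ h1 (mem_insert_self _ _)) he
      · have hZe' : e ∉ Z' := fun h => he (k2' Z' hZ' h)
        have hZf' : f ∉ Z' := fun h => hf (k2' Z' hZ' h)
        have h3 : Z' = Z := by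
          have h4 : ((insert e (insert f Z')).erase e).erase f =
              ((insert e (insert f Z)).erase e).erase f := by rw [h1]
          rw [erase_insert (by rw [mem_insert]; rintro (h | h); exact hef h; exact hZe' h),
            erase_insert hZf',
            erase_insert (by rw [mem_insert]; rintro (h | h); exact hef h; exact hZe h),
            erase_insert hZf] at h4
          exact h4
        rw [← h3]; exact hZ'
      · exfalso
        have h3 : f ∈ insert e X := by
          rw [h1]; exact mem_insert_of_mem (mem_insert_self _ _)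
        rw [mem_insert] at h3
        rcases h3 with h3 | h3
        · exact hef h3.symm
        · exact hf (kT' X hX h3)
    · have h1 : insert e X ∈ ext3 e f A₀' A₂' B' := by
        rw [← hh, mem_ext3]; right; right; exact ⟨X, hX, rfl⟩
      have hXe : e ∉ X := fun h => he (kT X hX h)
      rw [mem_ext3] at h1
      rcases h1 with h1 | ⟨Z', hZ', h1⟩ | ⟨X', hX', h1⟩
      · exact absurd (k0' _ h1 (mem_insert_self _ _)) he
      · exfalso
        have h3 : f ∈ insert e X := by
          rw [← h1]; exact mem_insert_of_mem (mem_insert_self _ _)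
        rw [mem_insert] at h3
        rcases h3 with h3 | h3
        · exact hef h3.symm
        · exact hf (kT X hX h3)
      · have hXe' : e ∉ X' := fun h => he (kT' X' hX' h)
        have h3 : X' = X := by
          have h4 : (insert e X').erase e = (insert e X).erase e := by rw [h1]
          rw [erase_insert hXe', erase_insert hXe] at h4
          exact h4
        rw [← h3]; exact hX'
  have k1 := key h0 h2 hT h0' h2' hT' h
  have k2 := key h0' h2' hT' h0 h2 hT h.symm
  exact ⟨k1.1.antisymm k2.1, k1.2.1.antisymm k2.2.1, k1.2.2.antisymm k2.2.2⟩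

/-- The number of independent sets not using sets that split `{e, f}`. -/
lemma card_indSets_unsplit_le (hef : e ≠ f) (he : e ∉ s) (hf : f ∉ s)
    (hE : E = insert e (insert f s)) {r : ℕ} (hr : 2 ≤ r) :
    (indSets (JG α) ((E.powersetCard r).filter (fun X => e ∈ X ↔ f ∈ X))).card ≤
      (indSets (JG α) (s.powersetCard r)).card * (indSets (JG α) (s.powersetCard (r - 2))).card := by
  classical
  rw [← card_product]
  -- the map
  refine card_le_card_of_injOn (fun Q => (Q.filter (fun X => e ∉ X),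
    (Q.filter (fun X => e ∈ X)).image (fun X => (X.erase e).erase f))) ?_ ?_
  · intro Q hQ
    rw [mem_coe, mem_indSets] at hQ
    obtain ⟨hQs, hQi⟩ := hQ
    rw [mem_coe, mem_product, mem_indSets, mem_indSets]
    have hmem : ∀ X ∈ Q, (X ⊆ E ∧ X.card = r) ∧ (e ∈ X ↔ f ∈ X) := by
      intro X hX
      have := hQs hX
      rw [mem_filter, mem_powersetCard] at this
      exact this
    refine ⟨⟨?_, ?_⟩, ?_, ?_⟩
    · intro X hX
      simp only [mem_filter] at hX
      obtain ⟨⟨h1, h2⟩, h3⟩ := hmem X hX.1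
      rw [mem_powersetCard]
      refine ⟨fun x hx => ?_, h2⟩
      have := h1 hx
      rw [hE, mem_insert, mem_insert] at this
      rcases this with rfl | rfl | h
      · exact absurd hx hX.2
      · exact absurd (h3.mpr hx) hX.2
      · exact h
    · intro X hX Y hY
      simp only [mem_filter] at hX hY
      exact hQi X hX.1 Y hY.1
    · intro Z hZ
      simp only [mem_image, mem_filter] at hZ
      obtain ⟨X, ⟨hX, hXe⟩, rfl⟩ := hZ
      obtain ⟨⟨h1, h2⟩, h3⟩ := hmem X hX
      have hXf := h3.mp hXe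
      rw [mem_powersetCard]
      constructor
      · intro x hx
        rw [mem_erase, mem_erase] at hx
        have := h1 hx.2.2
        rw [hE, mem_insert, mem_insert] at this
        rcases this with h | h | h
        · exact absurd h hx.2.1
        · exact absurd h hx.1
        · exact h
      · rw [card_erase_of_mem (mem_erase.mpr ⟨hef.symm, hXf⟩), card_erase_of_mem hXe, h2]
        omega
    · intro Z hZ Z' hZ' hadj
      simp only [mem_image, mem_filter] at hZ hZ'
      obtain ⟨X, ⟨hX, hXe⟩, rfl⟩ := hZ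
      obtain ⟨X', ⟨hX', hXe'⟩, rfl⟩ := hZ'
      apply hQi X hX X' hX'
      have hXf := (hmem X hX).2.mp hXe
      have hXf' := (hmem X' hX').2.mp hXe'
      have key : ∀ A B : Finset α, e ∈ B → f ∈ B →
          ((A.erase e).erase f) \ ((B.erase e).erase f) = A \ B := by
        intro A B hBe hBf
        ext x
        simp only [mem_sdiff, mem_erase]
        constructor
        · rintro ⟨⟨h1, h2, h3⟩, h4⟩
          exact ⟨h3, fun hB => h4 ⟨h1, h2, hB⟩⟩
        · rintro ⟨h1, h2⟩
          refine ⟨⟨?_, ?_, h1⟩, fun h => h2 h.2.2⟩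
          · rintro rfl; exact h2 hBf
          · rintro rfl; exact h2 hBe
      rw [JG_adj] at hadj ⊢
      rw [key X X' hXe' hXf', key X' X hXe hXf] at hadj
      exact hadj
  · intro Q hQ Q' hQ' h
    rw [mem_coe, mem_indSets] at hQ hQ'
    simp only [Prod.mk.injEq] at h
    have hmem : ∀ {P : Finset (Finset α)}, P ⊆ (E.powersetCard r).filter (fun X => e ∈ X ↔ f ∈ X) →
        ∀ X ∈ P, e ∈ X → insert e (insert f ((X.erase e).erase f)) = X := by
      intro P hP X hX hXe
      have := hP hX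
      rw [mem_filter] at this
      have hXf := this.2.mp hXe
      rw [insert_erase (mem_erase.mpr ⟨hef.symm, hXf⟩), insert_erase hXe]
    have hrec : ∀ {P : Finset (Finset α)}, P ⊆ (E.powersetCard r).filter (fun X => e ∈ X ↔ f ∈ X) →
        P = P.filter (fun X => e ∉ X) ∪ ((P.filter (fun X => e ∈ X)).image
          (fun X => (X.erase e).erase f)).image (fun Z => insert e (insert f Z)) := by
      intro P hP
      ext X
      rw [mem_union, mem_filter, mem_image]
      constructor
      · intro hX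
        by_cases hXe : e ∈ X
        · right
          exact ⟨(X.erase e).erase f, mem_image.mpr ⟨X, mem_filter.mpr ⟨hX, hXe⟩, rfl⟩,
            hmem hP X hX hXe⟩
        · left; exact ⟨hX, hXe⟩
      · rintro (⟨hX, _⟩ | ⟨Z, hZ, rfl⟩)
        · exact hX
        · rw [mem_image] at hZ
          obtain ⟨X, hX, rfl⟩ := hZ
          rw [mem_filter] at hX
          rw [hmem hP X hX.1 hX.2]
          exact hX.1
    rw [hrec hQ.1, hrec hQ'.1, h.1, h.2]

/-- The extension argument. -/
theorem extend_bound (hef : e ≠ f) (he : e ∉ s) (hf : f ∉ s)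
    (hE : E = insert e (insert f s)) {r : ℕ} (hr : 2 ≤ r) (hrs : r - 1 ≤ s.card)
    (hs : 0 < s.card)
    (h0 : ∀ X ∈ s.powersetCard (r - 1),
      (indSets (JG α) (s.powersetCard r)).card ≤ 40 * (uncFam s r X).card)
    (h2 : ∀ X ∈ s.powersetCard (r - 1),
      (indSets (JG α) (s.powersetCard (r - 2))).card ≤ 40 * (uncFam' s (r - 2) X).card) :
    (indSets (JG α) (s.powersetCard r)).card * (indSets (JG α) (s.powersetCard (r - 2))).card *
      2 ^ (s.card.choose (r - 1) / (3200 * s.card)) ≤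
        3200 * (indSets (JG α) (E.powersetCard r)).card := by
  classical
  set I₀ := indSets (JG α) (s.powersetCard r) with hI₀
  set I₂ := indSets (JG α) (s.powersetCard (r - 2)) with hI₂
  set C := s.card.choose (r - 1) with hC
  have hCpos : 0 < C := Nat.choose_pos hrs
  set good := (I₀ ×ˢ I₂).filter (fun p => C ≤ 3200 * (unc s r p.1 p.2).card) with hgood
  -- many good pairs
  have hsum := sum_unc s r
  rw [← hI₀, ← hI₂] at hsum
  have h3 : C * (I₀.card * I₂.card) ≤ 1600 * ∑ p ∈ I₀ ×ˢ I₂, (unc s r p.1 p.2).card := by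
    rw [hsum, mul_sum]
    have : C * (I₀.card * I₂.card) = ∑ X ∈ s.powersetCard (r - 1), I₀.card * I₂.card := by
      rw [sum_const, smul_eq_mul, card_powersetCard]
    rw [this]
    refine sum_le_sum (fun X hX => ?_)
    have h4 := Nat.mul_le_mul (h0 X hX) (h2 X hX)
    calc I₀.card * I₂.card ≤ 40 * (uncFam s r X).card * (40 * (uncFam' s (r - 2) X).card) := h4
      _ = 1600 * ((uncFam s r X).card * (uncFam' s (r - 2) X).card) := by ring
  have hunc : ∀ p : Finset (Finset α) × Finset (Finset α), (unc s r p.1 p.2).card ≤ C := by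
    intro p
    refine (card_le_card (filter_subset _ _)).trans ?_
    rw [card_powersetCard]
  have h5 : 3200 * ∑ p ∈ I₀ ×ˢ I₂, (unc s r p.1 p.2).card ≤
      good.card * (3200 * C) + (I₀.card * I₂.card) * C := by
    rw [← filter_union_filter_not_eq (fun p => C ≤ 3200 * (unc s r p.1 p.2).card) (I₀ ×ˢ I₂),
      sum_union (disjoint_filter_filter_not _ _ _), mul_add, mul_sum, mul_sum, ← hgood]
    refine add_le_add ?_ ?_
    · refine (sum_le_card_nsmul good _ (3200 * C) (fun p _ => Nat.mul_le_mul_left _ (hunc p))).trans ?_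
      rw [smul_eq_mul]
    · refine (sum_le_card_nsmul _ _ C (fun p hp => ?_)).trans ?_
      · rw [mem_filter, not_le] at hp
        exact hp.2.le
      · rw [smul_eq_mul]
        refine Nat.mul_le_mul_right _ ?_
        rw [← card_product]
        exact card_le_card (filter_subset _ _)
  have h6 : I₀.card * I₂.card ≤ 3200 * good.card := by
    have h7 : C * (2 * (I₀.card * I₂.card)) ≤ C * (3200 * good.card + I₀.card * I₂.card) := by
      calc C * (2 * (I₀.card * I₂.card)) = 2 * (C * (I₀.card * I₂.card)) := by ring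
        _ ≤ 2 * (1600 * ∑ p ∈ I₀ ×ˢ I₂, (unc s r p.1 p.2).card) := by omega
        _ = 3200 * ∑ p ∈ I₀ ×ˢ I₂, (unc s r p.1 p.2).card := by ring
        _ ≤ good.card * (3200 * C) + (I₀.card * I₂.card) * C := h5
        _ = C * (3200 * good.card + I₀.card * I₂.card) := by ring
    have := Nat.le_of_mul_le_mul_left h7 hCpos
    omega
  -- choose big independent families in the uncovered sets
  have hex : ∀ p : Finset (Finset α) × Finset (Finset α), ∃ B ∈ indSets (JG α) (unc s r p.1 p.2),
      (unc s r p.1 p.2).card ≤ s.card * B.card := by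
    intro p
    refine exists_indep_subfamily s (card_pos.mp hs) _ (fun X hX => ?_)
    rw [unc, mem_filter, mem_powersetCard] at hX
    exact hX.1.1
  choose B hB hBcard using hex
  have h8 : ∑ p ∈ good, 2 ^ (B p).card ≤ (indSets (JG α) (E.powersetCard r)).card := by
    have h9 : ∑ p ∈ good, 2 ^ (B p).card = (good.sigma (fun p => (B p).powerset)).card := by
      rw [card_sigma]
      simp only [card_powerset]
    rw [h9]
    refine card_le_card_of_injOn (fun x => ext3 e f x.1.1 x.1.2 x.2) ?_ ?_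
    · rintro ⟨p, T⟩ hx
      rw [mem_coe, mem_sigma, mem_powerset, hgood, mem_filter, mem_product] at hx
      obtain ⟨⟨⟨hp0, hp2⟩, -⟩, hT⟩ := hx
      rw [mem_coe]
      refine ext3_mem_indSets hef he hf hE hr hp0 hp2 ?_
      have := hB p
      rw [mem_indSets] at this ⊢
      exact ⟨hT.trans this.1, fun x hx y hy => this.2 x (hT hx) y (hT hy)⟩
    · rintro ⟨p, T⟩ hx ⟨p', T'⟩ hx' h
      rw [mem_coe, mem_sigma, mem_powerset, hgood, mem_filter, mem_product] at hx hx'
      obtain ⟨⟨⟨hp0, hp2⟩, -⟩, hT⟩ := hx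
      obtain ⟨⟨⟨hp0', hp2'⟩, -⟩, hT'⟩ := hx'
      rw [mem_indSets] at hp0 hp2 hp0' hp2'
      have hBs : ∀ p, ∀ X ∈ B p, X ⊆ s := by
        intro p X hX
        have h1 := hB p
        rw [mem_indSets] at h1
        have h2 := h1.1 hX
        rw [unc, mem_filter, mem_powersetCard] at h2
        exact h2.1.1
      have := ext3_inj hef he hf (fun Y hY => (mem_powersetCard.mp (hp0.1 hY)).1)
        (fun Z hZ => (mem_powersetCard.mp (hp2.1 hZ)).1) (fun X hX => hBs p X (hT hX))
        (fun Y hY => (mem_powersetCard.mp (hp0'.1 hY)).1)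
        (fun Z hZ => (mem_powersetCard.mp (hp2'.1 hZ)).1) (fun X hX => hBs p' X (hT' hX)) h
      obtain ⟨h1, h2, h3⟩ := this
      simp only at h1 h2 h3
      have hpp : p = p' := Prod.ext h1 h2
      subst hpp
      rw [h3]
  have h10 : good.card * 2 ^ (C / (3200 * s.card)) ≤ ∑ p ∈ good, 2 ^ (B p).card := by
    rw [← smul_eq_mul, ← sum_const]
    refine sum_le_sum (fun p hp => ?_)
    refine Nat.pow_le_pow_right (by norm_num) ?_
    rw [hgood, mem_filter] at hp
    have h11 : C ≤ (3200 * s.card) * (B p).card := by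
      calc C ≤ 3200 * (unc s r p.1 p.2).card := hp.2
        _ ≤ 3200 * (s.card * (B p).card) := Nat.mul_le_mul_left _ (hBcard p)
        _ = (3200 * s.card) * (B p).card := by ring
    exact Nat.div_le_of_le_mul h11
  calc I₀.card * I₂.card * 2 ^ (C / (3200 * s.card)) ≤
        (3200 * good.card) * 2 ^ (C / (3200 * s.card)) := Nat.mul_le_mul_right _ h6
    _ = 3200 * (good.card * 2 ^ (C / (3200 * s.card))) := by ring
    _ ≤ 3200 * (indSets (JG α) (E.powersetCard r)).card :=
        Nat.mul_le_mul_left _ (h10.trans h8)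

end Ext

end Pool.Agent.Lib.MP_ea4949_co
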