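import Pool.Agent.Lib.MP_ea4949_co.CaseB

set_option autoImplicit false
set_option linter.unusedSectionVars false
set_option linter.unusedVariables false

namespace Pool.Agent.Lib.MP_ea4949_co

open Finset
open scoped Pointwise

lemma card_invBF_le_pow {n : ℕ} (σ : Equiv.Perm (Fin n)) (r : ℕ) :
    (invBF σ r).card ≤ 2 ^ (n.choose r) := by
  have h1 : invBF σ r ⊆ ((univ : Finset (Fin n)).powersetCard r).powerset := by
    intro B hB
    rw [mem_invBF] at hB
    rw [mem_powerset]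
    intro X hX
    rw [mem_powersetCard]
    exact ⟨subset_univ _, hB.1.card X hX⟩
  have h2 := card_le_card h1
  rwa [card_powerset, card_powersetCard, card_univ, Fintype.card_fin] at h2

/-- The trivial bound away from the centre. -/
theorem case_A {n : ℕ} (hn : 4 ≤ n) (h5 : n ^ 5 ≤ n.choose (n / 2))
    (σ : Equiv.Perm (Fin n)) {r : ℕ} (hK : n ^ 2 * n.choose r < n.choose (n / 2)) :
    (invBF σ r).card * 2 ^ (n ^ 3) ≤ Nat.card {M : Matroid (Fin n) // M.E = Set.univ} := by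
  have hne : (univ : Finset (Fin n)).Nonempty := ⟨⟨0, by omega⟩, mem_univ _⟩
  obtain ⟨B, hB, hBc⟩ := exists_indep_subfamily (univ : Finset (Fin n)) hne
    ((univ : Finset (Fin n)).powersetCard (n / 2)) (fun X _ => subset_univ _)
  rw [card_powersetCard, card_univ, Fintype.card_fin] at hBc
  have h1 : n.choose r + n ^ 3 ≤ B.card := by
    have h2 : n ^ 2 * (n.choose r + n ^ 3) ≤ n ^ 2 * B.card := by
      calc n ^ 2 * (n.choose r + n ^ 3) = n ^ 2 * n.choose r + n ^ 5 := by ring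
        _ ≤ n.choose (n / 2) + n.choose (n / 2) := by omega
        _ = 2 * n.choose (n / 2) := by ring
        _ ≤ n * n.choose (n / 2) := Nat.mul_le_mul_right _ (by omega)
        _ ≤ n * (n * B.card) := Nat.mul_le_mul_left _ hBc
        _ = n ^ 2 * B.card := by ring
    exact Nat.le_of_mul_le_mul_left h2 (by positivity)
  calc (invBF σ r).card * 2 ^ (n ^ 3) ≤ 2 ^ (n.choose r) * 2 ^ (n ^ 3) :=
        Nat.mul_le_mul_right _ (card_invBF_le_pow σ r)
    _ = 2 ^ (n.choose r + n ^ 3) := by rw [pow_add]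
    _ ≤ 2 ^ B.card := Nat.pow_le_pow_right (by norm_num) h1
    _ ≤ (indSets (JG (Fin n)) ((univ : Finset (Fin n)).powersetCard (n / 2))).card :=
        card_indSets_ge (JG (Fin n)) hB
    _ ≤ _ := card_indSets_le_matroids (by omega) (by rw [Fintype.card_fin]; omega)

/-- The main bound. -/
theorem main_bound : ∃ n₀ : ℕ, ∀ n : ℕ, n₀ ≤ n → ∀ σ : Equiv.Perm (Fin n), σ ≠ 1 → ∀ r : ℕ,
    (invBF σ r).card * 2 ^ (n ^ 3) ≤ Nat.card {M : Matroid (Fin n) // M.E = Set.univ} := by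
  obtain ⟨m₀, hm₀⟩ := half_of_large
  have hm₀' : HalfBound m₀ := hm₀
  obtain ⟨n₁, hn₁⟩ := eventually_par
  -- polynomial growth is slower than the central binomial coefficient
  obtain ⟨n₂, hn₂⟩ : ∃ n₂ : ℕ, ∀ n : ℕ, n₂ ≤ n → n ^ 7 ≤ 2 ^ n := by
    have h1 : Filter.Tendsto (fun n : ℕ => (n : ℝ) ^ 7 / (2 : ℝ) ^ n) Filter.atTop (nhds 0) :=
      tendsto_pow_const_div_const_pow_of_one_lt 7 (by norm_num)
    have h2 := h1.eventually_le_const (show (0 : ℝ) < 1 by norm_num)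
    obtain ⟨n₂, hn₂⟩ := Filter.eventually_atTop.mp h2
    refine ⟨n₂, fun n hn => ?_⟩
    have h3 := hn₂ n hn
    rw [div_le_one (by positivity)] at h3
    exact_mod_cast h3
  refine ⟨max (max n₁ n₂) (max (m₀ + 2) 4), fun n hn σ hσ r => ?_⟩
  have hn1 : n₁ ≤ n := le_trans (le_trans (le_max_left _ _) (le_max_left _ _)) hn
  have hn2 : n₂ ≤ n := le_trans (le_trans (le_max_right _ _) (le_max_left _ _)) hn
  have hn3 : m₀ + 2 ≤ n := le_trans (le_trans (le_max_left _ _) (le_max_right _ _)) hn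
  have hn4 : 4 ≤ n := le_trans (le_trans (le_max_right _ _) (le_max_right _ _)) hn
  obtain ⟨hL1, hsL⟩ := hn₁ n hn1
  by_cases hK : n.choose (n / 2) ≤ n ^ 2 * n.choose r
  · have hr : r ≤ n := by
      by_contra hcon
      push Not at hcon
      rw [Nat.choose_eq_zero_of_lt hcon, mul_zero] at hK
      have := Nat.choose_pos (Nat.div_le_self n 2)
      omega
    exact case_B hm₀' hn3 hL1 hsL σ hσ hr hK
  · push Not at hK
    refine case_A hn4 ?_ σ hK
    have h1 := two_pow_le n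
    have h2 := hn₂ n hn2
    have h3 : n ^ 2 * n ^ 5 ≤ n ^ 2 * n.choose (n / 2) := by
      calc n ^ 2 * n ^ 5 = n ^ 7 := by ring
        _ ≤ 2 ^ n := h2
        _ ≤ (n + 1) * n.choose (n / 2) := h1
        _ ≤ n ^ 2 * n.choose (n / 2) := Nat.mul_le_mul_right _ (by nlinarith)
    exact Nat.le_of_mul_le_mul_left h3 (by positivity)

/-! ### unlabelled matroids -/

section Quot

variable {n : ℕ}

/-- Matroids on `Fin n`. -/
abbrev Mt (n : ℕ) := {M : Matroid (Fin n) // M.E = Set.univ}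

/-- Isomorphism. -/
def Iso (M N : Mt n) : Prop :=
  ∃ σ : Equiv.Perm (Fin n), ∀ B : Set (Fin n), M.1.IsBase B ↔ N.1.IsBase (σ '' B)

/-- Asymmetric. -/
def Asym (M : Mt n) : Prop :=
  ∀ σ : Equiv.Perm (Fin n), (∀ B : Set (Fin n), M.1.IsBase B ↔ M.1.IsBase (σ '' B)) → σ = 1

lemma image_inv_image (σ : Equiv.Perm (Fin n)) (B : Set (Fin n)) :
    σ '' ((σ⁻¹ : Equiv.Perm (Fin n)) '' B) = B := by
  rw [← Set.image_comp]
  have : (σ ∘ (σ⁻¹ : Equiv.Perm (Fin n)) : Fin n → Fin n) = id := by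
    funext x
    simp
  rw [this, Set.image_id]

lemma iso_equiv : Equivalence (Iso (n := n)) := by
  constructor
  · intro M
    exact ⟨1, fun B => by simp⟩
  · rintro M N ⟨σ, h⟩
    refine ⟨σ⁻¹, fun B => ?_⟩
    rw [h, image_inv_image]
  · rintro M N P ⟨σ, h⟩ ⟨τ, h'⟩
    refine ⟨τ * σ, fun B => ?_⟩
    rw [h, h', ← Set.image_comp]
    rfl

lemma finite_Mt (n : ℕ) : Finite (Mt n) := finite_matroids (α := Fin n)

lemma card_Mt_le (n : ℕ) : Nat.card (Mt n) ≤ Nat.card (Quot (Iso (n := n))) * n.factorial := by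
  have hfin := finite_Mt n
  have h0 : n.factorial = Nat.card (Equiv.Perm (Fin n)) := by
    rw [Nat.card_eq_fintype_card, Fintype.card_perm, Fintype.card_fin]
  rw [h0, ← Nat.card_prod]
  have h1 : ∀ M : Mt n, ∃ σ : Equiv.Perm (Fin n), ∀ B : Set (Fin n),
      (Quot.mk Iso M).out.1.IsBase B ↔ M.1.IsBase (σ '' B) := by
    intro M
    have h2 : Quot.mk Iso (Quot.mk Iso M).out = Quot.mk Iso M := Quot.out_eq _
    rw [Quot.eq, iso_equiv.eqvGen_iff] at h2
    exact h2
  choose σ hσ using h1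
  refine Nat.card_le_card_of_injective (fun M => (Quot.mk Iso M, σ M)) ?_
  intro M N h
  simp only [Prod.mk.injEq] at h
  obtain ⟨h2, h3⟩ := h
  refine Subtype.ext (Matroid.ext_isBase (M.2.trans N.2.symm) (fun B _ => ?_))
  have h4 := hσ M (((σ M)⁻¹ : Equiv.Perm (Fin n)) '' B)
  have h5 := hσ N (((σ M)⁻¹ : Equiv.Perm (Fin n)) '' B)
  rw [image_inv_image] at h4
  rw [← h2, ← h3, image_inv_image] at h5
  exact h4.symm.trans h5

/-- The number of matroids with a nontrivial automorphism. -/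
lemma card_not_asym_le (n : ℕ) (m : ℕ) (h : ∀ σ : Equiv.Perm (Fin n), σ ≠ 1 →
      ∀ r : ℕ, (invBF σ r).card * 2 ^ (n ^ 3) ≤ m) :
    Nat.card {M : Mt n // ¬ Asym M} * 2 ^ (n ^ 3) ≤ n.factorial * ((n + 1) * m) := by
  classical
  have hfin := finite_Mt n
  have h0 : n.factorial = (univ : Finset (Equiv.Perm (Fin n))).card := by
    rw [card_univ, Fintype.card_perm, Fintype.card_fin]
  -- choose an automorphism
  have h1 : Nat.card {M : Mt n // ¬ Asym M} ≤
      Nat.card (Σ σ : {σ : Equiv.Perm (Fin n) // σ ≠ 1}, {M : Mt n //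
        ∀ B : Set (Fin n), M.1.IsBase B ↔ M.1.IsBase (σ.1 '' B)}) := by
    have h2 : ∀ M : {M : Mt n // ¬ Asym M}, ∃ σ : {σ : Equiv.Perm (Fin n) // σ ≠ 1},
        ∀ B : Set (Fin n), M.1.1.IsBase B ↔ M.1.1.IsBase (σ.1 '' B) := by
      rintro ⟨M, hM⟩
      unfold Asym at hM
      push Not at hM
      obtain ⟨σ, hσ, hσ1⟩ := hM
      exact ⟨⟨σ, hσ1⟩, hσ⟩
    choose σ hσ using h2
    refine Nat.card_le_card_of_injective (fun M => ⟨σ M, ⟨M.1, hσ M⟩⟩) ?_
    intro M N h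
    have h3 : M.1 = N.1 :=
      congrArg (fun x : (Σ σ : {σ : Equiv.Perm (Fin n) // σ ≠ 1}, {M : Mt n //
        ∀ B : Set (Fin n), M.1.IsBase B ↔ M.1.IsBase (σ.1 '' B)}) => x.2.1) h
    exact Subtype.ext h3
  rw [Nat.card_sigma] at h1
  calc Nat.card {M : Mt n // ¬ Asym M} * 2 ^ (n ^ 3) ≤
      (∑ σ : {σ : Equiv.Perm (Fin n) // σ ≠ 1}, Nat.card {M : Mt n //
        ∀ B : Set (Fin n), M.1.IsBase B ↔ M.1.IsBase (σ.1 '' B)}) * 2 ^ (n ^ 3) :=
        Nat.mul_le_mul_right _ h1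
    _ ≤ (∑ σ : {σ : Equiv.Perm (Fin n) // σ ≠ 1},
        ∑ r ∈ range (n + 1), (invBF σ.1 r).card) * 2 ^ (n ^ 3) := by
        refine Nat.mul_le_mul_right _ (sum_le_sum (fun σ _ => ?_))
        have := card_aut_le σ.1
        rwa [Fintype.card_fin] at this
    _ = ∑ σ : {σ : Equiv.Perm (Fin n) // σ ≠ 1},
        ∑ r ∈ range (n + 1), (invBF σ.1 r).card * 2 ^ (n ^ 3) := by
        rw [sum_mul]
        exact sum_congr rfl (fun σ _ => sum_mul _ _ _)
    _ ≤ ∑ σ : {σ : Equiv.Perm (Fin n) // σ ≠ 1}, (n + 1) * m := by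
        refine sum_le_sum (fun σ _ => ?_)
        refine (sum_le_card_nsmul _ _ m (fun r _ => h σ.1 σ.2 r)).trans ?_
        rw [card_range, smul_eq_mul]
    _ ≤ n.factorial * ((n + 1) * m) := by
        rw [sum_const, smul_eq_mul, h0]
        refine Nat.mul_le_mul_right _ ?_
        rw [card_univ, card_univ]
        exact Fintype.card_subtype_le _

lemma card_not_asym_quot_le (n : ℕ) :
    Nat.card {q : Quot (Iso (n := n)) // ¬ ∀ M : Mt n, q = Quot.mk _ M → Asym M} ≤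
      Nat.card {M : Mt n // ¬ Asym M} := by
  have hfin := finite_Mt n
  have h1 : ∀ q : {q : Quot (Iso (n := n)) // ¬ ∀ M : Mt n, q = Quot.mk _ M → Asym M},
      ∃ M : {M : Mt n // ¬ Asym M}, q.1 = Quot.mk _ M.1 := by
    rintro ⟨q, hq⟩
    push Not at hq
    obtain ⟨M, hM, hM'⟩ := hq
    exact ⟨⟨M, hM'⟩, hM⟩
  choose f hf using h1
  refine Nat.card_le_card_of_injective f ?_
  intro q q' h
  apply Subtype.ext
  rw [hf q, hf q', h]

lemma fact_bound {n : ℕ} (hn : 3 ≤ n) :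
    n.factorial * (n + 1) * n.factorial * 2 ^ n ≤ 2 ^ (n ^ 3) := by
  have h1 : n.factorial ≤ 2 ^ (n ^ 2) := by
    calc n.factorial ≤ n ^ n := Nat.factorial_le_pow n
      _ ≤ (2 ^ n) ^ n := Nat.pow_le_pow_left Nat.lt_two_pow_self.le n
      _ = 2 ^ (n ^ 2) := by rw [← pow_mul, sq]
  have h2 : n + 1 ≤ 2 ^ n := Nat.lt_two_pow_self
  calc n.factorial * (n + 1) * n.factorial * 2 ^ n ≤ 2 ^ (n ^ 2) * 2 ^ n * 2 ^ (n ^ 2) * 2 ^ n :=
        Nat.mul_le_mul_right _ (Nat.mul_le_mul (Nat.mul_le_mul h1 h2) h1)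
    _ = 2 ^ (n ^ 2 + n + n ^ 2 + n) := by rw [← pow_add, ← pow_add, ← pow_add]
    _ ≤ 2 ^ (n ^ 3) := by
        refine Nat.pow_le_pow_right (by norm_num) ?_
        nlinarith [Nat.mul_le_mul hn (Nat.mul_le_mul hn hn), sq_nonneg n]

theorem main_quot : Filter.Tendsto
      (fun n : ℕ =>
        (Nat.card {q : Quot (Iso (n := n)) // ∀ M : Mt n, q = Quot.mk _ M → Asym M} : ℝ) /
          (Nat.card (Quot (Iso (n := n))) : ℝ))
      Filter.atTop (nhds 1) := by
  classical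
  obtain ⟨n₀, hn₀⟩ := main_bound
  have hlow : Filter.Tendsto (fun n : ℕ => 1 - (1 / 2 : ℝ) ^ n) Filter.atTop (nhds (1 - 0)) :=
    (tendsto_pow_atTop_nhds_zero_of_lt_one (by norm_num) (by norm_num)).const_sub 1
  rw [sub_zero] at hlow
  refine tendsto_of_tendsto_of_tendsto_of_le_of_le' hlow tendsto_const_nhds ?_ ?_
  · filter_upwards [Filter.eventually_ge_atTop (max n₀ 3)] with n hn
    have hfin := finite_Mt n
    have hn1 : n₀ ≤ n := le_trans (le_max_left _ _) hn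
    have hn3 : 3 ≤ n := le_trans (le_max_right _ _) hn
    set Tot := Nat.card (Quot (Iso (n := n))) with hTot
    set As := Nat.card {q : Quot (Iso (n := n)) // ∀ M : Mt n, q = Quot.mk _ M → Asym M} with hAs
    set NA := Nat.card {q : Quot (Iso (n := n)) // ¬ ∀ M : Mt n, q = Quot.mk _ M → Asym M} with hNA
    have hsum : As + NA = Tot := by
      rw [hAs, hNA, hTot, ← Nat.card_sum]
      exact Nat.card_congr (Equiv.sumCompl _)
    have h1 := card_not_asym_le n _ (hn₀ n hn1)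
    have h2 := card_not_asym_quot_le n
    have h3 := card_Mt_le n
    rw [← hNA] at h2
    rw [← hTot] at h3
    have h4 : NA * 2 ^ (n ^ 3) ≤ n.factorial * ((n + 1) * (Tot * n.factorial)) := by
      calc NA * 2 ^ (n ^ 3) ≤ Nat.card {M : Mt n // ¬ Asym M} * 2 ^ (n ^ 3) :=
            Nat.mul_le_mul_right _ h2
        _ ≤ n.factorial * ((n + 1) * Nat.card (Mt n)) := h1
        _ ≤ _ := Nat.mul_le_mul_left _ (Nat.mul_le_mul_left _ h3)
    have h5 : NA * 2 ^ n ≤ Tot := by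
      have h6 : NA * 2 ^ n * 2 ^ (n ^ 3) ≤ Tot * 2 ^ (n ^ 3) := by
        calc NA * 2 ^ n * 2 ^ (n ^ 3) = (NA * 2 ^ (n ^ 3)) * 2 ^ n := by ring
          _ ≤ (n.factorial * ((n + 1) * (Tot * n.factorial))) * 2 ^ n :=
            Nat.mul_le_mul_right _ h4
          _ = Tot * (n.factorial * (n + 1) * n.factorial * 2 ^ n) := by ring
          _ ≤ Tot * 2 ^ (n ^ 3) := Nat.mul_le_mul_left _ (fact_bound hn3)
      exact Nat.le_of_mul_le_mul_right h6 (by positivity)
    have hTot0 : 0 < Tot := by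
      rw [hTot]
      have hne : Nonempty (Quot (Iso (n := n))) := by
        refine ⟨Quot.mk _ ⟨Matroid.freeOn Set.univ, ?_⟩⟩
        exact Matroid.freeOn_ground
      exact Nat.card_pos
    have hTotR : (0 : ℝ) < Tot := by exact_mod_cast hTot0
    rw [le_div_iff₀ hTotR]
    have h7 : (As : ℝ) + NA = Tot := by exact_mod_cast hsum
    have h8 : (NA : ℝ) * 2 ^ n ≤ Tot := by exact_mod_cast h5
    have h9 : (NA : ℝ) ≤ (1 / 2) ^ n * Tot := by
      rw [div_pow, one_pow, div_mul_eq_mul_div, le_div_iff₀ (by positivity), one_mul]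
      exact h8
    linarith
  · filter_upwards with n
    have hfin := finite_Mt n
    have h1 : Nat.card {q : Quot (Iso (n := n)) // ∀ M : Mt n, q = Quot.mk _ M → Asym M} ≤
        Nat.card (Quot (Iso (n := n))) :=
      Nat.card_le_card_of_injective Subtype.val Subtype.val_injective
    have h2 : (Nat.card {q : Quot (Iso (n := n)) // ∀ M : Mt n, q = Quot.mk _ M → Asym M} : ℝ) ≤
        Nat.card (Quot (Iso (n := n))) := by exact_mod_cast h1
    exact div_le_one_of_le₀ h2 (Nat.cast_nonneg _)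

end Quot

end Pool.Agent.Lib.MP_ea4949_co
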