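import Pool.Agent.Lib.MP_ea4949_co.KW

set_option autoImplicit false
set_option linter.unusedSectionVars false
set_option linter.unusedVariables false

namespace Pool.Agent.Lib.MP_ea4949_co

open Finset

variable {α : Type*} [DecidableEq α]

/-- The (union of all) Johnson graph(s): `X` and `Y` are adjacent if `Y` arises from `X` by
exchanging one element. -/
def JG (α : Type*) [DecidableEq α] : SimpleGraph (Finset α) where
  Adj X Y := (X \ Y).card = 1 ∧ (Y \ X).card = 1
  symm := ⟨fun _ _ h => ⟨h.2, h.1⟩⟩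
  loopless := ⟨fun X h => by simp at h⟩

lemma JG_adj {X Y : Finset α} : (JG α).Adj X Y ↔ (X \ Y).card = 1 ∧ (Y \ X).card = 1 := Iff.rfl

instance : DecidableRel (JG α).Adj := fun X Y => by unfold JG; infer_instance

lemma JG_adj_iff_exchange {X Y : Finset α} :
    (JG α).Adj X Y ↔ ∃ e ∈ X, ∃ f, f ∉ X ∧ Y = insert f (X.erase e) := by
  rw [JG_adj]
  constructor
  · rintro ⟨h1, h2⟩
    rw [card_eq_one] at h1 h2
    obtain ⟨e, he⟩ := h1
    obtain ⟨f, hf⟩ := h2
    have he' : e ∈ X \ Y := by rw [he]; exact mem_singleton_self e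
    have hf' : f ∈ Y \ X := by rw [hf]; exact mem_singleton_self f
    rw [mem_sdiff] at he' hf'
    refine ⟨e, he'.1, f, hf'.2, ?_⟩
    ext x
    rw [mem_insert, mem_erase]
    constructor
    · intro hx
      by_cases hxX : x ∈ X
      · right
        refine ⟨?_, hxX⟩
        rintro rfl
        exact he'.2 hx
      · left
        have : x ∈ Y \ X := mem_sdiff.mpr ⟨hx, hxX⟩
        rw [hf, mem_singleton] at this
        exact this
    · rintro (rfl | ⟨hxe, hxX⟩)
      · exact hf'.1
      · by_contra hxY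
        have : x ∈ X \ Y := mem_sdiff.mpr ⟨hxX, hxY⟩
        rw [he, mem_singleton] at this
        exact hxe this
  · rintro ⟨e, he, f, hf, rfl⟩
    have h1 : X \ insert f (X.erase e) = {e} := by
      ext x
      simp only [mem_sdiff, mem_insert, mem_erase, mem_singleton]
      constructor
      · rintro ⟨hx, hx2⟩
        by_contra hne
        exact hx2 (Or.inr ⟨hne, hx⟩)
      · rintro rfl
        refine ⟨he, ?_⟩
        rintro (rfl | ⟨h, _⟩)
        · exact hf he
        · exact h rfl
    have h2 : insert f (X.erase e) \ X = {f} := by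
      ext x
      simp only [mem_sdiff, mem_insert, mem_erase, mem_singleton]
      constructor
      · rintro ⟨h | ⟨_, h⟩, hx2⟩
        · exact h
        · exact absurd h hx2
      · rintro rfl
        exact ⟨Or.inl rfl, hf⟩
    rw [h1, h2]
    simp

lemma JG_adj_card {X Y : Finset α} (h : (JG α).Adj X Y) : X.card = Y.card := by
  rw [JG_adj] at h
  have h1 := card_sdiff_add_card_inter X Y
  have h2 := card_sdiff_add_card_inter Y X
  rw [inter_comm Y X] at h2
  omega

lemma JG_adj_of_inter {X Y : Finset α} {r : ℕ} (hX : X.card = r) (hY : Y.card = r) (hr : 1 ≤ r)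
    (h : (X ∩ Y).card = r - 1) : (JG α).Adj X Y := by
  rw [JG_adj]
  have h1 := card_sdiff_add_card_inter X Y
  have h2 := card_sdiff_add_card_inter Y X
  rw [inter_comm Y X] at h2
  omega

lemma JG_adj_inter {X Y : Finset α} {r : ℕ} (hX : X.card = r) (h : (JG α).Adj X Y) :
    (X ∩ Y).card = r - 1 := by
  rw [JG_adj] at h
  have h1 := card_sdiff_add_card_inter X Y
  omega

/-- Double counting: the shadow degrees. -/
lemma sum_shadow (s : Finset α) (r : ℕ) (hr : 1 ≤ r) (A : Finset (Finset α))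
    (hA : A ⊆ s.powersetCard r) :
    ∑ X ∈ s.powersetCard (r - 1), (A.filter (fun Y => X ⊆ Y)).card = r * A.card := by
  have h1 : ∑ X ∈ s.powersetCard (r - 1), (A.filter (fun Y => X ⊆ Y)).card =
      ∑ Y ∈ A, ((s.powersetCard (r - 1)).filter (fun X => X ⊆ Y)).card := by
    simp only [card_filter]
    exact sum_comm
  rw [h1]
  have h2 : ∀ Y ∈ A, ((s.powersetCard (r - 1)).filter (fun X => X ⊆ Y)).card = r := by
    intro Y hY
    have hY' := mem_powersetCard.mp (hA hY)
    have h3 : (s.powersetCard (r - 1)).filter (fun X => X ⊆ Y) = Y.powersetCard (r - 1) := by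
      ext X
      rw [mem_filter, mem_powersetCard, mem_powersetCard]
      constructor
      · rintro ⟨⟨_, h⟩, h'⟩; exact ⟨h', h⟩
      · rintro ⟨h, h'⟩; exact ⟨⟨h.trans hY'.1, h'⟩, h⟩
    rw [h3, card_powersetCard, hY'.2]
    obtain ⟨r', rfl⟩ : ∃ r', r = r' + 1 := ⟨r - 1, by omega⟩
    simp
  rw [sum_congr rfl h2, sum_const, smul_eq_mul, mul_comm]

lemma sum_shadow_sq (s : Finset α) (r : ℕ) (hr : 1 ≤ r) (A : Finset (Finset α))
    (hA : A ⊆ s.powersetCard r) :
    ∑ X ∈ s.powersetCard (r - 1), (A.filter (fun Y => X ⊆ Y)).card ^ 2 =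
      r * A.card + ∑ Y ∈ A, (nbrs (JG α) A Y).card := by
  classical
  have h1 : ∀ X ∈ s.powersetCard (r - 1), (A.filter (fun Y => X ⊆ Y)).card ^ 2 =
      ∑ Y ∈ A, ∑ Y' ∈ A, if X ⊆ Y ∧ X ⊆ Y' then 1 else 0 := by
    intro X _
    rw [sq, card_filter, sum_mul_sum]
    refine sum_congr rfl (fun Y _ => sum_congr rfl (fun Y' _ => ?_))
    by_cases h1 : X ⊆ Y <;> by_cases h2 : X ⊆ Y' <;> simp [h1, h2]
  rw [sum_congr rfl h1, sum_comm]
  have h2 : ∀ Y ∈ A, ∑ X ∈ s.powersetCard (r - 1), ∑ Y' ∈ A,
      (if X ⊆ Y ∧ X ⊆ Y' then 1 else 0) = r + (nbrs (JG α) A Y).card := by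
    intro Y hY
    have hY' := mem_powersetCard.mp (hA hY)
    rw [sum_comm]
    have h3 : ∀ Y' ∈ A, ∑ X ∈ s.powersetCard (r - 1), (if X ⊆ Y ∧ X ⊆ Y' then 1 else 0) =
        (if Y' = Y then r else 0) + (if (JG α).Adj Y Y' then 1 else 0) := by
      intro Y' hY2
      have hY2' := mem_powersetCard.mp (hA hY2)
      rw [← card_filter]
      have h4 : (s.powersetCard (r - 1)).filter (fun X => X ⊆ Y ∧ X ⊆ Y') =
          (Y ∩ Y').powersetCard (r - 1) := by
        ext X
        rw [mem_filter, mem_powersetCard, mem_powersetCard, subset_inter_iff]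
        constructor
        · rintro ⟨⟨_, h⟩, h'⟩; exact ⟨h', h⟩
        · rintro ⟨h, h'⟩; exact ⟨⟨h.1.trans hY'.1, h'⟩, h⟩
      rw [h4, card_powersetCard]
      by_cases he : Y' = Y
      · subst he
        rw [if_pos rfl, if_neg (fun h => (JG α).loopless.irrefl _ h), inter_self, hY'.2]
        obtain ⟨r', rfl⟩ : ∃ r', r = r' + 1 := ⟨r - 1, by omega⟩
        simp
      · rw [if_neg he]
        have hlt : (Y ∩ Y').card < r := by
          have hss : Y ∩ Y' ⊂ Y := by
            refine ⟨inter_subset_left, fun h => he ?_⟩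
            have : Y ⊆ Y' := h.trans inter_subset_right
            exact (eq_of_subset_of_card_le this (by rw [hY2'.2, hY'.2])).symm
          have := card_lt_card hss
          omega
        by_cases hadj : (JG α).Adj Y Y'
        · rw [if_pos hadj, JG_adj_inter hY'.2 hadj]
          simp
        · rw [if_neg hadj]
          have : (Y ∩ Y').card < r - 1 := by
            rcases Nat.lt_or_ge (Y ∩ Y').card (r - 1) with h | h
            · exact h
            · exact absurd (JG_adj_of_inter hY'.2 hY2'.2 hr (by omega)) hadj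
          rw [Nat.choose_eq_zero_of_lt this]
    rw [sum_congr rfl h3, sum_add_distrib, sum_ite_eq', if_pos hY]
    unfold nbrs
    rw [card_filter]
    congr 1
    exact sum_congr rfl (fun _ _ => by congr)
  rw [sum_congr rfl h2, sum_add_distrib, sum_const, smul_eq_mul, mul_comm]

/-- Density lemma: some vertex of `A` has large degree in `A`. -/
lemma exists_large_degree (s : Finset α) (r : ℕ) (hr : 1 ≤ r) (A : Finset (Finset α))
    (hA : A ⊆ s.powersetCard r) (hne : A.Nonempty) :
    ∃ Y ∈ A, (r : ℝ) * (r * A.card / (s.card.choose (r - 1)) - 1) ≤ (nbrs (JG α) A Y).card := by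
  by_contra hcon
  push Not at hcon
  have hC : 0 < s.card.choose (r - 1) := by
    obtain ⟨Y, hY⟩ := hne
    have := mem_powersetCard.mp (hA hY)
    have := card_le_card this.1
    exact Nat.choose_pos (by omega)
  have hCr : (0 : ℝ) < (s.card.choose (r - 1) : ℕ) := by exact_mod_cast hC
  have h1 := sum_shadow s r hr A hA
  have h2 := sum_shadow_sq s r hr A hA
  have h3 : ((∑ X ∈ s.powersetCard (r - 1), ((A.filter (fun Y => X ⊆ Y)).card : ℝ)) ^ 2) ≤
      (s.powersetCard (r - 1)).card *
        ∑ X ∈ s.powersetCard (r - 1), ((A.filter (fun Y => X ⊆ Y)).card : ℝ) ^ 2 :=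
    sq_sum_le_card_mul_sum_sq
  have h1' : ∑ X ∈ s.powersetCard (r - 1), ((A.filter (fun Y => X ⊆ Y)).card : ℝ) =
      r * A.card := by exact_mod_cast h1
  have h2' : ∑ X ∈ s.powersetCard (r - 1), ((A.filter (fun Y => X ⊆ Y)).card : ℝ) ^ 2 =
      r * A.card + ∑ Y ∈ A, ((nbrs (JG α) A Y).card : ℝ) := by exact_mod_cast h2
  rw [h1', h2', card_powersetCard] at h3
  have h4 : ∑ Y ∈ A, ((nbrs (JG α) A Y).card : ℝ) <
      ∑ Y ∈ A, (r : ℝ) * (r * A.card / (s.card.choose (r - 1)) - 1) :=
    sum_lt_sum_of_nonempty hne hcon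
  rw [sum_const, nsmul_eq_mul] at h4
  have hApos : (0 : ℝ) < A.card := by exact_mod_cast card_pos.mpr hne
  have h5 : (s.card.choose (r - 1) : ℝ) * (r * A.card + ∑ Y ∈ A, ((nbrs (JG α) A Y).card : ℝ)) <
      (s.card.choose (r - 1) : ℝ) * (r * A.card +
        A.card * ((r : ℝ) * (r * A.card / (s.card.choose (r - 1)) - 1))) := by
    exact mul_lt_mul_of_pos_left (by linarith) hCr
  have h6 : (s.card.choose (r - 1) : ℝ) * (r * A.card +
        A.card * ((r : ℝ) * (r * A.card / (s.card.choose (r - 1)) - 1))) =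
      (r * A.card) ^ 2 := by
    field_simp
    ring
  linarith

/-- Graham–Sloane: any family of sets of the same size `r` contained in `s` has an independent
subfamily whose size is at least a `1 / |s|` fraction. -/
lemma exists_indep_subfamily (s : Finset α) (hs : s.Nonempty) (A : Finset (Finset α))
    (hA : ∀ X ∈ A, X ⊆ s) :
    ∃ B ∈ indSets (JG α) A, A.card ≤ s.card * B.card := by
  classical
  have hspos : 0 < s.card := card_pos.mpr hs
  have : NeZero s.card := ⟨by omega⟩
  -- an injective colouring of the elements of `s`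
  let φ : α → ZMod s.card := fun x => if h : x ∈ s then ((s.equivFin ⟨x, h⟩ : ℕ) : ZMod s.card) else 0
  have hφ : ∀ x ∈ s, ∀ y ∈ s, φ x = φ y → x = y := by
    intro x hx y hy h
    simp only [φ, dif_pos hx, dif_pos hy] at h
    rw [ZMod.natCast_eq_natCast_iff'] at h
    rw [Nat.mod_eq_of_lt (s.equivFin ⟨x, hx⟩).2, Nat.mod_eq_of_lt (s.equivFin ⟨y, hy⟩).2] at h
    have := s.equivFin.injective (Fin.ext h)
    exact congrArg Subtype.val this
  let c : Finset α → ZMod s.card := fun X => ∑ x ∈ X, φ x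
  have hc : ∀ X ∈ A, ∀ Y ∈ A, (JG α).Adj X Y → c X ≠ c Y := by
    intro X hX Y hY hadj hcc
    rw [JG_adj_iff_exchange] at hadj
    obtain ⟨e, he, f, hf, rfl⟩ := hadj
    have hfe : f ∉ X.erase e := fun h => hf (mem_of_mem_erase h)
    have h1 : c (insert f (X.erase e)) = φ f + ∑ x ∈ X.erase e, φ x := sum_insert hfe
    have h2 : c X = φ e + ∑ x ∈ X.erase e, φ x := (add_sum_erase X φ he).symm
    rw [h1, h2, add_left_inj] at hcc
    have hes : e ∈ s := hA X hX he
    have hfs : f ∈ s := hA _ hY (mem_insert_self _ _)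
    have := hφ e hes f hfs hcc
    exact hf (this ▸ he)
  obtain ⟨z, -, hz⟩ := exists_max_image (univ : Finset (ZMod s.card))
    (fun z => (A.filter (fun X => c X = z)).card) ⟨0, mem_univ _⟩
  refine ⟨A.filter (fun X => c X = z), ?_, ?_⟩
  · rw [mem_indSets]
    refine ⟨filter_subset _ _, ?_⟩
    intro X hX Y hY hadj
    rw [mem_filter] at hX hY
    exact hc X hX.1 Y hY.1 hadj (hX.2.trans hY.2.symm)
  · have h1 : A.card = ∑ z' : ZMod s.card, (A.filter (fun X => c X = z')).card :=
      card_eq_sum_card_fiberwise (fun X _ => mem_univ _)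
    rw [h1]
    refine (sum_le_card_nsmul univ _ _ (fun z' _ => hz z' (mem_univ _))).trans ?_
    rw [card_univ, ZMod.card, smul_eq_mul]

end Pool.Agent.Lib.MP_ea4949_co
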