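import Mathlib

set_option autoImplicit false
set_option linter.unusedSectionVars false
set_option linter.unusedVariables false

namespace Pool.Agent.Lib.MP_ea4949_co

open Finset

variable {V : Type*} [DecidableEq V]

open Classical in
/-- The independent subsets of `A` in the graph `G`. -/
noncomputable def indSets (G : SimpleGraph V) (A : Finset V) : Finset (Finset V) :=
  A.powerset.filter (fun I => ∀ x ∈ I, ∀ y ∈ I, ¬ G.Adj x y)

lemma mem_indSets {G : SimpleGraph V} {A I : Finset V} :
    I ∈ indSets G A ↔ I ⊆ A ∧ ∀ x ∈ I, ∀ y ∈ I, ¬ G.Adj x y := by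
  classical
  unfold indSets
  rw [mem_filter, mem_powerset]

lemma indSets_mono {G : SimpleGraph V} {A B : Finset V} (h : A ⊆ B) :
    indSets G A ⊆ indSets G B := by
  intro I hI
  rw [mem_indSets] at hI ⊢
  exact ⟨hI.1.trans h, hI.2⟩

lemma empty_mem_indSets (G : SimpleGraph V) (A : Finset V) : ∅ ∈ indSets G A := by
  rw [mem_indSets]; simp

open Classical in
/-- The neighbours of `v` in `A`. -/
noncomputable def nbrs (G : SimpleGraph V) (A : Finset V) (v : V) : Finset V :=
  A.filter (fun u => G.Adj v u)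

lemma mem_nbrs {G : SimpleGraph V} {A : Finset V} {v u : V} :
    u ∈ nbrs G A v ↔ u ∈ A ∧ G.Adj v u := by
  classical
  unfold nbrs
  rw [mem_filter]

/-- The hard-core partition function. -/
noncomputable def hcZ (G : SimpleGraph V) (A : Finset V) (x : ℝ) : ℝ :=
  ∑ I ∈ indSets G A, x ^ I.card

lemma hcZ_nonneg (G : SimpleGraph V) (A : Finset V) {x : ℝ} (hx : 0 ≤ x) : 0 ≤ hcZ G A x :=
  sum_nonneg (fun _ _ => pow_nonneg hx _)

lemma hcZ_le_pow (G : SimpleGraph V) (A : Finset V) {x : ℝ} (hx : 0 ≤ x) :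
    hcZ G A x ≤ (1 + x) ^ A.card := by
  classical
  calc hcZ G A x ≤ ∑ I ∈ A.powerset, x ^ I.card := by
        refine sum_le_sum_of_subset_of_nonneg ?_ (fun _ _ _ => pow_nonneg hx _)
        exact filter_subset _ _
    _ = (1 + x) ^ A.card := by
        rw [add_comm, ← Finset.sum_pow_mul_eq_add_pow x 1 A]
        simp

/-- The recursion for the partition function. -/
lemma hcZ_rec (G : SimpleGraph V) (A : Finset V) {v : V} (hv : v ∈ A) {x : ℝ} (hx : 0 ≤ x) :
    hcZ G A x ≤ hcZ G (A.erase v) x + x * hcZ G ((A.erase v) \ nbrs G A v) x := by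
  classical
  have hsplit : indSets G A = (indSets G A).filter (fun I => v ∉ I) ∪
      (indSets G A).filter (fun I => ¬ v ∉ I) := (filter_union_filter_not_eq _ _).symm
  unfold hcZ
  rw [hsplit, sum_union (disjoint_filter_filter_not _ _ _)]
  refine add_le_add ?_ ?_
  · refine sum_le_sum_of_subset_of_nonneg ?_ (fun _ _ _ => pow_nonneg hx _)
    intro I hI
    rw [mem_filter, mem_indSets] at hI
    rw [mem_indSets]
    refine ⟨fun u hu => mem_erase.mpr ⟨?_, hI.1.1 hu⟩, hI.1.2⟩
    rintro rfl
    exact hI.2 hu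
  · rw [mul_sum]
    have hinj : Set.InjOn (fun I : Finset V => I.erase v)
        ((indSets G A).filter (fun I => ¬ v ∉ I) : Finset (Finset V)) := by
      intro I hI J hJ h
      simp only [coe_filter, Set.mem_ofPred_eq, not_not] at hI hJ
      simp only at h
      rw [← insert_erase hI.2, h, insert_erase hJ.2]
    have hcard : ∀ I ∈ (indSets G A).filter (fun I => ¬ v ∉ I),
        x ^ I.card = x * x ^ (I.erase v).card := by
      intro I hI
      rw [mem_filter, not_not] at hI
      rw [← pow_succ', card_erase_of_mem hI.2]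
      congr 1
      have := card_pos.mpr ⟨v, hI.2⟩
      omega
    rw [sum_congr rfl hcard]
    rw [← sum_image (f := fun J : Finset V => x * x ^ J.card) hinj]
    refine sum_le_sum_of_subset_of_nonneg ?_ (fun _ _ _ => mul_nonneg hx (pow_nonneg hx _))
    intro J hJ
    rw [mem_image] at hJ
    obtain ⟨I, hI, rfl⟩ := hJ
    rw [mem_filter, mem_indSets, not_not] at hI
    rw [mem_indSets]
    constructor
    · intro u hu
      rw [mem_erase] at hu
      rw [mem_sdiff, mem_erase, mem_nbrs]
      exact ⟨⟨hu.1, hI.1.1 hu.2⟩, fun h => hI.1.2 v hI.2 u hu.2 h.2⟩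
    · intro u hu w hw
      exact hI.1.2 u (mem_of_mem_erase hu) w (mem_of_mem_erase hw)

/-- Kleitman–Winston bound. -/
theorem hcZ_le (G : SimpleGraph V) (W : Finset V) {x β : ℝ} (hx : 0 ≤ x) (hβ0 : 0 ≤ β)
    (hβ1 : β ≤ 1) (R : ℕ)
    (hdeg : ∀ B ⊆ W, R < B.card → ∃ v ∈ B, β * B.card ≤ (nbrs G B v).card) :
    ∀ (a q : ℕ) (A : Finset V), A ⊆ W → A.card ≤ a → (a : ℝ) * (1 - β) ^ q ≤ R →
      hcZ G A x ≤ (1 + x) ^ R * ∑ j ∈ range (q + 1), (a.choose j : ℝ) * x ^ j := by
  intro a
  induction a using Nat.strong_induction_on with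
  | _ a ih =>
  intro q A hAW hAa hq
  have hsum_nonneg : ∀ (b p : ℕ), 0 ≤ ∑ j ∈ range p, (b.choose j : ℝ) * x ^ j :=
    fun b p => sum_nonneg (fun _ _ => mul_nonneg (Nat.cast_nonneg _) (pow_nonneg hx _))
  by_cases hAR : A.card ≤ R
  · calc hcZ G A x ≤ (1 + x) ^ A.card := hcZ_le_pow G A hx
      _ ≤ (1 + x) ^ R := pow_le_pow_right₀ (by linarith) hAR
      _ = (1 + x) ^ R * 1 := by ring
      _ ≤ (1 + x) ^ R * ∑ j ∈ range (q + 1), (a.choose j : ℝ) * x ^ j := by
        refine mul_le_mul_of_nonneg_left ?_ (by positivity)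
        rw [sum_range_succ']
        simp only [Nat.choose_zero_right, Nat.cast_one, pow_zero, mul_one]
        have : 0 ≤ ∑ k ∈ range q, (a.choose (k + 1) : ℝ) * x ^ (k + 1) :=
          sum_nonneg (fun _ _ => mul_nonneg (Nat.cast_nonneg _) (pow_nonneg hx _))
        linarith
  · push Not at hAR
    obtain ⟨v, hv, hvdeg⟩ := hdeg A hAW hAR
    have ha : R < a := lt_of_lt_of_le hAR hAa
    obtain ⟨q', rfl⟩ : ∃ q', q = q' + 1 := by
      cases q with
      | zero =>
        exfalso
        rw [pow_zero, mul_one] at hq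
        have : a ≤ R := by exact_mod_cast hq
        omega
      | succ q' => exact ⟨q', rfl⟩
    obtain ⟨a', rfl⟩ : ∃ a', a = a' + 1 := ⟨a - 1, by omega⟩
    have h1β : 0 ≤ 1 - β := by linarith
    have hpow1 : 0 ≤ (1 - β) ^ (q' + 1) := pow_nonneg h1β _
    -- first branch
    have hb1 : hcZ G (A.erase v) x ≤
        (1 + x) ^ R * ∑ j ∈ range (q' + 1 + 1), (a'.choose j : ℝ) * x ^ j := by
      refine ih a' (by omega) (q' + 1) (A.erase v) ((erase_subset _ _).trans hAW) ?_ ?_
      · rw [card_erase_of_mem hv]; omega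
      · refine le_trans ?_ hq
        refine mul_le_mul_of_nonneg_right ?_ hpow1
        push_cast; linarith
    -- second branch
    set B := (A.erase v) \ nbrs G A v with hB
    have hBcard : B.card + (nbrs G A v).card + 1 = A.card := by
      have h1 : nbrs G A v ⊆ A.erase v := by
        intro u hu
        rw [mem_nbrs] at hu
        rw [mem_erase]
        refine ⟨?_, hu.1⟩
        rintro rfl
        exact G.loopless.irrefl _ hu.2
      have h2 := card_sdiff_add_card_eq_card h1
      rw [card_erase_of_mem hv] at h2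
      have := card_pos.mpr ⟨v, hv⟩
      rw [hB]
      omega
    have hb2 : hcZ G B x ≤
        (1 + x) ^ R * ∑ j ∈ range (q' + 1), (B.card.choose j : ℝ) * x ^ j := by
      refine ih B.card (by omega) q' B (sdiff_subset.trans ((erase_subset _ _).trans hAW)) le_rfl ?_
      refine le_trans ?_ hq
      rw [pow_succ', ← mul_assoc]
      refine mul_le_mul_of_nonneg_right ?_ (pow_nonneg h1β _)
      have h3 : (B.card : ℝ) + (nbrs G A v).card + 1 = A.card := by exact_mod_cast hBcard
      have h4 : (A.card : ℝ) ≤ ((a' + 1 : ℕ) : ℝ) := by exact_mod_cast hAa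
      nlinarith
    have hb3 : ∑ j ∈ range (q' + 1), (B.card.choose j : ℝ) * x ^ j ≤
        ∑ j ∈ range (q' + 1), (a'.choose j : ℝ) * x ^ j := by
      refine sum_le_sum (fun j _ => mul_le_mul_of_nonneg_right ?_ (pow_nonneg hx _))
      exact_mod_cast Nat.choose_le_choose j (by omega)
    have hrec := hcZ_rec G A hv hx
    rw [← hB] at hrec
    have hRpos : 0 ≤ (1 + x) ^ R := by positivity
    calc hcZ G A x ≤ hcZ G (A.erase v) x + x * hcZ G B x := hrec
      _ ≤ (1 + x) ^ R * ∑ j ∈ range (q' + 1 + 1), (a'.choose j : ℝ) * x ^ j +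
          x * ((1 + x) ^ R * ∑ j ∈ range (q' + 1), (a'.choose j : ℝ) * x ^ j) := by
        refine add_le_add hb1 (mul_le_mul_of_nonneg_left ?_ hx)
        exact hb2.trans (mul_le_mul_of_nonneg_left hb3 hRpos)
      _ = (1 + x) ^ R * (∑ j ∈ range (q' + 1 + 1), (a'.choose j : ℝ) * x ^ j +
          ∑ j ∈ range (q' + 1), (a'.choose j : ℝ) * x ^ (j + 1)) := by
        rw [mul_add]
        congr 1
        rw [mul_left_comm, mul_sum]
        congr 1
        refine sum_congr rfl (fun j _ => ?_)
        rw [pow_succ]; ring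
      _ = (1 + x) ^ R * ∑ j ∈ range (q' + 1 + 1), ((a' + 1).choose j : ℝ) * x ^ j := by
        congr 1
        rw [sum_range_succ' (fun j => (a'.choose j : ℝ) * x ^ j),
          sum_range_succ' (fun j => ((a' + 1).choose j : ℝ) * x ^ j)]
        simp only [Nat.choose_zero_right, Nat.cast_one, pow_zero, mul_one]
        rw [add_right_comm, ← sum_add_distrib]
        congr 1
        refine sum_congr rfl (fun j _ => ?_)
        rw [Nat.choose_succ_succ]
        push_cast
        ring

end Pool.Agent.Lib.MP_ea4949_co
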