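import Pool.Agent.Lib.MP_ea4949_co.Num

set_option autoImplicit false
set_option linter.unusedSectionVars false
set_option linter.unusedVariables false

namespace Pool.Agent.Lib.MP_ea4949_co

open Finset
open scoped Pointwise

lemma sum_g_le {n K g : ℕ} {s L u : ℝ} (hs : s ^ 2 = n) (hL : L = Real.log n)
    (hL1 : 10000 ≤ L) (hsL : 1000000 * L ^ 5 ≤ s) (hu : 1 ≤ u) (hK : (K : ℝ) = u * (n : ℝ) ^ 2)
    (hg : (g : ℝ) ≤ u * s * L ^ 4 + 1) :
    ((∑ j ∈ range g, K.choose j : ℕ) : ℝ) ≤ Real.exp (3 * (u * s * L ^ 5)) := by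
  have hL0 : (0 : ℝ) < L := by linarith
  have hL5 : L ≤ L ^ 5 := by
    calc L = L ^ 1 := (pow_one L).symm
      _ ≤ L ^ 5 := pow_le_pow_right₀ (by linarith) (by norm_num)
  have hs1 : 1 ≤ s := by nlinarith
  have hn1 : (1 : ℝ) ≤ n := by rw [← hs]; nlinarith
  have hp2 : (1 : ℝ) ≤ (n : ℝ) ^ 2 := one_le_pow₀ hn1
  have h1 := sum_choose_le K g (x := 1) (y := (n : ℝ) ^ 2) zero_le_one hp2
  simp only [one_pow, mul_one, one_mul] at h1
  have h2 : (K : ℝ) / (n : ℝ) ^ 2 = u := by
    rw [hK, mul_div_assoc, div_self (by positivity), mul_one]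
  rw [h2] at h1
  push_cast
  have h3 : ∑ j ∈ range g, (K.choose j : ℝ) ≤ ∑ j ∈ range (g + 1), (K.choose j : ℝ) :=
    sum_le_sum_of_subset_of_nonneg (range_subset_range.mpr (by omega))
      (fun _ _ _ => Nat.cast_nonneg _)
  refine h3.trans (h1.trans ?_)
  have h4 : ((n : ℝ) ^ 2) ^ g = Real.exp (g * (2 * L)) := by
    rw [Real.exp_nat_mul]
    congr 1
    rw [hL]
    have : (2 : ℝ) * Real.log n = ((2 : ℕ) : ℝ) * Real.log n := by norm_num
    rw [this, Real.exp_nat_mul, Real.exp_log (by linarith)]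
  rw [h4, ← Real.exp_add]
  apply Real.exp_le_exp.mpr
  have h5 : (g : ℝ) * (2 * L) ≤ (u * s * L ^ 4 + 1) * (2 * L) :=
    mul_le_mul_of_nonneg_right hg (by linarith)
  have h6 : (u * s * L ^ 4 + 1) * (2 * L) = 2 * (u * s * L ^ 5) + 2 * L := by ring
  have hus : 1 ≤ u * s := by nlinarith
  have h7 : 10000 * L ≤ u * s * L ^ 5 := by
    calc 10000 * L ≤ L * L := by nlinarith
      _ = 1 * L ^ 2 := by ring
      _ ≤ (u * s) * L ^ 5 := by
        apply mul_le_mul hus (pow_le_pow_right₀ (by linarith) (by norm_num)) (by positivity)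
          (by positivity)
      _ = _ := by ring
  have h8 : 2 * u ≤ u * s * L ^ 5 := by
    have h9 : 2 ≤ s * L ^ 5 := by nlinarith
    calc 2 * u = u * 2 := by ring
      _ ≤ u * (s * L ^ 5) := mul_le_mul_of_nonneg_left h9 (by linarith)
      _ = _ := by ring
  linarith

/-- Final combination. -/
lemma final_le {n g G : ℕ} {D O I F Sg : ℝ} {s L u : ℝ} (hL1 : 10000 ≤ L)
    (hsL : 1000000 * L ^ 5 ≤ s) (hu : 1 ≤ u) (hnu : (n : ℝ) ^ 3 ≤ u)
    (hD0 : 0 ≤ D) (hI0 : 0 ≤ I) (hF0 : 0 ≤ F) (hS0 : 0 ≤ Sg)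
    (hD : D ≤ Real.exp (250 * (u * s * L ^ 3))) (hS : Sg ≤ Real.exp (3 * (u * s * L ^ 5)))
    (hO : O * 2 ^ g ≤ I + F * Sg * 2 ^ g) (hF : F * 2 ^ G ≤ 3200 * I)
    (hg : u * s * L ^ 4 ≤ g) (hG : u * s ^ 2 / 15000 ≤ G) :
    D * O * 2 ^ (n ^ 3) ≤ I := by
  have hL0 : (0 : ℝ) < L := by linarith
  have hL5 : L ≤ L ^ 5 := by
    calc L = L ^ 1 := (pow_one L).symm
      _ ≤ L ^ 5 := pow_le_pow_right₀ (by linarith) (by norm_num)
  have hs1 : 1 ≤ s := by nlinarith
  have hus : 1 ≤ u * s := by nlinarith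
  have husL3 : u ≤ u * s * L ^ 3 := by
    have h13 : (1 : ℝ) ≤ L ^ 3 := one_le_pow₀ (by linarith)
    have h14 : 1 ≤ s * L ^ 3 := by nlinarith
    calc u = u * 1 := (mul_one u).symm
      _ ≤ u * (s * L ^ 3) := mul_le_mul_of_nonneg_left h14 (by linarith)
      _ = _ := by ring
  have husL3' : 10 ≤ u * s * L ^ 3 := by
    have h13 : (10 : ℝ) ≤ L ^ 3 := by
      calc (10 : ℝ) ≤ L := by linarith
        _ = L ^ 1 := (pow_one L).symm
        _ ≤ L ^ 3 := pow_le_pow_right₀ (by linarith) (by norm_num)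
    nlinarith
  have hlog2a : 0.69 < Real.log 2 := by
    have := Real.log_two_gt_d9; linarith
  have hlog2b : Real.log 2 < 1 := by
    have := Real.log_two_lt_d9; linarith
  -- power of two as an exponential
  have hexp2 : ∀ m : ℕ, (2 : ℝ) ^ m = Real.exp (m * Real.log 2) := by
    intro m
    rw [Real.exp_nat_mul, Real.exp_log (by norm_num)]
  have hn3 : (2 : ℝ) ^ (n ^ 3) ≤ Real.exp (u * s * L ^ 3) := by
    rw [hexp2]
    apply Real.exp_le_exp.mpr
    push_cast
    have : (0 : ℝ) ≤ (n : ℝ) ^ 3 := by positivity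
    nlinarith
  set E := D * 2 ^ (n ^ 3) with hE
  have hE0 : 0 ≤ E := by positivity
  have hE1 : E ≤ Real.exp (251 * (u * s * L ^ 3)) := by
    have : Real.exp (251 * (u * s * L ^ 3)) =
        Real.exp (250 * (u * s * L ^ 3)) * Real.exp (u * s * L ^ 3) := by
      rw [← Real.exp_add]; congr 1; ring
    rw [this, hE]
    exact mul_le_mul hD hn3 (by positivity) (Real.exp_pos _).le
  -- first inequality
  have f1 : E * 2 ≤ 2 ^ g := by
    rw [hexp2 g]
    have h2 : (2 : ℝ) ≤ Real.exp (u * s * L ^ 3) := by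
      have := Real.add_one_le_exp (u * s * L ^ 3); linarith
    calc E * 2 ≤ Real.exp (251 * (u * s * L ^ 3)) * Real.exp (u * s * L ^ 3) :=
          mul_le_mul hE1 h2 (by norm_num) (Real.exp_pos _).le
      _ = Real.exp (252 * (u * s * L ^ 3)) := by rw [← Real.exp_add]; congr 1; ring
      _ ≤ Real.exp (g * Real.log 2) := by
        apply Real.exp_le_exp.mpr
        have h3 : 10000 * (u * s * L ^ 3) ≤ u * s * L ^ 4 := by
          have : u * s * L ^ 4 = L * (u * s * L ^ 3) := by ring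
          rw [this]
          apply mul_le_mul_of_nonneg_right hL1
          linarith
        have h4 : (0 : ℝ) ≤ g := Nat.cast_nonneg _
        nlinarith
  -- second inequality
  have f2 : E * Sg * 6400 ≤ 2 ^ G := by
    rw [hexp2 G]
    have h2 : (6400 : ℝ) ≤ Real.exp (u * s * L ^ 5) := by
      have h5 := Real.add_one_le_exp (u * s * L ^ 5)
      have h6 : (6400 : ℝ) ≤ u * s * L ^ 5 := by
        have h7 : (10000 : ℝ) ≤ L ^ 5 := by linarith
        nlinarith
      linarith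
    have h35 : u * s * L ^ 3 * 10000 ≤ u * s * L ^ 5 := by
      have : u * s * L ^ 5 = u * s * L ^ 3 * L ^ 2 := by ring
      rw [this]
      apply mul_le_mul_of_nonneg_left _ (by linarith)
      nlinarith
    calc E * Sg * 6400 ≤ Real.exp (251 * (u * s * L ^ 3)) * Real.exp (3 * (u * s * L ^ 5)) *
          Real.exp (u * s * L ^ 5) := by
          apply mul_le_mul (mul_le_mul hE1 hS hS0 (Real.exp_pos _).le) h2 (by norm_num)
          positivity
      _ = Real.exp (251 * (u * s * L ^ 3) + 4 * (u * s * L ^ 5)) := by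
          rw [← Real.exp_add, ← Real.exp_add]; congr 1; ring
      _ ≤ Real.exp (G * Real.log 2) := by
        apply Real.exp_le_exp.mpr
        have h3 : 1000000 * (u * s * L ^ 5) ≤ u * s ^ 2 := by
          calc 1000000 * (u * s * L ^ 5) = u * s * (1000000 * L ^ 5) := by ring
            _ ≤ u * s * s := mul_le_mul_of_nonneg_left hsL (by linarith)
            _ = u * s ^ 2 := by ring
        have h4 : (0 : ℝ) ≤ G := Nat.cast_nonneg _
        have h5 : 0 ≤ u * s * L ^ 5 := by linarith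
        nlinarith
  -- conclusion
  have hg0 : (0 : ℝ) < 2 ^ g := by positivity
  have hG0 : (0 : ℝ) < 2 ^ G := by positivity
  have f3 : E * F * Sg * 2 ≤ I := by
    have h1 : (E * F * Sg * 2) * 2 ^ G ≤ I * 2 ^ G := by
      calc (E * F * Sg * 2) * 2 ^ G = (E * Sg * 2) * (F * 2 ^ G) := by ring
        _ ≤ (E * Sg * 2) * (3200 * I) := by
          apply mul_le_mul_of_nonneg_left hF (by positivity)
        _ = (E * Sg * 6400) * I := by ring
        _ ≤ 2 ^ G * I := mul_le_mul_of_nonneg_right f2 hI0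
        _ = I * 2 ^ G := by ring
    exact le_of_mul_le_mul_right h1 hG0
  have f4 : (E * O) * 2 ^ g ≤ I * 2 ^ g := by
    calc (E * O) * 2 ^ g = E * (O * 2 ^ g) := by ring
      _ ≤ E * (I + F * Sg * 2 ^ g) := mul_le_mul_of_nonneg_left hO hE0
      _ = (E * I) + (E * F * Sg) * 2 ^ g := by ring
      _ ≤ (2 ^ g / 2) * I + (I / 2) * 2 ^ g := by
        apply add_le_add
        · apply mul_le_mul_of_nonneg_right _ hI0
          linarith
        · apply mul_le_mul_of_nonneg_right _ hg0.le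
          linarith
      _ = I * 2 ^ g := by ring
  calc D * O * 2 ^ (n ^ 3) = E * O := by rw [hE]; ring
    _ ≤ I := le_of_mul_le_mul_right f4 hg0

end Pool.Agent.Lib.MP_ea4949_co
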