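import Pool.Agent.Lib.MP_ea4949_co.Count

set_option autoImplicit false
set_option linter.unusedSectionVars false
set_option linter.unusedVariables false

namespace Pool.Agent.Lib.MP_ea4949_co

open Finset
open scoped Pointwise

variable {α : Type*} [DecidableEq α] [Fintype α]

/-- The family of bases of a matroid. -/
noncomputable def fam (M : Matroid α) : Finset (Finset α) :=
  @Finset.filter _ (fun X => M.IsBase (X : Set α)) (Classical.decPred _) univ

lemma mem_fam {M : Matroid α} {X : Finset α} : X ∈ fam M ↔ M.IsBase (X : Set α) := by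
  unfold fam
  rw [mem_cfilter]; simp

lemma fam_inj {M N : Matroid α} (hM : M.E = Set.univ) (hN : N.E = Set.univ)
    (h : fam M = fam N) : M = N := by
  refine Matroid.ext_isBase (hM.trans hN.symm) (fun B _ => ?_)
  have h1 : ((B.toFinite.toFinset : Finset α) : Set α) = B := Set.Finite.coe_toFinset _
  rw [← h1, ← mem_fam, ← mem_fam, h]

/-- The rank. -/
noncomputable def rk (M : Matroid α) : ℕ := (M.exists_isBase.choose).ncard

lemma rk_le (M : Matroid α) : rk M ≤ Fintype.card α := by
  unfold rk
  have h := Set.ncard_le_ncard (Set.subset_univ M.exists_isBase.choose)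
  rwa [Set.ncard_univ, Nat.card_eq_fintype_card] at h

lemma fam_BF {M : Matroid α} (hM : M.E = Set.univ) : BF (rk M) (fam M) := by
  constructor
  · intro X hX
    rw [mem_fam] at hX
    have h := hX.ncard_eq_ncard_of_isBase M.exists_isBase.choose_spec
    rw [Set.ncard_coe_finset] at h
    exact h
  · intro X hX Y hY x hx
    rw [mem_fam] at hX hY
    rw [mem_sdiff] at hx
    obtain ⟨y, hy, hB⟩ := hX.exchange hY (e := x) ⟨by exact_mod_cast hx.1, by exact_mod_cast hx.2⟩
    refine ⟨y, mem_sdiff.mpr ⟨by exact_mod_cast hy.1, by exact_mod_cast hy.2⟩, ?_⟩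
    rw [mem_fam, coe_insert, coe_erase]
    exact hB
  · intro X hX Y hY y hy
    rw [mem_fam] at hX hY
    rw [mem_sdiff] at hy
    have hX' : M✶.IsBase (M.E \ (X : Set α)) :=
      (Matroid.base_iff_dual_isBase_compl (by rw [hM]; exact Set.subset_univ _)).mp hX
    have hY' : M✶.IsBase (M.E \ (Y : Set α)) :=
      (Matroid.base_iff_dual_isBase_compl (by rw [hM]; exact Set.subset_univ _)).mp hY
    obtain ⟨x, hx, hB⟩ := hX'.exchange hY' (e := y)
      ⟨⟨by rw [hM]; trivial, fun h => hy.2 (by exact_mod_cast h)⟩,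
        fun h => h.2 (by exact_mod_cast hy.1)⟩
    have hxX : x ∈ (X : Set α) := by
      by_contra h
      exact hx.2 ⟨by rw [hM]; trivial, h⟩
    have hxY : x ∉ (Y : Set α) := hx.1.2
    refine ⟨x, mem_sdiff.mpr ⟨by exact_mod_cast hxX, by exact_mod_cast hxY⟩, ?_⟩
    rw [mem_fam, coe_insert, coe_erase]
    rw [Matroid.dual_isBase_iff (by rw [hM]; exact Set.subset_univ _)] at hB
    convert hB using 1
    rw [hM]
    ext z
    simp only [Set.mem_insert_iff, Set.mem_sdiff, Set.mem_univ, true_and, Set.mem_singleton_iff]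
    have hyX : y ∉ (X : Set α) := fun h => hy.2 (by exact_mod_cast h)
    constructor
    · rintro (rfl | ⟨h1, h2⟩) h3
      · rcases h3 with h3 | ⟨_, h3⟩
        · exact hyX (h3 ▸ hxX)
        · exact h3 rfl
      · rcases h3 with h3 | ⟨h3, _⟩
        · exact h2 h3
        · exact h3 h1
    · intro h
      push Not at h
      by_cases hz : z ∈ (X : Set α)
      · right; exact ⟨hz, h.1⟩
      · left; exact h.2 hz

/-- The matroid subtype is finite. -/
lemma finite_matroids : Finite {M : Matroid α // M.E = Set.univ} := by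
  refine Finite.of_injective (fun M : {M : Matroid α // M.E = Set.univ} => fam M.1) ?_
  intro M N h
  exact Subtype.ext (fam_inj M.2 N.2 h)

/-- Sparse paving matroids. -/
noncomputable def sp {r : ℕ} (hr1 : 1 ≤ r) (hr2 : r + 1 ≤ Fintype.card α) (Q : Finset (Finset α))
    (hQ : Q ∈ indSets (JG α) ((univ : Finset α).powersetCard r)) :
    {M : Matroid α // M.E = Set.univ} :=
  ⟨Matroid.ofIsBaseOfFinite (E := Set.univ) Set.finite_univ
    (fun B => ∃ X : Finset α, (X : Set α) = B ∧ X.card = r ∧ X ∉ Q)
    (by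
      rw [mem_indSets] at hQ
      obtain ⟨X, hX, hXr⟩ := exists_subset_card_eq (s := (univ : Finset α)) (n := r)
        (by rw [card_univ]; omega)
      by_cases hXQ : X ∈ Q
      · obtain ⟨e, he⟩ : X.Nonempty := card_pos.mp (by omega)
        obtain ⟨f, hf⟩ : (univ \ X).Nonempty := by
          rw [← card_pos, card_sdiff_of_subset (subset_univ _), card_univ]; omega
        rw [mem_sdiff] at hf
        have hadj : (JG α).Adj X (insert f (X.erase e)) := by
          rw [JG_adj_iff_exchange]; exact ⟨e, he, f, hf.2, rfl⟩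
        refine ⟨((insert f (X.erase e) : Finset α) : Set α), _, rfl, ?_, ?_⟩
        · rw [← JG_adj_card hadj, hXr]
        · intro h
          exact hQ.2 X hXQ _ h hadj
      · exact ⟨X, X, rfl, hXr, hXQ⟩)
    (by
      rw [mem_indSets] at hQ
      rintro _ _ ⟨X, rfl, hXr, hXQ⟩ ⟨Y, rfl, hYr, hYQ⟩ a ha
      have haX : a ∈ X := by exact_mod_cast ha.1
      have haY : a ∉ Y := by exact_mod_cast ha.2
      have hc1 := card_sdiff_add_card_inter X Y
      have hc2 := card_sdiff_add_card_inter Y X
      rw [inter_comm Y X] at hc2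
      have hXY : 1 ≤ (X \ Y).card := card_pos.mpr ⟨a, mem_sdiff.mpr ⟨haX, haY⟩⟩
      by_cases h1 : (Y \ X).card = 1
      · have hadj : (JG α).Adj X Y := by rw [JG_adj]; omega
        rw [JG_adj_iff_exchange] at hadj
        obtain ⟨e, he, f, hf, rfl⟩ := hadj
        have hae : a = e := by
          by_contra hne
          exact haY (mem_insert_of_mem (mem_erase.mpr ⟨hne, haX⟩))
        subst hae
        refine ⟨f, ⟨by exact_mod_cast mem_insert_self _ _, by exact_mod_cast hf⟩,
          insert f (X.erase a), ?_, hYr, hYQ⟩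
        rw [coe_insert, coe_erase]
      · obtain ⟨b, hb, c, hc, hbc⟩ := one_lt_card.mp (show 1 < (Y \ X).card by omega)
        rw [mem_sdiff] at hb hc
        have hab : (JG α).Adj X (insert b (X.erase a)) := by
          rw [JG_adj_iff_exchange]; exact ⟨a, haX, b, hb.2, rfl⟩
        have hac : (JG α).Adj X (insert c (X.erase a)) := by
          rw [JG_adj_iff_exchange]; exact ⟨a, haX, c, hc.2, rfl⟩
        by_cases hQb : insert b (X.erase a) ∈ Q
        · refine ⟨c, ⟨by exact_mod_cast hc.1, by exact_mod_cast hc.2⟩,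
            insert c (X.erase a), ?_, ?_, ?_⟩
          · rw [coe_insert, coe_erase]
          · rw [← JG_adj_card hac, hXr]
          · intro hQc
            refine hQ.2 _ hQb _ hQc ?_
            rw [JG_adj_iff_exchange]
            refine ⟨b, mem_insert_self _ _, c, ?_, ?_⟩
            · rw [mem_insert]
              rintro (h | h)
              · exact hbc h.symm
              · exact hc.2 (mem_of_mem_erase h)
            · rw [erase_insert (fun h => hb.2 (mem_of_mem_erase h))]
        · refine ⟨b, ⟨by exact_mod_cast hb.1, by exact_mod_cast hb.2⟩,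
            insert b (X.erase a), ?_, ?_, hQb⟩
          · rw [coe_insert, coe_erase]
          · rw [← JG_adj_card hab, hXr])
    (fun _ _ => Set.subset_univ _), rfl⟩

lemma sp_inj {r : ℕ} (hr1 : 1 ≤ r) (hr2 : r + 1 ≤ Fintype.card α) {Q Q' : Finset (Finset α)}
    (hQ : Q ∈ indSets (JG α) ((univ : Finset α).powersetCard r))
    (hQ' : Q' ∈ indSets (JG α) ((univ : Finset α).powersetCard r))
    (h : sp hr1 hr2 Q hQ = sp hr1 hr2 Q' hQ') : Q = Q' := by
  have key : ∀ {Q Q' : Finset (Finset α)}
      (hQ : Q ∈ indSets (JG α) ((univ : Finset α).powersetCard r))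
      (hQ' : Q' ∈ indSets (JG α) ((univ : Finset α).powersetCard r)),
      sp hr1 hr2 Q hQ = sp hr1 hr2 Q' hQ' → Q ⊆ Q' := by
    intro Q Q' hQ hQ' h X hX
    by_contra hX'
    have hXr : X.card = r := by
      rw [mem_indSets] at hQ
      exact (mem_powersetCard.mp (hQ.1 hX)).2
    have h1 : (sp hr1 hr2 Q' hQ').1.IsBase (X : Set α) := ⟨X, rfl, hXr, hX'⟩
    rw [← h] at h1
    obtain ⟨Y, hY, _, hYQ⟩ := h1
    have : Y = X := by exact_mod_cast hY
    exact hYQ (this ▸ hX)
  exact (key hQ hQ' h).antisymm (key hQ' hQ h.symm)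

theorem card_indSets_le_matroids {r : ℕ} (hr1 : 1 ≤ r) (hr2 : r + 1 ≤ Fintype.card α) :
    (indSets (JG α) ((univ : Finset α).powersetCard r)).card ≤
      Nat.card {M : Matroid α // M.E = Set.univ} := by
  have hfin := finite_matroids (α := α)
  have h1 : (indSets (JG α) ((univ : Finset α).powersetCard r)).card =
      Nat.card {Q // Q ∈ indSets (JG α) ((univ : Finset α).powersetCard r)} := by
    rw [Nat.card_eq_fintype_card, Fintype.card_coe]
  rw [h1]
  refine Nat.card_le_card_of_injective (fun Q => sp hr1 hr2 Q.1 Q.2) ?_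
  intro Q Q' h
  exact Subtype.ext (sp_inj hr1 hr2 Q.2 Q'.2 h)

/-- The matroids with a given automorphism are counted by the invariant families. -/
theorem card_aut_le (σ : Equiv.Perm α) :
    Nat.card {M : {M : Matroid α // M.E = Set.univ} //
      ∀ B : Set α, M.1.IsBase B ↔ M.1.IsBase (σ '' B)} ≤
      ∑ r ∈ range (Fintype.card α + 1), (invBF σ r).card := by
  classical
  have h1 : ((range (Fintype.card α + 1)).biUnion (fun r => invBF σ r)).card ≤
      ∑ r ∈ range (Fintype.card α + 1), (invBF σ r).card := card_biUnion_le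
  refine le_trans ?_ h1
  have h2 : ((range (Fintype.card α + 1)).biUnion (fun r => invBF σ r)).card =
      Nat.card {B // B ∈ (range (Fintype.card α + 1)).biUnion (fun r => invBF σ r)} := by
    rw [Nat.card_eq_fintype_card, Fintype.card_coe]
  rw [h2]
  refine Nat.card_le_card_of_injective (fun M => ⟨fam M.1.1, ?_⟩) ?_
  · rw [mem_biUnion]
    refine ⟨rk M.1.1, mem_range.mpr (by have := rk_le M.1.1; omega), ?_⟩
    rw [mem_invBF]
    refine ⟨fam_BF M.1.2, fun X => ?_⟩
    rw [mem_fam, mem_fam, coe_smul_finset]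
    exact (M.2 (X : Set α)).symm
  · intro M N h
    simp only [Subtype.mk.injEq] at h
    exact Subtype.ext (Subtype.ext (fam_inj M.1.2 N.1.2 h))

end Pool.Agent.Lib.MP_ea4949_co
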