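import Mathlib

set_option autoImplicit false
set_option linter.unusedSectionVars false
set_option linter.unusedVariables false

namespace Pool.Agent.Lib.MP_ea4949_co

open Finset

lemma tail_le {n ρ w : ℕ} (hn : 1 ≤ n) (h : 2 * ρ + 2 * w ≤ n) :
    ((∑ k ∈ range (ρ + 1), n.choose k : ℕ) : ℝ) ≤ 2 ^ n * Real.exp (-(2 * (w : ℝ) ^ 2 / n)) := by
  have hn0 : (0 : ℝ) < n := by exact_mod_cast hn
  set l : ℝ := 2 * w / n with hl
  have hl0 : 0 ≤ l := by positivity
  have h1 : ∀ k ∈ range (ρ + 1), (n.choose k : ℝ) ≤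
      Real.exp (-(2 * l * w)) * ((n.choose k : ℝ) * (Real.exp (-l) ^ k * Real.exp l ^ (n - k))) := by
    intro k hk
    rw [mem_range] at hk
    have hkn : k ≤ n := by omega
    have h2 : Real.exp (-l) ^ k * Real.exp l ^ (n - k) = Real.exp (l * (n - 2 * k)) := by
      rw [← Real.exp_nat_mul, ← Real.exp_nat_mul, ← Real.exp_add]
      congr 1
      push_cast [Nat.cast_sub hkn]
      ring
    rw [h2]
    have h3 : Real.exp (-(2 * l * w)) * ((n.choose k : ℝ) * Real.exp (l * (n - 2 * k))) =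
        (n.choose k : ℝ) * Real.exp (l * (n - 2 * k - 2 * w)) := by
      rw [mul_left_comm, ← Real.exp_add]
      congr 2
      ring
    rw [h3]
    have h4 : (1 : ℝ) ≤ Real.exp (l * (n - 2 * k - 2 * w)) := by
      rw [← Real.exp_zero]
      apply Real.exp_le_exp.mpr
      apply mul_nonneg hl0
      have : ((2 * k + 2 * w : ℕ) : ℝ) ≤ n := by exact_mod_cast (by omega : 2 * k + 2 * w ≤ n)
      push_cast at this
      linarith
    have h5 : (0 : ℝ) ≤ n.choose k := Nat.cast_nonneg _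
    nlinarith
  push_cast
  calc ∑ k ∈ range (ρ + 1), (n.choose k : ℝ) ≤ ∑ k ∈ range (ρ + 1), Real.exp (-(2 * l * w)) *
        ((n.choose k : ℝ) * (Real.exp (-l) ^ k * Real.exp l ^ (n - k))) := sum_le_sum h1
    _ ≤ ∑ k ∈ range (n + 1), Real.exp (-(2 * l * w)) *
        ((n.choose k : ℝ) * (Real.exp (-l) ^ k * Real.exp l ^ (n - k))) := by
        refine sum_le_sum_of_subset_of_nonneg ?_ (fun _ _ _ => by positivity)
        intro k hk
        rw [mem_range] at hk ⊢
        omega
    _ = Real.exp (-(2 * l * w)) * (Real.exp (-l) + Real.exp l) ^ n := by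
        rw [← mul_sum, add_pow]
        congr 1
        refine sum_congr rfl (fun k _ => ?_)
        ring
    _ = Real.exp (-(2 * l * w)) * (2 ^ n * Real.cosh l ^ n) := by
        rw [← mul_pow, Real.cosh_eq]
        congr 2
        ring
    _ ≤ Real.exp (-(2 * l * w)) * (2 ^ n * Real.exp (l ^ 2 / 2) ^ n) := by
        have : Real.cosh l ≤ Real.exp (l ^ 2 / 2) := Real.cosh_le_exp_half_sq l
        have h6 : 0 ≤ Real.cosh l := (Real.cosh_pos l).le
        gcongr
    _ = 2 ^ n * Real.exp (-(2 * (w : ℝ) ^ 2 / n)) := by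
        rw [← Real.exp_nat_mul, mul_left_comm, ← Real.exp_add]
        congr 2
        rw [hl]
        have : (n : ℝ) ≠ 0 := hn0.ne'
        generalize (n : ℝ) = x at this
        field_simp
        ring

lemma eventually_par : ∃ n₀ : ℕ, ∀ n : ℕ, n₀ ≤ n →
    10000 ≤ Real.log n ∧ 1000000 * (Real.log n) ^ 5 ≤ Real.sqrt n := by
  have h1 : Filter.Tendsto (fun x : ℝ => (Real.log x) ^ 5 / x) Filter.atTop (nhds 0) := by
    have := Real.isLittleO_pow_log_id_atTop (n := 5)
    exact this.tendsto_div_nhds_zero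
  -- apply it to the square root
  have h2 : Filter.Tendsto (fun n : ℕ => Real.sqrt n) Filter.atTop Filter.atTop :=
    Real.tendsto_sqrt_atTop.comp tendsto_natCast_atTop_atTop
  have h3 := h1.comp h2
  have h4 : ∀ᶠ n : ℕ in Filter.atTop,
      (Real.log (Real.sqrt n)) ^ 5 / Real.sqrt n ≤ 1 / 32000000 :=
    h3.eventually_le_const (by norm_num)
  have h5 : Filter.Tendsto (fun n : ℕ => Real.log n) Filter.atTop Filter.atTop :=
    Real.tendsto_log_atTop.comp tendsto_natCast_atTop_atTop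
  have h6 : ∀ᶠ n : ℕ in Filter.atTop, 10000 ≤ Real.log n :=
    h5.eventually_ge_atTop 10000
  have h7 := (h4.and h6).and (Filter.eventually_ge_atTop 1)
  obtain ⟨n₀, hn₀⟩ := Filter.eventually_atTop.mp h7
  refine ⟨n₀, fun n hn => ?_⟩
  obtain ⟨⟨h8, h9⟩, h10⟩ := hn₀ n hn
  refine ⟨h9, ?_⟩
  have hn0 : (0 : ℝ) < n := by exact_mod_cast h10
  have hs : 0 < Real.sqrt n := Real.sqrt_pos.mpr hn0
  rw [div_le_iff₀ hs, Real.log_sqrt hn0.le] at h8
  have : (Real.log n / 2) ^ 5 = (Real.log n) ^ 5 / 32 := by ring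
  rw [this] at h8
  linarith

/-- The middle binomial coefficient is large. -/
lemma two_pow_le (n : ℕ) : 2 ^ n ≤ (n + 1) * n.choose (n / 2) := by
  rw [← Nat.sum_range_choose]
  refine (sum_le_card_nsmul _ _ _ (fun k _ => Nat.choose_le_middle k n)).trans ?_
  rw [card_range, smul_eq_mul]

end Pool.Agent.Lib.MP_ea4949_co
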