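import Pool.Agent.Lib.MP_ea4949_co.CovNum
import Pool.Agent.Lib.MP_ea4949_co.Extend
import Pool.Agent.Lib.MP_ea4949_co.Mat
import Pool.Agent.Lib.MP_ea4949_co.Tail

set_option autoImplicit false
set_option linter.unusedSectionVars false
set_option linter.unusedVariables false

namespace Pool.Agent.Lib.MP_ea4949_co

open Finset
open scoped Pointwise

/-- Density lemma, combined form. -/
lemma hdeg_of {n r ρ : ℕ} (hn : 1000 ≤ n) (hr1 : (0.49 : ℝ) * n ≤ r) (hr2 : (r : ℝ) ≤ 0.51 * n)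
    (hρ : (0.49 : ℝ) * n ≤ ρ) (A : Finset (Finset (Fin n)))
    (hA : A ⊆ (univ : Finset (Fin n)).powersetCard r)
    (hX : ∃ X ∈ A, ρ ≤ (nbrs (JG (Fin n)) A X).card) :
    ∃ X ∈ A, (n : ℝ) ^ 2 / (20 * n.choose r) * A.card ≤ (nbrs (JG (Fin n)) A X).card := by
  obtain ⟨X, hXA, hXd⟩ := hX
  have hnR : (1000 : ℝ) ≤ n := by exact_mod_cast hn
  have hr0 : 1 ≤ r := by
    have : (0 : ℝ) < r := by linarith
    exact_mod_cast this
  have hrn : r ≤ n := by
    have : (r : ℝ) ≤ n := by linarith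
    exact_mod_cast this
  obtain ⟨Y, hYA, hYd⟩ := exists_large_degree univ r hr0 A hA ⟨X, hXA⟩
  rw [card_univ, Fintype.card_fin] at hYd
  have hI : n.choose r * r = n.choose (r - 1) * (n - r + 1) := by
    have := Nat.choose_succ_right_eq n (r - 1)
    rw [Nat.sub_add_cancel hr0] at this
    rw [this]
    congr 1
    omega
  have hIR : (n.choose r : ℝ) * r = n.choose (r - 1) * (n - r + 1) := by
    have : ((n.choose r * r : ℕ) : ℝ) = ((n.choose (r - 1) * (n - r + 1) : ℕ) : ℝ) := by rw [hI]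
    push_cast [Nat.cast_sub hrn] at this
    exact this
  have hK0 : (0 : ℝ) < n.choose r := by exact_mod_cast Nat.choose_pos hrn
  have hC0 : (0 : ℝ) < n.choose (r - 1) := by exact_mod_cast Nat.choose_pos (by omega)
  generalize (n.choose r : ℝ) = K at *
  generalize (n.choose (r - 1) : ℝ) = C at *
  have hrR : (0 : ℝ) < r := by linarith
  -- the larger of the two degrees
  obtain ⟨Z, hZA, hZX, hZY⟩ : ∃ Z ∈ A, (nbrs (JG (Fin n)) A X).card ≤ (nbrs (JG (Fin n)) A Z).card ∧
      (nbrs (JG (Fin n)) A Y).card ≤ (nbrs (JG (Fin n)) A Z).card := by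
    rcases le_total (nbrs (JG (Fin n)) A X).card (nbrs (JG (Fin n)) A Y).card with h | h
    · exact ⟨Y, hYA, h, le_rfl⟩
    · exact ⟨X, hXA, le_rfl, h⟩
  refine ⟨Z, hZA, ?_⟩
  have h1 : (ρ : ℝ) ≤ (nbrs (JG (Fin n)) A Z).card := by exact_mod_cast hXd.trans hZX
  have h2 : (r : ℝ) * (r * A.card / C - 1) ≤ (nbrs (JG (Fin n)) A Z).card :=
    hYd.trans (by exact_mod_cast hZY)
  generalize ((nbrs (JG (Fin n)) A Z).card : ℝ) = d at *
  have ha0 : (0 : ℝ) ≤ A.card := Nat.cast_nonneg _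
  generalize (A.card : ℝ) = a at *
  generalize (n : ℝ) = x at *
  generalize (r : ℝ) = y at *
  generalize (ρ : ℝ) = z at *
  have h3 : y * (y * a / C) = y * (x - y + 1) * a / K := by
    rw [mul_div_assoc', div_eq_div_iff hC0.ne' hK0.ne']
    calc y * (y * a) * K = (K * y) * (y * a) := by ring
      _ = (C * (x - y + 1)) * (y * a) := by rw [hIR]
      _ = _ := by ring
  have h4 : 0.24 * x ^ 2 * a / K ≤ d + y := by
    have h5 : 0.24 * x ^ 2 * a / K ≤ y * (x - y + 1) * a / K := by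
      apply div_le_div_of_nonneg_right _ hK0.le
      apply mul_le_mul_of_nonneg_right _ ha0
      nlinarith
    have h6 : y * (y * a / C - 1) = y * (y * a / C) - y := by ring
    rw [h6, h3] at h2
    linarith
  have h7 : x ^ 2 / (20 * K) * a = (0.24 * x ^ 2 * a / K) / 4.8 := by
    rw [div_mul_eq_mul_div, div_div]
    rw [div_eq_div_iff (by positivity) (by positivity)]
    ring
  rw [h7]
  generalize 0.24 * x ^ 2 * a / K = G at h4
  rw [div_le_iff₀ (by norm_num)]
  linarith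

/-- Bound for the data. -/
lemma data_le {n T M q t : ℕ} {s L u : ℝ} (hs : s ^ 2 = n) (hL : L = Real.log n)
    (hL1 : 10000 ≤ L) (hsL : 1000000 * L ^ 5 ≤ s) (hu : 1 ≤ u) (hT : (T : ℝ) ≤ u)
    (hM : (M : ℝ) ≤ u * (n : ℝ) ^ 2 * (2 * ((n : ℝ) + 1) ^ (2 * t))) (ht : (t : ℝ) ≤ 2 * s * L + 3)
    (hq : (q : ℝ) ≤ 42 * L * u) :
    ((2 ^ (2 * T) * ∑ j ∈ range (q + 1), M.choose j : ℕ) : ℝ) ≤ Real.exp (250 * (u * s * L ^ 3)) := by
  have hL0 : (0 : ℝ) < L := by linarith
  have hL5 : L ≤ L ^ 5 := by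
    calc L = L ^ 1 := (pow_one L).symm
      _ ≤ L ^ 5 := pow_le_pow_right₀ (by linarith) (by norm_num)
  have hs1 : 1 ≤ s := by nlinarith
  have hn1 : (1 : ℝ) ≤ n := by rw [← hs]; nlinarith
  set y : ℝ := 2 * ((n : ℝ) + 1) ^ (2 * t) * (n : ℝ) ^ 2 with hy
  have hp1 : (1 : ℝ) ≤ ((n : ℝ) + 1) ^ (2 * t) := one_le_pow₀ (by linarith)
  have hp2 : (1 : ℝ) ≤ (n : ℝ) ^ 2 := one_le_pow₀ hn1
  have hy1 : 1 ≤ y := by
    rw [hy]
    nlinarith
  have hy0 : 0 < y := by linarith
  have h1 := sum_choose_le M q (x := 1) (y := y) zero_le_one hy1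
  simp only [one_pow, mul_one, one_mul] at h1
  have h2 : (M : ℝ) / y ≤ u := by
    rw [div_le_iff₀ hy0, hy]
    calc (M : ℝ) ≤ _ := hM
      _ = _ := by ring
  have hlog1 : Real.log ((n : ℝ) + 1) ≤ L + 1 := by
    have h3 : Real.log ((n : ℝ) + 1) ≤ Real.log (n * Real.exp 1) := by
      apply Real.log_le_log (by linarith)
      have : (2 : ℝ) ≤ Real.exp 1 := by
        have := Real.add_one_le_exp (1 : ℝ); linarith
      nlinarith
    rw [Real.log_mul (by linarith) (Real.exp_pos _).ne', Real.log_exp, ← hL] at h3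
    exact h3
  have hlogy : Real.log y ≤ 5 * s * L ^ 2 := by
    rw [hy, Real.log_mul (by positivity) (by positivity), Real.log_mul (by norm_num) (by positivity),
      Real.log_pow, Real.log_pow, ← hL]
    have h4 : Real.log 2 ≤ 1 := by
      have := Real.log_two_lt_d9; linarith
    have h5 : ((2 * t : ℕ) : ℝ) * Real.log ((n : ℝ) + 1) ≤ (2 * (2 * s * L + 3)) * (L + 1) := by
      push_cast
      apply mul_le_mul _ hlog1 (Real.log_nonneg (by linarith)) (by positivity)
      linarith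
    push_cast at h5 ⊢
    have h6 : s * L * 10000 ≤ s * L * L := mul_le_mul_of_nonneg_left hL1 (by positivity)
    have h7 : 1 * L ≤ s * L := mul_le_mul_of_nonneg_right hs1 hL0.le
    nlinarith
  have hlogy0 : 0 ≤ Real.log y := Real.log_nonneg hy1
  have h8 : y ^ q = Real.exp (q * Real.log y) := by
    rw [Real.exp_nat_mul, Real.exp_log hy0]
  have h9 : (2 : ℝ) ^ (2 * T) ≤ Real.exp (2 * T) := by
    have : Real.exp (2 * (T : ℝ)) = Real.exp 1 ^ (2 * T) := by
      rw [← Real.exp_nat_mul]; congr 1; push_cast; ring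
    rw [this]
    apply pow_le_pow_left₀ (by norm_num)
    have := Real.add_one_le_exp (1 : ℝ); linarith
  push_cast
  calc (2 : ℝ) ^ (2 * T) * ∑ j ∈ range (q + 1), (M.choose j : ℝ) ≤
      Real.exp (2 * T) * (y ^ q * Real.exp ((M : ℝ) / y)) := by
        apply mul_le_mul h9 h1 (sum_nonneg (fun _ _ => Nat.cast_nonneg _)) (Real.exp_pos _).le
    _ = Real.exp (2 * T + (q * Real.log y + (M : ℝ) / y)) := by
        rw [h8, Real.exp_add, Real.exp_add]
    _ ≤ Real.exp (250 * (u * s * L ^ 3)) := by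
        apply Real.exp_le_exp.mpr
        have h10 : (q : ℝ) * Real.log y ≤ (42 * L * u) * (5 * s * L ^ 2) :=
          mul_le_mul hq hlogy hlogy0 (by positivity)
        have h11 : (42 * L * u) * (5 * s * L ^ 2) = 210 * (u * s * L ^ 3) := by ring
        have h12 : u ≤ u * s * L ^ 3 := by
          have h13 : (1 : ℝ) ≤ L ^ 3 := one_le_pow₀ (by linarith)
          have h14 : 1 ≤ s * L ^ 3 := by nlinarith
          calc u = u * 1 := (mul_one u).symm
            _ ≤ u * (s * L ^ 3) := mul_le_mul_of_nonneg_left h14 (by linarith)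
            _ = _ := by ring
        linarith

end Pool.Agent.Lib.MP_ea4949_co
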