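import Pool.Agent.Lib.MP_ea4949_co.Encode

set_option autoImplicit false
set_option linter.unusedSectionVars false
set_option linter.unusedVariables false

namespace Pool.Agent.Lib.MP_ea4949_co

open Finset
open scoped Pointwise

variable {α : Type*} [DecidableEq α] [Fintype α]

/-- The families of representatives of pairwise non-adjacent orbits. -/
def IsT (σ : Equiv.Perm α) (R : Finset (Finset α)) : Prop :=
  ∀ X ∈ R, ∀ Y ∈ R, X ≠ Y → ∀ k : ℤ, (σ ^ k) • X ≠ Y ∧ ¬ (JG α).Adj ((σ ^ k) • X) Y

/-- All such families within `V`. -/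
noncomputable def indT (σ : Equiv.Perm α) (V : Finset (Finset α)) : Finset (Finset (Finset α)) :=
  @Finset.filter _ (fun R => IsT σ R) (Classical.decPred _) V.powerset

lemma mem_indT {σ : Equiv.Perm α} {V R : Finset (Finset α)} : R ∈ indT σ V ↔ R ⊆ V ∧ IsT σ R := by
  unfold indT
  rw [mem_cfilter, mem_powerset]

/-- The union of the orbits. -/
noncomputable def Om (σ : Equiv.Perm α) (R : Finset (Finset α)) : Finset (Finset α) :=
  @Finset.filter _ (fun X => ∃ k : ℤ, (σ ^ k) • X ∈ R) (Classical.decPred _) univ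

lemma mem_Om {σ : Equiv.Perm α} {R : Finset (Finset α)} {X : Finset α} :
    X ∈ Om σ R ↔ ∃ k : ℤ, (σ ^ k) • X ∈ R := by
  unfold Om
  rw [mem_cfilter]; simp

lemma subset_Om (σ : Equiv.Perm α) (R : Finset (Finset α)) : R ⊆ Om σ R := by
  intro X hX
  rw [mem_Om]
  exact ⟨0, by simpa using hX⟩

lemma Om_subset {σ : Equiv.Perm α} {U R : Finset (Finset α)} (hU : Inv σ U) (hR : R ⊆ U) :
    Om σ R ⊆ U := by
  intro X hX
  rw [mem_Om] at hX
  obtain ⟨k, hk⟩ := hX
  exact (hU.zpow k X).mp (hR hk)

lemma JG_adj_zpow (σ : Equiv.Perm α) (k : ℤ) {X Y : Finset α} :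
    (JG α).Adj ((σ ^ k) • X) Y ↔ (JG α).Adj X ((σ ^ (-k)) • Y) := by
  have h := JG_adj_smul (σ ^ k) (X := X) (Y := (σ ^ (-k)) • Y)
  rw [smul_smul, ← zpow_add, add_neg_cancel, zpow_zero, one_smul] at h
  exact h

/-- A maximal family of representatives dominates. -/
lemma exists_dom (σ : Equiv.Perm α) (V U : Finset (Finset α)) (hUV : U ⊆ V) (hU : Inv σ U) :
    ∃ R ∈ indT σ V, Om σ R ⊆ U ∧ ∀ Z ∈ U, Z ∈ Om σ R ∨ ∃ X ∈ Om σ R, (JG α).Adj X Z := by
  classical
  have hne : (indT σ U).Nonempty := by
    refine ⟨∅, ?_⟩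
    rw [mem_indT]
    exact ⟨empty_subset _, fun X hX => absurd hX (notMem_empty _)⟩
  obtain ⟨R, hR, hmax⟩ := exists_max_image (indT σ U) (fun R => R.card) hne
  rw [mem_indT] at hR
  refine ⟨R, mem_indT.mpr ⟨hR.1.trans hUV, hR.2⟩, Om_subset hU hR.1, ?_⟩
  intro Z hZ
  by_contra hcon
  push Not at hcon
  obtain ⟨h1, h2⟩ := hcon
  have hZR : Z ∉ R := fun h => h1 (subset_Om σ R h)
  have hins : insert Z R ∈ indT σ U := by
    rw [mem_indT]
    refine ⟨insert_subset_iff.mpr ⟨hZ, hR.1⟩, ?_⟩
    intro X hX Y hY hXY k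
    rw [mem_insert] at hX hY
    rcases hX with rfl | hX <;> rcases hY with rfl | hY
    · exact absurd rfl hXY
    · constructor
      · intro h
        apply h1
        rw [mem_Om]
        exact ⟨k, h ▸ hY⟩
      · intro h
        rw [JG_adj_zpow] at h
        refine h2 ((σ ^ (-k)) • Y) ?_ h.symm
        rw [mem_Om]
        refine ⟨k, ?_⟩
        rw [smul_smul, ← zpow_add, add_neg_cancel, zpow_zero, one_smul]
        exact hY
    · constructor
      · intro h
        apply h1
        rw [mem_Om]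
        refine ⟨-k, ?_⟩
        rw [← h, smul_smul, ← zpow_add, neg_add_cancel, zpow_zero, one_smul]
        exact hX
      · intro h
        refine h2 ((σ ^ k) • X) ?_ h
        rw [mem_Om]
        refine ⟨-k, ?_⟩
        rw [smul_smul, ← zpow_add, neg_add_cancel, zpow_zero, one_smul]
        exact hX
    · exact hR.2 X hX Y hY hXY k
  have := hmax _ hins
  rw [card_insert_of_notMem hZR] at this
  omega

/-- The nonfixed elements. -/
def nfx (σ : Equiv.Perm α) (R : Finset (Finset α)) : Finset (Finset α) :=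
  R.filter (fun X => σ • X ≠ X)

lemma mem_nfx {σ : Equiv.Perm α} {R : Finset (Finset α)} {X : Finset α} :
    X ∈ nfx σ R ↔ X ∈ R ∧ σ • X ≠ X := by
  unfold nfx; rw [mem_filter]

/-- Move the elements of `A`. -/
def move (σ : Equiv.Perm α) (R A : Finset (Finset α)) : Finset (Finset α) :=
  (R \ A) ∪ A.image (fun X => σ • X)

lemma mem_move {σ : Equiv.Perm α} {R A : Finset (Finset α)} {X : Finset α} :
    X ∈ move σ R A ↔ (X ∈ R ∧ X ∉ A) ∨ ∃ Y ∈ A, σ • Y = X := by
  unfold move
  rw [mem_union, mem_sdiff, mem_image]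

lemma Om_move {σ : Equiv.Perm α} {R A : Finset (Finset α)} (hA : A ⊆ R) :
    Om σ (move σ R A) = Om σ R := by
  ext X
  rw [mem_Om, mem_Om]
  constructor
  · rintro ⟨k, hk⟩
    rw [mem_move] at hk
    rcases hk with hk | ⟨Y, hY, hk⟩
    · exact ⟨k, hk.1⟩
    · refine ⟨k - 1, ?_⟩
      have h1 : (σ ^ (k - 1)) • X = Y := by
        have h2 : σ • ((σ ^ (k - 1)) • X) = σ • Y := by
          rw [hk, smul_smul]
          congr 1
          rw [← zpow_one_add]
          congr 1
          ring
        exact smul_left_cancel σ h2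
      rw [h1]
      exact hA hY
  · rintro ⟨k, hk⟩
    by_cases h : (σ ^ k) • X ∈ A
    · refine ⟨k + 1, ?_⟩
      rw [mem_move]
      right
      refine ⟨_, h, ?_⟩
      rw [smul_smul, ← zpow_one_add, add_comm]
    · exact ⟨k, by rw [mem_move]; left; exact ⟨hk, h⟩⟩

lemma move_mem_indT {σ : Equiv.Perm α} {V R A : Finset (Finset α)} (hV : Inv σ V)
    (hR : R ∈ indT σ V) (hA : A ⊆ R) : move σ R A ∈ indT σ V := by
  rw [mem_indT] at hR ⊢
  obtain ⟨hRV, hRT⟩ := hR
  -- every element of the moved family is a translate of an element of `R`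
  have hrep : ∀ X ∈ move σ R A, ∃ X' ∈ R, ∃ j : ℤ, (σ ^ j) • X' = X := by
    intro X hX
    rw [mem_move] at hX
    rcases hX with hX | ⟨Y, hY, rfl⟩
    · exact ⟨X, hX.1, 0, by simp⟩
    · exact ⟨Y, hA hY, 1, by simp⟩
  constructor
  · intro X hX
    obtain ⟨X', hX', j, rfl⟩ := hrep X hX
    exact (hV.zpow j X').mpr (hRV hX')
  · intro X hX Y hY hXY k
    -- distinct representatives
    have hX₀ := hX
    have hY₀ := hY
    rw [mem_move] at hX₀ hY₀
    have key : ∀ X' ∈ R, ∀ Y' ∈ R, ∀ i j : ℤ, X' ≠ Y' → (σ ^ i) • X' = X → (σ ^ j) • Y' = Y →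
        (σ ^ k) • X ≠ Y ∧ ¬ (JG α).Adj ((σ ^ k) • X) Y := by
      intro X' hX' Y' hY' i j hne hXe hYe
      have h := hRT X' hX' Y' hY' hne (-j + (k + i))
      constructor
      · intro h1
        apply h.1
        rw [zpow_add, mul_smul, zpow_add, mul_smul, hXe, h1, ← hYe, smul_smul, ← zpow_add,
          neg_add_cancel, zpow_zero, one_smul]
      · intro h1
        apply h.2
        rw [zpow_add, mul_smul, zpow_add, mul_smul, hXe, JG_adj_zpow, neg_neg, hYe]
        exact h1
    rcases hX₀ with hX₀ | ⟨X', hX', hXe⟩ <;> rcases hY₀ with hY₀ | ⟨Y', hY', hYe⟩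
    · exact key X hX₀.1 Y hY₀.1 0 0 hXY (by simp) (by simp)
    · refine key X hX₀.1 Y' (hA hY') 0 1 ?_ (by simp) (by simpa using hYe)
      rintro rfl; exact hX₀.2 hY'
    · refine key X' (hA hX') Y hY₀.1 1 0 ?_ (by simpa using hXe) (by simp)
      rintro rfl; exact hY₀.2 hX'
    · refine key X' (hA hX') Y' (hA hY') 1 1 ?_ (by simpa using hXe) (by simpa using hYe)
      rintro rfl; exact hXY (hXe.symm.trans hYe)

lemma move_inj {σ : Equiv.Perm α} {R A A' : Finset (Finset α)} (hR : IsT σ R)
    (hA : A ⊆ nfx σ R) (hA' : A' ⊆ nfx σ R) (h : move σ R A = move σ R A') : A = A' := by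
  have key : ∀ A : Finset (Finset α), A ⊆ nfx σ R → ∀ X ∈ nfx σ R, (X ∈ move σ R A ↔ X ∉ A) := by
    intro A hA X hX
    have hX' := mem_nfx.mp hX
    rw [mem_move]
    constructor
    · rintro (h | ⟨Y, hY, h⟩)
      · exact h.2
      · exfalso
        have hY' := mem_nfx.mp (hA hY)
        have hne : Y ≠ X := by
          rintro rfl
          exact hY'.2 h
        exact (hR Y hY'.1 X hX'.1 hne 1).1 (by simpa using h)
    · intro h
      exact Or.inl ⟨hX'.1, h⟩
  ext X
  by_cases hX : X ∈ nfx σ R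
  · have h1 := key A hA X hX
    have h2 := key A' hA' X hX
    rw [h] at h1
    exact not_iff_not.mp (h1.symm.trans h2)
  · exact ⟨fun hXA => absurd (hA hXA) hX, fun hXA => absurd (hA' hXA) hX⟩

/-- Images with many nonfixed representatives. -/
lemma card_big_le (σ : Equiv.Perm α) (V : Finset (Finset α)) (hV : Inv σ V) (g : ℕ) :
    (((indT σ V).filter (fun R => g ≤ (nfx σ R).card)).image (Om σ)).card * 2 ^ g ≤
      (indT σ V).card := by
  classical
  set Bg := ((indT σ V).filter (fun R => g ≤ (nfx σ R).card)).image (Om σ) with hBg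
  have h1 : ∀ O ∈ Bg, 2 ^ g ≤ ((indT σ V).filter (fun R => Om σ R = O)).card := by
    intro O hO
    rw [hBg, mem_image] at hO
    obtain ⟨R, hR, rfl⟩ := hO
    rw [mem_filter] at hR
    have hRT := (mem_indT.mp hR.1).2
    have h2 : ((nfx σ R).powerset.image (move σ R)) ⊆
        (indT σ V).filter (fun R' => Om σ R' = Om σ R) := by
      intro R' hR'
      rw [mem_image] at hR'
      obtain ⟨A, hA, rfl⟩ := hR'
      rw [mem_powerset] at hA
      have hAR : A ⊆ R := hA.trans (filter_subset _ _)
      rw [mem_filter]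
      exact ⟨move_mem_indT hV hR.1 hAR, Om_move hAR⟩
    have h3 := card_le_card h2
    rw [card_image_of_injOn, card_powerset] at h3
    · exact (Nat.pow_le_pow_right (by norm_num) hR.2).trans h3
    · intro A hA A' hA' h
      rw [mem_coe, mem_powerset] at hA hA'
      exact move_inj hRT hA hA' h
  calc Bg.card * 2 ^ g = ∑ O ∈ Bg, 2 ^ g := by rw [sum_const, smul_eq_mul]
    _ ≤ ∑ O ∈ Bg, ((indT σ V).filter (fun R => Om σ R = O)).card := sum_le_sum h1
    _ = (Bg.biUnion (fun O => (indT σ V).filter (fun R => Om σ R = O))).card := by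
        rw [card_biUnion]
        intro O _ O' _ hne
        rw [Function.onFun, disjoint_left]
        intro R hR hR'
        rw [mem_filter] at hR hR'
        exact hne (hR.2.symm.trans hR'.2)
    _ ≤ (indT σ V).card := by
        refine card_le_card (fun R hR => ?_)
        rw [mem_biUnion] at hR
        obtain ⟨O, _, hR⟩ := hR
        exact (mem_filter.mp hR).1

lemma indT_subset_indSets (σ : Equiv.Perm α) (V : Finset (Finset α)) :
    indT σ V ⊆ indSets (JG α) V := by
  intro R hR
  rw [mem_indT] at hR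
  rw [mem_indSets]
  refine ⟨hR.1, fun X hX Y hY hadj => ?_⟩
  have hne : X ≠ Y := by
    rintro rfl
    exact (JG α).loopless.irrefl _ hadj
  have := (hR.2 X hX Y hY hne 0).2
  rw [zpow_zero, one_smul] at this
  exact this hadj

lemma card_powerset_le (V : Finset (Finset α)) (g : ℕ) :
    (V.powerset.filter (fun A => A.card < g)).card ≤ ∑ j ∈ range g, V.card.choose j := by
  classical
  have h1 : V.powerset.filter (fun A => A.card < g) ⊆
      (range g).biUnion (fun j => V.powersetCard j) := by
    intro A hA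
    rw [mem_filter, mem_powerset] at hA
    rw [mem_biUnion]
    exact ⟨A.card, mem_range.mpr hA.2, mem_powersetCard.mpr ⟨hA.1, rfl⟩⟩
  refine (card_le_card h1).trans (card_biUnion_le.trans ?_)
  refine sum_le_sum (fun j _ => ?_)
  rw [card_powersetCard]

/-- Families with few nonfixed representatives. -/
lemma card_small_le (σ : Equiv.Perm α) (V : Finset (Finset α)) (g : ℕ) :
    ((indT σ V).filter (fun R => ¬ g ≤ (nfx σ R).card)).card ≤
      (indSets (JG α) (V.filter (fun X => σ • X = X))).card *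
        ∑ j ∈ range g, V.card.choose j := by
  classical
  refine le_trans ?_ (Nat.mul_le_mul_left _ (card_powerset_le V g))
  rw [← card_product]
  refine card_le_card_of_injOn (fun R => (R.filter (fun X => σ • X = X), nfx σ R)) ?_ ?_
  · intro R hR
    rw [mem_coe, mem_filter] at hR
    have h1 := indT_subset_indSets σ V hR.1
    rw [mem_indSets] at h1
    rw [mem_coe, mem_product, mem_indSets, mem_filter, mem_powerset]
    refine ⟨⟨?_, ?_⟩, ?_, ?_⟩
    · intro X hX
      simp only [mem_filter] at hX ⊢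
      exact ⟨h1.1 hX.1, hX.2⟩
    · intro X hX Y hY
      simp only [mem_filter] at hX hY
      exact h1.2 X hX.1 Y hY.1
    · exact (filter_subset _ _).trans h1.1
    · have := hR.2
      simp only
      omega
  · intro R _ R' _ h
    simp only [Prod.mk.injEq] at h
    have h1 : ∀ R : Finset (Finset α), R = R.filter (fun X => σ • X = X) ∪ nfx σ R := by
      intro R
      unfold nfx
      exact (filter_union_filter_not_eq _ _).symm
    rw [h1 R, h1 R', h.1, h.2]

/-- The number of unions of orbits. -/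
theorem card_image_Om_le (σ : Equiv.Perm α) (V : Finset (Finset α)) (hV : Inv σ V) (g : ℕ) :
    ((indT σ V).image (Om σ)).card * 2 ^ g ≤ (indSets (JG α) V).card +
      (indSets (JG α) (V.filter (fun X => σ • X = X))).card *
        (∑ j ∈ range g, V.card.choose j) * 2 ^ g := by
  classical
  have h1 : (indT σ V).image (Om σ) =
      ((indT σ V).filter (fun R => g ≤ (nfx σ R).card)).image (Om σ) ∪
      ((indT σ V).filter (fun R => ¬ g ≤ (nfx σ R).card)).image (Om σ) := by
    rw [← image_union, filter_union_filter_not_eq]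
  rw [h1]
  calc _ ≤ ((((indT σ V).filter (fun R => g ≤ (nfx σ R).card)).image (Om σ)).card +
      (((indT σ V).filter (fun R => ¬ g ≤ (nfx σ R).card)).image (Om σ)).card) * 2 ^ g :=
        Nat.mul_le_mul_right _ (card_union_le _ _)
    _ = (((indT σ V).filter (fun R => g ≤ (nfx σ R).card)).image (Om σ)).card * 2 ^ g +
      (((indT σ V).filter (fun R => ¬ g ≤ (nfx σ R).card)).image (Om σ)).card * 2 ^ g := by ring
    _ ≤ (indSets (JG α) V).card + _ := by
        refine add_le_add ?_ ?_
        · exact (card_big_le σ V hV g).trans (card_le_card (indT_subset_indSets σ V))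
        · exact Nat.mul_le_mul_right _ (card_image_le.trans (card_small_le σ V g))

end Pool.Agent.Lib.MP_ea4949_co
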